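import Pool.Agent.H12Z.FreeDefs

set_option autoImplicit false

/-!
# An abstract criterion for the commuting bounded approximation property
-/

namespace Pool.Agent.H12Z.Free

open Set Filter Topology

variable {X : Type} [NormedAddCommGroup X] [NormedSpace ℝ X]

/-- finite rank -/
abbrev FR (U : X →L[ℝ] X) : Prop := FiniteDimensional ℝ (LinearMap.range (U : X →ₗ[ℝ] X))

lemma FR.decomp {U : X →L[ℝ] X} (h : FR U) :
    ∃ (n : ℕ) (ψ : Fin n → X →L[ℝ] ℝ) (v : Fin n → X), ∀ x, U x = ∑ i, ψ i (U x) • v i := by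
  let F := LinearMap.range (U : X →ₗ[ℝ] X)
  let b := Module.finBasis ℝ F
  choose ψ hψ _ using fun i =>
    exists_extension_norm_eq F (LinearMap.toContinuousLinearMap (b.coord i))
  refine ⟨_, ψ, fun i => (b i : X), fun x => ?_⟩
  let y : F := ⟨U x, LinearMap.mem_range_self (U : X →ₗ[ℝ] X) x⟩
  have h1 := congrArg (fun z : F => (z : X)) (b.sum_repr y)
  simp only [AddSubmonoidClass.coe_finsetSum, SetLike.val_smul] at h1
  have h2 : ∀ i, ψ i (U x) = b.repr y i := fun i => hψ i y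
  simp_rw [h2]
  exact h1.symm

lemma FR.comp_left {U : X →L[ℝ] X} (h : FR U) (A : X →L[ℝ] X) : FR (A.comp U) := by
  have : LinearMap.range ((A.comp U : X →L[ℝ] X) : X →ₗ[ℝ] X) =
      (LinearMap.range (U : X →ₗ[ℝ] X)).map (A : X →ₗ[ℝ] X) := LinearMap.range_comp _ _
  unfold FR
  rw [this]
  infer_instance

lemma FR.comp_right {U : X →L[ℝ] X} (h : FR U) (A : X →L[ℝ] X) : FR (U.comp A) := by
  have : LinearMap.range ((U.comp A : X →L[ℝ] X) : X →ₗ[ℝ] X) ≤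
      LinearMap.range (U : X →ₗ[ℝ] X) := LinearMap.range_comp_le_range _ _
  exact Submodule.finiteDimensional_of_le this

lemma FR.add {U V : X →L[ℝ] X} (h : FR U) (h' : FR V) : FR (U + V) := by
  have : LinearMap.range ((U + V : X →L[ℝ] X) : X →ₗ[ℝ] X) ≤
      LinearMap.range (U : X →ₗ[ℝ] X) ⊔ LinearMap.range (V : X →ₗ[ℝ] X) := by
    rintro _ ⟨x, rfl⟩
    exact Submodule.add_mem_sup (LinearMap.mem_range_self _ x) (LinearMap.mem_range_self _ x)
  exact Submodule.finiteDimensional_of_le this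

lemma FR.sub {U V : X →L[ℝ] X} (h : FR U) (h' : FR V) : FR (U - V) := by
  have : U - V = U + (-ContinuousLinearMap.id ℝ X).comp V := by ext x; simp [sub_eq_add_neg]
  rw [this]
  exact h.add (h'.comp_left _)

lemma tendsto_comp_FR {U : X →L[ℝ] X} (h : FR U) (D : ℕ → X →L[ℝ] X)
    (hD : ∀ x, Tendsto (fun n => D n x) atTop (𝓝 0)) :
    Tendsto (fun n => ‖(D n).comp U‖) atTop (𝓝 0) := by
  obtain ⟨k, ψ, v, hU⟩ := h.decomp
  have hb : ∀ n, ‖(D n).comp U‖ ≤ ∑ i, ‖(ψ i).comp U‖ * ‖D n (v i)‖ := by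
    intro n
    apply ContinuousLinearMap.opNorm_le_bound _ (by positivity)
    intro x
    rw [ContinuousLinearMap.comp_apply, hU x, map_sum, Finset.sum_mul]
    refine (norm_sum_le _ _).trans (Finset.sum_le_sum fun i _ => ?_)
    rw [map_smul, norm_smul]
    have := ((ψ i).comp U).le_opNorm x
    calc ‖ψ i (U x)‖ * ‖D n (v i)‖ ≤ (‖(ψ i).comp U‖ * ‖x‖) * ‖D n (v i)‖ :=
          mul_le_mul_of_nonneg_right this (norm_nonneg _)
      _ = _ := by ring
  have ht : Tendsto (fun n => ∑ i, ‖(ψ i).comp U‖ * ‖D n (v i)‖) atTop (𝓝 0) := by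
    have : (0 : ℝ) = ∑ i : Fin k, ‖(ψ i).comp U‖ * ‖(0 : X)‖ := by simp
    rw [this]
    exact tendsto_finsetSum _ fun i _ => ((hD (v i)).norm).const_mul _
  exact squeeze_zero (fun _ => norm_nonneg _) hb ht

lemma tendsto_FR_comp {U : X →L[ℝ] X} (h : FR U) (D : ℕ → X →L[ℝ] X)
    (hD : ∀ ψ : X →L[ℝ] ℝ, Tendsto (fun n => ‖(ψ.comp U).comp (D n)‖) atTop (𝓝 0)) :
    Tendsto (fun n => ‖U.comp (D n)‖) atTop (𝓝 0) := by
  obtain ⟨k, ψ, v, hU⟩ := h.decomp
  have hb : ∀ n, ‖U.comp (D n)‖ ≤ ∑ i, ‖((ψ i).comp U).comp (D n)‖ * ‖v i‖ := by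
    intro n
    apply ContinuousLinearMap.opNorm_le_bound _ (by positivity)
    intro x
    rw [ContinuousLinearMap.comp_apply, hU, Finset.sum_mul]
    refine (norm_sum_le _ _).trans (Finset.sum_le_sum fun i _ => ?_)
    rw [norm_smul]
    have := (((ψ i).comp U).comp (D n)).le_opNorm x
    calc ‖ψ i (U (D n x))‖ * ‖v i‖ ≤ (‖((ψ i).comp U).comp (D n)‖ * ‖x‖) * ‖v i‖ :=
          mul_le_mul_of_nonneg_right this (norm_nonneg _)
      _ = _ := by ring
  have ht : Tendsto (fun n => ∑ i, ‖((ψ i).comp U).comp (D n)‖ * ‖v i‖) atTop (𝓝 0) := by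
    have : (0 : ℝ) = ∑ i : Fin k, 0 * ‖v i‖ := by simp
    rw [this]
    exact tendsto_finsetSum _ fun i _ => (hD (ψ i)).mul_const _
  exact squeeze_zero (fun _ => norm_nonneg _) hb ht

lemma FR.gen_inverse {S : X →L[ℝ] X} (h : FR S) :
    ∃ σ : X →L[ℝ] X, ∀ x, S (σ (S x)) = S x := by
  let F := LinearMap.range (S : X →ₗ[ℝ] X)
  obtain ⟨s, hs⟩ := (S : X →ₗ[ℝ] X).rangeRestrict.exists_rightInverse_of_surjective
    (LinearMap.range_rangeRestrict _)
  let f : F →L[ℝ] X := LinearMap.toContinuousLinearMap s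
  obtain ⟨g, hg⟩ := f.exist_extension_of_finiteDimensional_range
  refine ⟨g, fun x => ?_⟩
  let y : F := ⟨S x, LinearMap.mem_range_self (S : X →ₗ[ℝ] X) x⟩
  have h1 : g (S x) = s y := (congrArg (fun u : F →L[ℝ] X => u y) hg).symm
  rw [h1]
  exact congrArg Subtype.val (LinearMap.congr_fun hs y)

lemma FR.left_inverse {S A : X →L[ℝ] X} (h : FR S) (hA : ∀ x, A (S x) = 0 → S x = 0) :
    ∃ τ : X →L[ℝ] X, ∀ x, τ (A (S x)) = S x := by
  obtain ⟨σ, hσ⟩ := (h.comp_left A).gen_inverse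
  refine ⟨S.comp σ, fun x => ?_⟩
  have h1 := hσ x
  simp only [ContinuousLinearMap.comp_apply] at h1 ⊢
  have h2 := hA (σ (A (S x)) - x) (by rw [map_sub, map_sub, h1, sub_self])
  rwa [map_sub, sub_eq_zero] at h2

section
variable (Y : Submodule ℝ (X →L[ℝ] ℝ)) (T : ℕ → X →L[ℝ] X)
  (hFR : ∀ n, FR (T n)) (hT : ∀ x, Tendsto (fun n => T n x) atTop (𝓝 x))
  (hY : ∀ n (ψ : X →L[ℝ] ℝ), ψ.comp (T n) ∈ Y)
  (hY' : ∀ φ ∈ Y, Tendsto (fun n => ‖φ - φ.comp (T n)‖) atTop (𝓝 0))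

include hFR hT hY hY' in
lemma cbap_step (S : X →L[ℝ] X) (hS : FR S) (hSY : ∀ ψ : X →L[ℝ] ℝ, ψ.comp S ∈ Y) (k : ℕ) :
    ∃ (S' : X →L[ℝ] X) (m : ℕ), FR S' ∧ (∀ ψ : X →L[ℝ] ℝ, ψ.comp S' ∈ Y) ∧ k ≤ m ∧
      ‖S' - T m‖ ≤ 1 / ((k : ℝ) + 1) ∧ S'.comp S = S ∧ S.comp S' = S := by
  let D : ℕ → X →L[ℝ] X := fun n => ContinuousLinearMap.id ℝ X - T n
  have hD : ∀ x, Tendsto (fun n => D n x) atTop (𝓝 0) := by
    intro x
    have := (tendsto_const_nhds (x := x)).sub (hT x)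
    simpa [D] using this
  obtain ⟨σ, hσ⟩ := hS.gen_inverse
  let Q := σ.comp S
  have hQ : FR Q := hS.comp_left σ
  have hQY : ∀ ψ : X →L[ℝ] ℝ, ψ.comp Q ∈ Y := fun ψ => hSY (ψ.comp σ)
  -- a left inverse of some `T m` on the range of `S`
  have h1 := tendsto_comp_FR (hS.comp_right σ) D hD
  obtain ⟨m0, hm0⟩ := (h1.eventually (gt_mem_nhds (show (0 : ℝ) < 1 from one_pos))).exists
  have hinj : ∀ x, T m0 (S x) = 0 → S x = 0 := by
    intro x hx
    have e : ((D m0).comp (S.comp σ)) (S x) = S x := by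
      simp [D, hσ, hx]
    have := ((D m0).comp (S.comp σ)).le_opNorm (S x)
    rw [e] at this
    by_contra hne
    have hpos := norm_pos_iff.2 hne
    nlinarith
  obtain ⟨τ, hτ⟩ := hS.left_inverse hinj
  let P := τ.comp (T m0)
  have hP : FR P := (hFR m0).comp_left τ
  have hPY : ∀ ψ : X →L[ℝ] ℝ, ψ.comp P ∈ Y := fun ψ => hY m0 (ψ.comp τ)
  have t1 := tendsto_comp_FR hP D hD
  have t2 := tendsto_FR_comp hQ D (fun ψ => by
    have := hY' _ (hQY ψ)
    simpa [D, ContinuousLinearMap.comp_sub] using this)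
  have t3 : Tendsto (fun n => ‖(D n).comp P‖ + ‖Q.comp (D n)‖ + ‖Q‖ * ‖(D n).comp P‖) atTop (𝓝 0) := by
    simpa using (t1.add t2).add (t1.const_mul ‖Q‖)
  have hk : (0 : ℝ) < 1 / ((k : ℝ) + 1) := by positivity
  obtain ⟨m, hm1, hm2⟩ := ((t3.eventually (gt_mem_nhds hk)).and (eventually_ge_atTop k)).exists
  refine ⟨T m + ((D m).comp P + Q.comp (D m) - Q.comp ((D m).comp P)), m, ?_, ?_, hm2, ?_, ?_, ?_⟩
  · exact (hFR m).add (((hP.comp_left _).add (hQ.comp_right _)).sub (hQ.comp_right _))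
  · intro ψ
    have e : ψ.comp (T m + ((D m).comp P + Q.comp (D m) - Q.comp ((D m).comp P))) =
        ψ.comp (T m) + ((ψ.comp (D m)).comp P + (ψ.comp Q - (ψ.comp Q).comp (T m)) -
          ((ψ.comp Q).comp (D m)).comp P) := by
      ext x; simp [D]
    rw [e]
    exact Y.add_mem (hY m ψ) (Y.sub_mem (Y.add_mem (hPY _) (Y.sub_mem (hQY ψ) (hY m _))) (hPY _))
  · rw [add_sub_cancel_left]
    refine le_trans ?_ hm1.le
    refine (norm_sub_le _ _).trans (add_le_add (norm_add_le _ _) ?_)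
    exact ContinuousLinearMap.opNorm_comp_le _ _
  · ext x
    simp [D, P, hτ]
  · ext x
    simp [D, Q, hσ]

include hFR hT hY hY' in
theorem cbap_of (C : ℝ) (hC : ∀ n, ‖T n‖ ≤ C) : HasCBAP X := by
  let St := {S : X →L[ℝ] X // FR S ∧ ∀ ψ : X →L[ℝ] ℝ, ψ.comp S ∈ Y}
  have hstep : ∀ (k : ℕ) (S : St), ∃ (S' : St) (m : ℕ), k ≤ m ∧
      ‖S'.1 - T m‖ ≤ 1 / ((k : ℝ) + 1) ∧ S'.1.comp S.1 = S.1 ∧ S.1.comp S'.1 = S.1 := by
    intro k S
    obtain ⟨S', m, h1, h2, h3⟩ := cbap_step Y T hFR hT hY hY' S.1 S.2.1 S.2.2 k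
    exact ⟨⟨S', h1, h2⟩, m, h3⟩
  choose nx mm h1 h2 h3 h4 using hstep
  let s : ℕ → St := fun n => Nat.rec ⟨T 0, hFR 0, hY 0⟩ (fun k t => nx k t) n
  let m : ℕ → ℕ := fun k => mm k (s k)
  have hs : ∀ k, s (k + 1) = nx k (s k) := fun _ => rfl
  have c1 : ∀ k l, k < l → (s l).1.comp (s k).1 = (s k).1 ∧ (s k).1.comp (s l).1 = (s k).1 := by
    intro k l hkl
    induction l, hkl using Nat.le_induction with
    | base => exact ⟨h3 k (s k), h4 k (s k)⟩
    | succ l hl ih =>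
      constructor
      · rw [← ih.1, ← ContinuousLinearMap.comp_assoc, hs, h3, ih.1]
      · rw [← ih.2, ContinuousLinearMap.comp_assoc, hs, h4, ih.2]
  have hn : ∀ k, ‖(s (k + 1)).1 - T (m k)‖ ≤ 1 / ((k : ℝ) + 1) := fun k => h2 k (s k)
  refine ⟨fun k => (s (k + 1)).1, fun k => (s (k + 1)).2.1, ⟨C + 1, fun k => ?_⟩, fun x => ?_, ?_⟩
  · have a1 := hn k
    have a2 : 1 / ((k : ℝ) + 1) ≤ 1 := by
      rw [div_le_one (by positivity)]; linarith [Nat.cast_nonneg (α := ℝ) k]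
    have a3 := norm_add_le ((s (k + 1)).1 - T (m k)) (T (m k))
    rw [sub_add_cancel] at a3
    linarith [hC (m k)]
  · have hm : Tendsto m atTop atTop := tendsto_atTop_mono (fun k => h1 k (s k)) tendsto_id
    have a1 : Tendsto (fun k => T (m k) x) atTop (𝓝 x) := (hT x).comp hm
    have a2 : Tendsto (fun k => ((s (k + 1)).1 - T (m k)) x) atTop (𝓝 0) := by
      rw [tendsto_zero_iff_norm_tendsto_zero]
      have a3 : Tendsto (fun k : ℕ => 1 / ((k : ℝ) + 1) * ‖x‖) atTop (𝓝 0) := by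
        simpa using tendsto_one_div_add_atTop_nhds_zero_nat.mul_const ‖x‖
      refine squeeze_zero (fun _ => norm_nonneg _) (fun k => ?_) a3
      exact (ContinuousLinearMap.le_opNorm _ x).trans
        (mul_le_mul_of_nonneg_right (hn k) (norm_nonneg _))
    simpa using a2.add a1
  · intro n k
    rcases lt_trichotomy n k with h | h | h
    · rw [(c1 (n + 1) (k + 1) (by omega)).1, (c1 (n + 1) (k + 1) (by omega)).2]
    · rw [h]
    · rw [(c1 (k + 1) (n + 1) (by omega)).1, (c1 (k + 1) (n + 1) (by omega)).2]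

end

end Pool.Agent.H12Z.Free
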