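import Mathlib

set_option autoImplicit false

/-!
# Local affine approximation along limit directions of a set
-/

namespace Pool.Agent.H12Z.Free

open Set Filter Topology Metric
open scoped InnerProductSpace

variable {E : Type} [NormedAddCommGroup E] [InnerProductSpace ℝ E] [FiniteDimensional ℝ E]

lemma greedy (n : ℕ) : ∀ P : Set E, IsCompact P → Module.finrank ℝ (Submodule.span ℝ P) ≤ n →
    ∃ (ι : Type) (_ : Fintype ι) (e : ι → E) (ℓ : ι → E →L[ℝ] ℝ), (∀ j, e j ∈ P) ∧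
      ∀ p ∈ P, ∑ j, |ℓ j p| ≤ 3 ^ n ∧ ∑ j, ℓ j p • e j = p := by
  have triv : ∀ (n : ℕ) (P : Set E), (∀ p ∈ P, p = 0) →
      ∃ (ι : Type) (_ : Fintype ι) (e : ι → E) (ℓ : ι → E →L[ℝ] ℝ), (∀ j, e j ∈ P) ∧
      ∀ p ∈ P, ∑ j, |ℓ j p| ≤ 3 ^ n ∧ ∑ j, ℓ j p • e j = p := by
    intro n P h
    refine ⟨Empty, inferInstance, Empty.elim, Empty.elim, fun j => j.elim, fun p hp => ?_⟩
    simp [h p hp]
  induction n with
  | zero =>
    intro P _ h
    apply triv
    intro p hp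
    have h0 : Submodule.span ℝ P = ⊥ := Submodule.finrank_eq_zero.1 (Nat.le_zero.1 h)
    have : p ∈ Submodule.span ℝ P := Submodule.subset_span hp
    rwa [h0, Submodule.mem_bot] at this
  | succ n ih =>
    intro P hP h
    by_cases h0 : ∀ p ∈ P, p = 0
    · exact triv _ P h0
    push Not at h0
    obtain ⟨p0, hp0, hp0'⟩ := h0
    obtain ⟨a, ha, hmax⟩ := hP.exists_isMaxOn ⟨p0, hp0⟩ continuous_norm.continuousOn
    have hmax' : ∀ p ∈ P, ‖p‖ ≤ ‖a‖ := fun p hp => hmax hp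
    have ha0 : 0 < ‖a‖ := (norm_pos_iff.2 hp0').trans_le (hmax' p0 hp0)
    let τ : E →L[ℝ] ℝ := (‖a‖ ^ 2)⁻¹ • innerSL ℝ a
    let π : E →L[ℝ] E := ContinuousLinearMap.id ℝ E - τ.smulRight a
    have hτa : τ a = 1 := by
      simp only [τ, smul_apply, innerSL_apply_apply, real_inner_self_eq_norm_sq,
        smul_eq_mul]
      field_simp
    have hπ : ∀ x, π x = x - τ x • a := fun x => rfl
    have hτπ : ∀ x, τ (π x) = 0 := by
      intro x; rw [hπ, map_sub, map_smul, hτa]; simp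
    have hτb : ∀ p ∈ P, |τ p| ≤ 1 := by
      intro p hp
      simp only [τ, smul_apply, innerSL_apply_apply, smul_eq_mul, abs_mul]
      rw [abs_of_pos (by positivity), inv_mul_le_iff₀ (by positivity)]
      have := abs_real_inner_le_norm a p
      nlinarith [hmax' p hp]
    have hlt : Submodule.span ℝ (π '' P) < Submodule.span ℝ P := by
      refine lt_of_le_of_ne ?_ ?_
      · rw [Submodule.span_le]
        rintro _ ⟨p, hp, rfl⟩
        rw [hπ]
        exact Submodule.sub_mem _ (Submodule.subset_span hp)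
          (Submodule.smul_mem _ _ (Submodule.subset_span ha))
      · intro he
        have h1 : a ∈ Submodule.span ℝ (π '' P) := he ▸ Submodule.subset_span ha
        have h2 : Submodule.span ℝ (π '' P) ≤ LinearMap.ker (τ : E →ₗ[ℝ] ℝ) := by
          rw [Submodule.span_le]
          rintro _ ⟨p, -, rfl⟩
          exact hτπ p
        have h3 : τ a = 0 := h2 h1
        rw [hτa] at h3
        exact one_ne_zero h3
    have hfr := Submodule.finrank_lt_finrank_of_lt hlt
    obtain ⟨ι, _, e', ℓ', he', hℓ'⟩ := ih (π '' P) (hP.image π.continuous) (by omega)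
    choose e he hee using he'
    let t : E →L[ℝ] ℝ := τ - ∑ j, τ (e j) • (ℓ' j).comp π
    have ht : ∀ p, t p = τ p - ∑ j, τ (e j) * ℓ' j (π p) := by
      intro p; simp [t]
    refine ⟨Option ι, inferInstance, fun o => o.elim a e, fun o => o.elim t fun j => (ℓ' j).comp π,
      ?_, fun p hp => ?_⟩
    · rintro (_ | j)
      · exact ha
      · exact he j
    · obtain ⟨h1, h2⟩ := hℓ' (π p) ⟨p, hp, rfl⟩
      simp only [Fintype.sum_option, Option.elim, ContinuousLinearMap.comp_apply]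
      constructor
      · have h3 : |t p| ≤ 1 + 3 ^ n := by
          rw [ht]
          refine (abs_sub _ _).trans (add_le_add (hτb p hp) ?_)
          refine (Finset.abs_sum_le_sum_abs _ _).trans (le_trans (Finset.sum_le_sum ?_) h1)
          intro j _
          rw [abs_mul]
          exact mul_le_of_le_one_left (abs_nonneg _) (hτb _ (he j))
        have : (1 : ℝ) ≤ 3 ^ n := one_le_pow₀ (by norm_num)
        rw [pow_succ]
        linarith
      · rw [ht]
        have h4 : ∑ j, ℓ' j (π p) • e j = π p + ∑ j, (τ (e j) * ℓ' j (π p)) • a := by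
          have h5 : ∑ j, ℓ' j (π p) • e j =
              ∑ j, (ℓ' j (π p) • e' j + (τ (e j) * ℓ' j (π p)) • a) := by
            refine Finset.sum_congr rfl fun j _ => ?_
            rw [← hee j, hπ (e j), smul_sub, smul_smul, mul_comm]
            simp
          rw [h5, Finset.sum_add_distrib, h2]
        rw [h4, hπ p, ← Finset.sum_smul, sub_smul]
        abel

/-- unit directions of pairs of points of `K` near `x` -/
def Dir (K : Set E) (x : E) (r : ℝ) : Set E :=
  {w | ∃ y ∈ K, ∃ z ∈ K, y ∈ ball x r ∧ z ∈ ball x r ∧ y ≠ z ∧ w = ‖y - z‖⁻¹ • (y - z)}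

omit [FiniteDimensional ℝ E] in
lemma Dir.mono {K : Set E} {x : E} {r r' : ℝ} (h : r ≤ r') : Dir K x r ⊆ Dir K x r' := by
  rintro w ⟨y, hy, z, hz, h1, h2, h3⟩
  exact ⟨y, hy, z, hz, ball_subset_ball h h1, ball_subset_ball h h2, h3⟩

omit [FiniteDimensional ℝ E] in
lemma Dir.sub (K : Set E) (x : E) (r : ℝ) : closure (Dir K x r) ⊆ sphere 0 1 := by
  apply closure_minimal _ isClosed_sphere
  rintro w ⟨y, -, z, -, -, -, h3, rfl⟩
  have : ‖y - z‖ ≠ 0 := norm_ne_zero_iff.2 (sub_ne_zero.2 h3)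
  simp [norm_smul, this]

variable {X : Type} [NormedAddCommGroup X] [NormedSpace ℝ X]

lemma loc {K : Set E} (δ : E → X) (hδ : ∀ y ∈ K, ∀ z ∈ K, ‖δ y - δ z‖ ≤ ‖y - z‖) (x : E)
    {ε : ℝ} (hε : 0 < ε) :
    ∃ r, 0 < r ∧ r ≤ ε ∧ ∃ Λ : E →L[ℝ] X,
      (∀ u ∈ K ∩ ball x r, ∀ v ∈ K ∩ ball x r,
        ‖Λ (u - v)‖ ≤ (3 ^ Module.finrank ℝ E + 1) * ‖u - v‖) ∧
      ∀ (φ : X →L[ℝ] ℝ) (A : E →L[ℝ] ℝ) (ω : ℝ), 0 ≤ ω →
        (∀ y ∈ K ∩ ball x ε, ∀ z ∈ K ∩ ball x ε, |φ (δ y) - φ (δ z) - A (y - z)| ≤ ω * ‖y - z‖) →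
        ∀ u ∈ K ∩ ball x r, ∀ v ∈ K ∩ ball x r, |φ (Λ (u - v)) - A (u - v)| ≤
          ((3 ^ Module.finrank ℝ E + 1) * ω + ‖A‖ * ε) * ‖u - v‖ := by
  set c : ℝ := 3 ^ Module.finrank ℝ E + 1 with hc
  have hc0 : 0 < c := by positivity
  let P : Set E := ⋂ n : ℕ, closure (Dir K x (1 / ((n : ℝ) + 1)))
  have hcl : ∀ r, IsCompact (closure (Dir K x r)) := fun r =>
    (isCompact_sphere (0 : E) 1).of_isClosed_subset isClosed_closure (Dir.sub K x r)
  have hP : IsCompact P :=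
    (hcl _).of_isClosed_subset (isClosed_iInter fun _ => isClosed_closure) (iInter_subset _ 0)
  have hP1 : ∀ p ∈ P, ‖p‖ = 1 := fun p hp => by
    simpa using Dir.sub K x _ (mem_iInter.1 hp 0)
  obtain ⟨ι, _, e, ℓ, he, hℓ⟩ := greedy (Module.finrank ℝ E) P hP (Submodule.finrank_le _)
  set L : ℝ := ∑ j, ‖ℓ j‖ with hL
  have hL0 : 0 ≤ L := Finset.sum_nonneg fun _ _ => norm_nonneg _
  set θ : ℝ := min 1 ε / (c + L + 1) with hθ
  have hθ0 : 0 < θ := div_pos (lt_min one_pos hε) (by positivity)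
  have hθ1 : θ * (c + L + 1) = min 1 ε := by rw [hθ]; field_simp
  have hθ2 : θ * L ≤ 1 := by nlinarith [min_le_left 1 ε]
  have hθ3 : θ * (c + L + 1) ≤ ε := by rw [hθ1]; exact min_le_right _ _
  have A1 : ∃ r, 0 < r ∧ ∀ w ∈ Dir K x r, ∃ p ∈ P, ‖w - p‖ < θ := by
    by_contra hcon
    push Not at hcon
    let C : ℕ → Set E := fun n => closure (Dir K x (1 / ((n : ℝ) + 1))) \ thickening θ P
    have hne : ∀ n, (C n).Nonempty := by
      intro n
      obtain ⟨w, hw, hw'⟩ := hcon (1 / ((n : ℝ) + 1)) (by positivity)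
      refine ⟨w, subset_closure hw, fun h => ?_⟩
      obtain ⟨p, hp, hp'⟩ := mem_thickening_iff.1 h
      rw [dist_eq_norm] at hp'
      exact absurd hp' (not_lt.2 (hw' p hp))
    have hcc : ∀ n, IsClosed (C n) := fun n => isClosed_closure.sdiff isOpen_thickening
    obtain ⟨p, hp⟩ := IsCompact.nonempty_iInter_of_sequence_nonempty_isCompact_isClosed C
      (fun n => sdiff_subset_sdiff_left (closure_mono (Dir.mono (by
        apply one_div_le_one_div_of_le (by positivity)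
        push_cast; linarith)))) hne ((hcl _).diff isOpen_thickening) hcc
    rw [mem_iInter] at hp
    exact (hp 0).2 (self_subset_thickening hθ0 P (mem_iInter.2 fun n => (hp n).1))
  have A2 : ∀ j, ∃ w ∈ Dir K x ε, ‖w - e j‖ < θ := by
    intro j
    obtain ⟨n, hn⟩ := exists_nat_one_div_lt hε
    obtain ⟨w, hw, hw'⟩ := Metric.mem_closure_iff.1 (mem_iInter.1 (he j) n) θ hθ0
    refine ⟨w, Dir.mono hn.le hw, ?_⟩
    rwa [dist_comm, dist_eq_norm] at hw'
  obtain ⟨r, hr, hr'⟩ := A1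
  choose u hu hu' using A2
  choose y hy z hz hyb hzb hyz hu using hu
  let m : ι → X := fun j => ‖y j - z j‖⁻¹ • (δ (y j) - δ (z j))
  have hpos : ∀ j, 0 < ‖y j - z j‖ := fun j => norm_pos_iff.2 (sub_ne_zero.2 (hyz j))
  have hm : ∀ j, ‖m j‖ ≤ 1 := by
    intro j
    simp only [m, norm_smul, norm_inv, norm_norm]
    rw [inv_mul_le_iff₀ (hpos j), mul_one]
    exact hδ _ (hy j) _ (hz j)
  let Λ : E →L[ℝ] X := ∑ j, (ℓ j).smulRight (m j)
  have hΛ : ∀ w, Λ w = ∑ j, ℓ j w • m j := fun w => by simp [Λ]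
  have B1 : ∀ w ∈ Dir K x r, ∑ j, |ℓ j w| ≤ c ∧ ‖∑ j, ℓ j w • u j - w‖ ≤ ε := by
    intro w hw
    obtain ⟨p, hp, hp'⟩ := hr' w hw
    obtain ⟨h1, h2⟩ := hℓ p hp
    have h3 : ∑ j, |ℓ j (w - p)| ≤ θ * L := by
      rw [hL, Finset.mul_sum]
      refine Finset.sum_le_sum fun j _ => ?_
      have := (ℓ j).le_opNorm (w - p)
      rw [Real.norm_eq_abs] at this
      nlinarith [norm_nonneg (ℓ j)]
    have h4 : ∑ j, |ℓ j w| ≤ c := by
      have : ∑ j, |ℓ j w| ≤ ∑ j, (|ℓ j p| + |ℓ j (w - p)|) := by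
        refine Finset.sum_le_sum fun j _ => ?_
        have : ℓ j w = ℓ j p + ℓ j (w - p) := by simp
        rw [this]; exact abs_add_le _ _
      rw [Finset.sum_add_distrib] at this
      linarith
    refine ⟨h4, ?_⟩
    have h5 : ∑ j, ℓ j w • u j - w =
        ∑ j, ℓ j w • (u j - e j) + ∑ j, ℓ j (w - p) • e j - (w - p) := by
      simp only [smul_sub, map_sub, sub_smul, Finset.sum_sub_distrib, h2]
      abel
    have h6 : ‖∑ j, ℓ j w • (u j - e j)‖ ≤ c * θ := by
      refine (norm_sum_le _ _).trans ?_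
      refine le_trans (Finset.sum_le_sum fun j _ => ?_)
        (le_trans (le_of_eq (Finset.sum_mul _ _ θ).symm) (mul_le_mul_of_nonneg_right h4 hθ0.le))
      rw [norm_smul, Real.norm_eq_abs]
      exact mul_le_mul_of_nonneg_left (hu' j).le (abs_nonneg _)
    have h7 : ‖∑ j, ℓ j (w - p) • e j‖ ≤ θ * L := by
      refine (norm_sum_le _ _).trans (le_trans (Finset.sum_le_sum fun j _ => ?_) h3)
      rw [norm_smul, Real.norm_eq_abs, hP1 _ (he j), mul_one]
    rw [h5]
    have h8 := (norm_sub_le _ (w - p)).trans (add_le_add (norm_add_le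
      (∑ j, ℓ j w • (u j - e j)) (∑ j, ℓ j (w - p) • e j)) le_rfl)
    nlinarith
  have scale : ∀ a ∈ K ∩ ball x (min r ε), ∀ b ∈ K ∩ ball x (min r ε), a ≠ b →
      ∃ w ∈ Dir K x r, a - b = ‖a - b‖ • w := by
    intro a ha b hb hab
    refine ⟨_, ⟨a, ha.1, b, hb.1, ball_subset_ball (min_le_left _ _) ha.2,
      ball_subset_ball (min_le_left _ _) hb.2, hab, rfl⟩, ?_⟩
    rw [smul_smul, mul_inv_cancel₀ (norm_ne_zero_iff.2 (sub_ne_zero.2 hab)), one_smul]
  refine ⟨min r ε, lt_min hr hε, min_le_right _ _, Λ, ?_, ?_⟩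
  · intro a ha b hb
    by_cases hab : a = b
    · simp [hab]
    obtain ⟨w, hw, hw'⟩ := scale a ha b hb hab
    have h1 : ‖Λ w‖ ≤ c := by
      rw [hΛ]
      refine (norm_sum_le _ _).trans (le_trans (Finset.sum_le_sum fun j _ => ?_) (B1 w hw).1)
      rw [norm_smul, Real.norm_eq_abs]
      exact mul_le_of_le_one_right (abs_nonneg _) (hm j)
    conv_lhs => rw [hw', map_smul, norm_smul, norm_norm, mul_comm]
    exact mul_le_mul_of_nonneg_right h1 (norm_nonneg _)
  · intro φ A ω hω hφ a ha b hb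
    by_cases hab : a = b
    · simp [hab]
    obtain ⟨w, hw, hw'⟩ := scale a ha b hb hab
    have h0 : ∀ j, |φ (m j) - A (u j)| ≤ ω := by
      intro j
      have := hφ (y j) ⟨hy j, hyb j⟩ (z j) ⟨hz j, hzb j⟩
      rw [hu j]
      simp only [m, map_smul, map_sub, smul_eq_mul] at this ⊢
      rw [← mul_sub, abs_mul, abs_of_pos (inv_pos.2 (hpos j)), inv_mul_le_iff₀ (hpos j), mul_comm]
      exact this
    have h1 : |φ (Λ w) - A w| ≤ c * ω + ‖A‖ * ε := by
      have e1 : φ (Λ w) - A w = ∑ j, ℓ j w * (φ (m j) - A (u j)) + A (∑ j, ℓ j w • u j - w) := by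
        rw [hΛ]
        simp only [map_sum, map_smul, smul_eq_mul, map_sub, mul_sub, Finset.sum_sub_distrib]
        ring
      rw [e1]
      refine (abs_add_le _ _).trans (add_le_add ?_ ?_)
      · refine (Finset.abs_sum_le_sum_abs _ _).trans ?_
        refine le_trans (Finset.sum_le_sum fun j _ => ?_)
          (le_trans (le_of_eq (Finset.sum_mul _ _ ω).symm) (mul_le_mul_of_nonneg_right (B1 w hw).1 hω))
        rw [abs_mul]
        exact mul_le_mul_of_nonneg_left (h0 j) (abs_nonneg _)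
      · exact (A.le_opNorm _).trans (mul_le_mul_of_nonneg_left (B1 w hw).2 (norm_nonneg _))
    conv_lhs => rw [hw', map_smul, map_smul, map_smul, smul_eq_mul, smul_eq_mul, ← mul_sub, abs_mul,
      abs_norm, mul_comm]
    exact mul_le_mul_of_nonneg_right h1 (norm_nonneg _)

end Pool.Agent.H12Z.Free
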