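import Mathlib

set_option autoImplicit false

/-!
# Nets, smooth partitions of unity and gluing of local Lipschitz estimates
-/

namespace Pool.Agent.H12Z.Free

open Set Filter Topology Metric

variable {E : Type} [NormedAddCommGroup E] [InnerProductSpace ℝ E] [FiniteDimensional ℝ E]

omit [InnerProductSpace ℝ E] [FiniteDimensional ℝ E] in
lemma exists_net {K : Set E} (hK : IsCompact K) {s : ℝ} (hs : 0 < s) :
    ∃ N : Finset E, (∀ a ∈ N, a ∈ K) ∧ (∀ a ∈ N, ∀ b ∈ N, a ≠ b → s ≤ ‖a - b‖) ∧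
      ∀ x ∈ K, ∃ a ∈ N, ‖x - a‖ ≤ 3 / 2 * s := by
  classical
  obtain ⟨t, htK, htf, ht⟩ := finite_cover_balls_of_compact hK (half_pos hs)
  let S := htf.toFinset.powerset.filter (fun N => ∀ a ∈ N, ∀ b ∈ N, a ≠ b → s ≤ ‖a - b‖)
  obtain ⟨N, hN, hmax⟩ := S.exists_max_image Finset.card ⟨∅, by simp [S]⟩
  simp only [S, Finset.mem_filter, Finset.mem_powerset] at hN hmax
  refine ⟨N, fun a ha => htK (htf.mem_toFinset.1 (hN.1 ha)), hN.2, fun x hx => ?_⟩
  obtain ⟨y, hy, hxy⟩ := mem_iUnion₂.1 (ht hx)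
  rw [mem_ball, dist_eq_norm] at hxy
  have : ∃ a ∈ N, ‖y - a‖ < s := by
    by_contra hcon
    push Not at hcon
    have hyN : y ∉ N := fun h => by
      have := hcon y h
      simp at this
      linarith
    have h1 := hmax (insert y N) ⟨Finset.insert_subset (htf.mem_toFinset.2 hy) hN.1, by
      intro a ha b hb hab
      rcases Finset.mem_insert.1 ha with rfl | ha' <;> rcases Finset.mem_insert.1 hb with rfl | hb'
      · exact absurd rfl hab
      · exact hcon b hb'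
      · rw [norm_sub_rev]; exact hcon a ha'
      · exact hN.2 a ha' b hb' hab⟩
    rw [Finset.card_insert_of_notMem hyN] at h1
    omega
  obtain ⟨a, ha, ha'⟩ := this
  refine ⟨a, ha, ?_⟩
  have := norm_sub_le_norm_sub_add_norm_sub x y a
  linarith

lemma card_near {s : ℝ} (hs : 0 < s) (N : Finset E) (hN : ∀ a ∈ N, ∀ b ∈ N, a ≠ b → s ≤ ‖a - b‖)
    (u : E) : (N.filter fun w => ‖u - w‖ < 2 * s).card ≤ 5 ^ Module.finrank ℝ E := by
  classical
  have hinj : Function.Injective fun w : E => s⁻¹ • (u - w) := by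
    intro a b h
    have := smul_right_injective E (inv_ne_zero hs.ne') h
    simpa using this
  rw [← Finset.card_image_of_injective _ hinj]
  apply Besicovitch.card_le_of_separated
  · intro c hc
    obtain ⟨w, hw, rfl⟩ := Finset.mem_image.1 hc
    rw [norm_smul, norm_inv, Real.norm_eq_abs, abs_of_pos hs, inv_mul_le_iff₀ hs]
    have := (Finset.mem_filter.1 hw).2
    linarith
  · intro c hc d hd hcd
    obtain ⟨w, hw, rfl⟩ := Finset.mem_image.1 hc
    obtain ⟨w', hw', rfl⟩ := Finset.mem_image.1 hd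
    have hne : w' ≠ w := fun h => hcd (by rw [h])
    have := hN w' (Finset.mem_filter.1 hw').1 w (Finset.mem_filter.1 hw).1 hne
    rw [← smul_sub, norm_smul, norm_inv, Real.norm_eq_abs, abs_of_pos hs, le_inv_mul_iff₀ hs]
    simpa using this

variable (E) in
lemma exists_pou : ∃ Cp : ℝ, 0 ≤ Cp ∧ ∀ s : ℝ, 0 < s → ∀ N : Finset E,
    (∀ a ∈ N, ∀ b ∈ N, a ≠ b → s ≤ ‖a - b‖) → ∃ φ : E → E → ℝ,
      (∀ w, ContDiff ℝ 1 (φ w)) ∧ (∀ w x, 0 ≤ φ w x) ∧ (∀ w x, φ w x ≠ 0 → ‖x - w‖ < 2 * s) ∧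
      (∀ x, (∃ a ∈ N, ‖x - a‖ ≤ 3 / 2 * s) → ∑ w ∈ N, φ w x = 1) ∧
      ∀ u v, (∃ a ∈ N, ‖u - a‖ ≤ 3 / 2 * s) → (∃ a ∈ N, ‖v - a‖ ≤ 3 / 2 * s) →
        ∑ w ∈ N, |φ w u - φ w v| ≤ Cp / s * ‖u - v‖ := by
  classical
  let β : ContDiffBump (0 : E) := ⟨3 / 2, 2, by norm_num, by norm_num⟩
  let γ : ContDiffBump (0 : ℝ) := ⟨1 / 2, 1, by norm_num, by norm_num⟩
  obtain ⟨L, hL⟩ := ContDiff.lipschitzWith_of_hasCompactSupport β.hasCompactSupport
    (β.contDiff (n := 1)) (by simp)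
  refine ⟨2 * (2 * 5 ^ Module.finrank ℝ E * L), by positivity, fun s hs N hN => ?_⟩
  let ψ : E → E → ℝ := fun w x => β (s⁻¹ • (x - w))
  have hn : ∀ x w : E, ‖s⁻¹ • (x - w)‖ = s⁻¹ * ‖x - w‖ := fun x w => by
    rw [norm_smul, norm_inv, Real.norm_eq_abs, abs_of_pos hs]
  have ψd : ∀ w, ContDiff ℝ 1 (ψ w) := fun w =>
    (β.contDiff (n := 1)).comp ((contDiff_id.sub contDiff_const).const_smul _)
  have ψ0 : ∀ w x, 0 ≤ ψ w x := fun w x => β.nonneg
  have ψs : ∀ w x, ψ w x ≠ 0 → ‖x - w‖ < 2 * s := by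
    intro w x h
    by_contra hc
    apply h
    apply β.zero_of_le_dist
    rw [dist_zero_right, hn, le_inv_mul_iff₀ hs]
    show s * 2 ≤ _
    linarith [not_lt.1 hc]
  have ψ1 : ∀ w x, ‖x - w‖ ≤ 3 / 2 * s → ψ w x = 1 := by
    intro w x h
    apply β.one_of_mem_closedBall
    rw [mem_closedBall, dist_zero_right, hn, inv_mul_le_iff₀ hs]
    show _ ≤ s * (3 / 2)
    linarith
  have ψl : ∀ w u v, |ψ w u - ψ w v| ≤ L / s * ‖u - v‖ := by
    intro w u v
    have := hL.dist_le_mul (s⁻¹ • (u - w)) (s⁻¹ • (v - w))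
    rw [Real.dist_eq, dist_eq_norm, ← smul_sub, sub_sub_sub_cancel_right, hn] at this
    refine this.trans (le_of_eq ?_)
    ring
  let Ψ : E → ℝ := fun x => ∑ w ∈ N, ψ w x
  have Ψ0 : ∀ x, 0 ≤ Ψ x := fun x => Finset.sum_nonneg fun w _ => ψ0 w x
  have Ψ1 : ∀ x, (∃ a ∈ N, ‖x - a‖ ≤ 3 / 2 * s) → 1 ≤ Ψ x := by
    rintro x ⟨a, ha, ha'⟩
    rw [← ψ1 a x ha']
    exact Finset.single_le_sum (f := fun w => ψ w x) (fun w _ => ψ0 w x) ha
  have Ψd : ContDiff ℝ 1 Ψ := ContDiff.sum fun w _ => ψd w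
  have hden : ∀ x, 0 < Ψ x + γ (Ψ x) := by
    intro x
    rcases (Ψ0 x).lt_or_eq with h | h
    · exact add_pos_of_pos_of_nonneg h γ.nonneg
    · rw [← h, γ.one_of_mem_closedBall (mem_closedBall_self γ.rIn_pos.le)]; norm_num
  have hγ : ∀ x, 1 ≤ Ψ x → γ (Ψ x) = 0 := by
    intro x hx
    apply γ.zero_of_le_dist
    rw [dist_zero_right, Real.norm_eq_abs, abs_of_nonneg (Ψ0 x)]
    exact hx
  have hsum : ∀ u v, ∑ w ∈ N, |ψ w u - ψ w v| ≤ (2 * 5 ^ Module.finrank ℝ E * L) / s * ‖u - v‖ := by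
    intro u v
    let A := N.filter fun w => ‖u - w‖ < 2 * s
    let B := N.filter fun w => ‖v - w‖ < 2 * s
    have h1 : ∑ w ∈ N, |ψ w u - ψ w v| = ∑ w ∈ A ∪ B, |ψ w u - ψ w v| := by
      symm
      apply Finset.sum_subset (Finset.union_subset (Finset.filter_subset _ _) (Finset.filter_subset _ _))
      intro w hw hw'
      simp only [A, B, Finset.mem_union, Finset.mem_filter, hw, true_and, not_or] at hw'
      have a1 : ψ w u = 0 := by by_contra h; exact hw'.1 (ψs w u h)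
      have a2 : ψ w v = 0 := by by_contra h; exact hw'.2 (ψs w v h)
      simp [a1, a2]
    have h2 : ((A ∪ B).card : ℝ) ≤ 2 * 5 ^ Module.finrank ℝ E := by
      have := (Finset.card_union_le A B).trans (add_le_add (card_near hs N hN u) (card_near hs N hN v))
      have h3 : (((A ∪ B).card : ℕ) : ℝ) ≤ ((5 ^ Module.finrank ℝ E + 5 ^ Module.finrank ℝ E : ℕ) : ℝ) := by
        exact_mod_cast this
      push_cast at h3
      linarith
    rw [h1]
    refine (Finset.sum_le_card_nsmul _ _ _ fun w _ => ψl w u v).trans ?_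
    rw [nsmul_eq_mul]
    have h4 : 0 ≤ L / s * ‖u - v‖ := by positivity
    refine (mul_le_mul_of_nonneg_right h2 h4).trans (le_of_eq ?_)
    ring
  refine ⟨fun w x => ψ w x / (Ψ x + γ (Ψ x)), fun w => ?_, fun w x => ?_, fun w x h => ?_,
    fun x hx => ?_, fun u v hu hv => ?_⟩
  · exact (ψd w).div (Ψd.add ((γ.contDiff (n := 1)).comp Ψd)) fun x => (hden x).ne'
  · exact div_nonneg (ψ0 w x) (hden x).le
  · apply ψs w x
    intro h0
    exact h (by simp [h0])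
  · have := Ψ1 x hx
    rw [← Finset.sum_div, hγ x this, add_zero]
    exact div_self (by linarith : Ψ x ≠ 0)
  · have a1 := Ψ1 u hu
    have a2 := Ψ1 v hv
    simp only [hγ u a1, hγ v a2, add_zero]
    have a3 : |Ψ v - Ψ u| ≤ ∑ w ∈ N, |ψ w u - ψ w v| := by
      rw [abs_sub_comm, ← Finset.sum_sub_distrib]
      exact Finset.abs_sum_le_sum_abs _ _
    have a4 : ∀ w ∈ N, |ψ w u / Ψ u - ψ w v / Ψ v| ≤ |ψ w u - ψ w v| + ψ w v / Ψ v * |Ψ v - Ψ u| := by
      intro w _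
      have e : ψ w u / Ψ u - ψ w v / Ψ v =
          (Ψ u)⁻¹ * ((ψ w u - ψ w v) + ψ w v / Ψ v * (Ψ v - Ψ u)) := by
        field_simp
        ring
      rw [e, abs_mul, abs_of_pos (by positivity : 0 < (Ψ u)⁻¹)]
      have b1 : (Ψ u)⁻¹ ≤ 1 := inv_le_one_of_one_le₀ a1
      refine (mul_le_of_le_one_left (abs_nonneg _) b1).trans ((abs_add_le _ _).trans ?_)
      rw [abs_mul, abs_of_nonneg (div_nonneg (ψ0 w v) (Ψ0 v))]
    refine (Finset.sum_le_sum a4).trans ?_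
    rw [Finset.sum_add_distrib, ← Finset.sum_mul, ← Finset.sum_div]
    have a5 : (∑ w ∈ N, ψ w v) / Ψ v = 1 := div_self (by linarith : Ψ v ≠ 0)
    rw [a5, one_mul]
    have := hsum u v
    calc _ ≤ 2 * ((2 * 5 ^ Module.finrank ℝ E * L) / s * ‖u - v‖) := by linarith
      _ = _ := by ring

omit [InnerProductSpace ℝ E] [FiniteDimensional ℝ E] in
lemma glue {Z : Type} [NormedAddCommGroup Z] [NormedSpace ℝ Z] {K : Set E} {s Cp κ : ℝ}
    (hs : 0 < s) (hCp : 0 ≤ Cp) (hκ : 0 ≤ κ) (N : Finset E) (hNK : ∀ a ∈ N, a ∈ K) (φ : E → E → ℝ)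
    (h0 : ∀ w x, 0 ≤ φ w x) (hsupp : ∀ w x, φ w x ≠ 0 → ‖x - w‖ < 2 * s)
    (h1 : ∀ x ∈ K, ∑ w ∈ N, φ w x = 1)
    (hl : ∀ u ∈ K, ∀ v ∈ K, ∑ w ∈ N, |φ w u - φ w v| ≤ Cp / s * ‖u - v‖)
    (b : E → E → Z) (hb0 : ∀ w ∈ N, b w w = 0)
    (hb : ∀ w ∈ N, ∀ u ∈ K ∩ ball w (3 * s), ∀ v ∈ K ∩ ball w (3 * s), ‖b w u - b w v‖ ≤ κ * ‖u - v‖) :
    (∀ x ∈ K, ‖∑ w ∈ N, φ w x • b w x‖ ≤ κ * (3 * s)) ∧
    ∀ u ∈ K, ∀ v ∈ K, ‖∑ w ∈ N, φ w u • b w u - ∑ w ∈ N, φ w v • b w v‖ ≤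
      (6 + 3 * Cp) * κ * ‖u - v‖ := by
  have hbs : ∀ w ∈ N, ∀ x ∈ K, ‖x - w‖ < 3 * s → ‖b w x‖ ≤ κ * (3 * s) := by
    intro w hw x hx hxw
    have := hb w hw x ⟨hx, by rwa [mem_ball, dist_eq_norm]⟩ w ⟨hNK w hw, mem_ball_self (by positivity)⟩
    rw [hb0 w hw, sub_zero] at this
    exact this.trans (mul_le_mul_of_nonneg_left hxw.le hκ)
  have first : ∀ x ∈ K, ‖∑ w ∈ N, φ w x • b w x‖ ≤ κ * (3 * s) := by
    intro x hx
    refine (norm_sum_le _ _).trans ?_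
    have : ∀ w ∈ N, ‖φ w x • b w x‖ ≤ φ w x * (κ * (3 * s)) := by
      intro w hw
      rw [norm_smul, Real.norm_eq_abs, abs_of_nonneg (h0 w x)]
      by_cases h : φ w x = 0
      · simp [h]
      · exact mul_le_mul_of_nonneg_left (hbs w hw x hx (by linarith [hsupp w x h])) (h0 w x)
    refine (Finset.sum_le_sum this).trans ?_
    rw [← Finset.sum_mul, h1 x hx, one_mul]
  refine ⟨first, fun u hu v hv => ?_⟩
  have hn := norm_nonneg (u - v)
  by_cases huv : s ≤ ‖u - v‖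
  · refine (norm_sub_le _ _).trans ((add_le_add (first u hu) (first v hv)).trans ?_)
    nlinarith [mul_le_mul_of_nonneg_left huv hκ, mul_nonneg (mul_nonneg hCp hκ) hn]
  · push Not at huv
    rw [← Finset.sum_sub_distrib]
    refine (norm_sum_le _ _).trans ?_
    have : ∀ w ∈ N, ‖φ w u • b w u - φ w v • b w v‖ ≤
        φ w u * (κ * ‖u - v‖) + |φ w u - φ w v| * (κ * (3 * s)) := by
      intro w hw
      by_cases h : φ w u = 0 ∧ φ w v = 0
      · simp [h.1, h.2]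
      have hh : ‖u - w‖ < 3 * s ∧ ‖v - w‖ < 3 * s := by
        have t1 := norm_sub_le_norm_sub_add_norm_sub u v w
        have t2 := norm_sub_le_norm_sub_add_norm_sub v u w
        rw [norm_sub_rev v u] at t2
        rcases not_and_or.1 h with h | h
        · have := hsupp w u h; constructor <;> linarith
        · have := hsupp w v h; constructor <;> linarith
      have e : φ w u • b w u - φ w v • b w v = φ w u • (b w u - b w v) + (φ w u - φ w v) • b w v := by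
        rw [smul_sub, sub_smul]; abel
      rw [e]
      refine (norm_add_le _ _).trans (add_le_add ?_ ?_)
      · rw [norm_smul, Real.norm_eq_abs, abs_of_nonneg (h0 w u)]
        exact mul_le_mul_of_nonneg_left (hb w hw u ⟨hu, by rw [mem_ball, dist_eq_norm]; exact hh.1⟩
          v ⟨hv, by rw [mem_ball, dist_eq_norm]; exact hh.2⟩) (h0 w u)
      · rw [norm_smul, Real.norm_eq_abs]
        exact mul_le_mul_of_nonneg_left (hbs w hw v hv hh.2) (abs_nonneg _)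
    refine (Finset.sum_le_sum this).trans ?_
    rw [Finset.sum_add_distrib, ← Finset.sum_mul, ← Finset.sum_mul, h1 u hu, one_mul]
    have a1 := mul_le_mul_of_nonneg_right (hl u hu v hv) (show 0 ≤ κ * (3 * s) by positivity)
    have a2 : Cp / s * ‖u - v‖ * (κ * (3 * s)) = 3 * Cp * κ * ‖u - v‖ := by field_simp
    nlinarith [mul_nonneg hκ hn]

end Pool.Agent.H12Z.Free
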