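import Pool.Agent.H12Z.CbapAbs
import Pool.Agent.H12Z.CbapLoc
import Pool.Agent.H12Z.CbapPou

set_option autoImplicit false

/-!
# Free spaces over compact subsets of Euclidean spaces have the commuting BAP
-/

namespace Pool.Agent.H12Z.Free

open Set Filter Topology Metric

variable {E : Type} [NormedAddCommGroup E] [InnerProductSpace ℝ E] [FiniteDimensional ℝ E]
variable {X : Type} [NormedAddCommGroup X] [NormedSpace ℝ X]

/-- what is used about the free space -/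
structure IsFree (K : Set E) (o : E) (δ : E → X) : Prop where
  mem : o ∈ K
  zero : δ o = 0
  lip : ∀ y ∈ K, ∀ z ∈ K, ‖δ y - δ z‖ ≤ ‖y - z‖
  dense : Dense ((Submodule.span ℝ (δ '' K) : Submodule ℝ X) : Set X)
  ext : ∀ (f : E → ℝ) (C : ℝ), 0 ≤ C → (∀ u ∈ K, ∀ v ∈ K, |f u - f v| ≤ C * ‖u - v‖) →
    ∃ φ : X →L[ℝ] ℝ, ‖φ‖ ≤ C ∧ ∀ x ∈ K, φ (δ x) = f x - f o

variable {K : Set E} {o : E} {δ : E → X}

omit [InnerProductSpace ℝ E] [FiniteDimensional ℝ E] in
lemma IsFree.lin [CompleteSpace X] (h : IsFree K o δ) (g : E → X) (C : ℝ) (hC : 0 ≤ C)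
    (hg : ∀ u ∈ K, ∀ v ∈ K, ‖g u - g v‖ ≤ C * ‖u - v‖) :
    ∃ T : X →L[ℝ] X, ‖T‖ ≤ C ∧ ∀ x ∈ K, T (δ x) = g x - g o := by
  let e : (K →₀ ℝ) →ₗ[ℝ] X := Finsupp.linearCombination ℝ (fun x : K => δ x)
  let f : (K →₀ ℝ) →ₗ[ℝ] X := Finsupp.linearCombination ℝ (fun x : K => g x - g o)
  have hd : DenseRange e := by
    have : Set.range e = ((Submodule.span ℝ (δ '' K) : Submodule ℝ X) : Set X) := by
      rw [image_eq_range, ← Finsupp.range_linearCombination]; rfl
    rw [DenseRange, this]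
    exact h.dense
  have hb : ∀ a, ‖f a‖ ≤ C * ‖e a‖ := by
    intro a
    obtain ⟨ψ, hψ1, hψ2⟩ := exists_dual_vector'' ℝ (f a)
    obtain ⟨φ, hφ1, hφ2⟩ := h.ext (fun x => ψ (g x)) C hC (fun u hu v hv => by
      rw [← map_sub]
      refine (ψ.le_opNorm _).trans ?_
      nlinarith [hg u hu v hv, norm_nonneg (g u - g v), norm_nonneg ψ])
    have : (φ : X →ₗ[ℝ] ℝ) ∘ₗ e = (ψ : X →ₗ[ℝ] ℝ) ∘ₗ f := by
      apply Finsupp.lhom_ext'
      intro x
      ext
      simp [e, f, hφ2 x x.2]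
    have h2 : φ (e a) = ψ (f a) := LinearMap.congr_fun this a
    have h3 : ‖f a‖ = φ (e a) := by rw [h2, hψ2]; rfl
    rw [h3]
    exact (le_abs_self _).trans ((φ.le_opNorm _).trans
      (mul_le_mul_of_nonneg_right hφ1 (norm_nonneg _)))
  refine ⟨f.extendOfNorm e, LinearMap.opNorm_extendOfNorm_le hd hC hb, fun x hx => ?_⟩
  have := LinearMap.extendOfNorm_eq hd ⟨C, hb⟩ (Finsupp.single ⟨x, hx⟩ 1)
  simpa [e, f] using this

omit [InnerProductSpace ℝ E] [FiniteDimensional ℝ E] in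
lemma IsFree.norm_le (h : IsFree K o δ) (φ : X →L[ℝ] ℝ) (C : ℝ) (hC : 0 ≤ C)
    (hφ : ∀ u ∈ K, ∀ v ∈ K, |φ (δ u) - φ (δ v)| ≤ C * ‖u - v‖) : ‖φ‖ ≤ C := by
  obtain ⟨φ', h1, h2⟩ := h.ext (fun x => φ (δ x)) C hC hφ
  have : φ' = φ := by
    apply ContinuousLinearMap.ext_on h.dense
    rintro _ ⟨x, hx, rfl⟩
    rw [h2 x hx, h.zero, map_zero, sub_zero]
  rwa [← this]

/-- functionals given by smooth functions -/
def smoothSub (K : Set E) (o : E) (δ : E → X) : Submodule ℝ (X →L[ℝ] ℝ) where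
  carrier := {φ | ∃ h : E → ℝ, ContDiff ℝ 1 h ∧ ∀ x ∈ K, φ (δ x) = h x - h o}
  zero_mem' := ⟨fun _ => 0, contDiff_const, fun _ _ => by simp⟩
  add_mem' := by
    rintro φ ψ ⟨h, hh, hh'⟩ ⟨g, hg, hg'⟩
    refine ⟨fun x => h x + g x, hh.add hg, fun x hx => ?_⟩
    rw [add_apply, hh' x hx, hg' x hx]; ring
  smul_mem' := by
    rintro c φ ⟨h, hh, hh'⟩
    refine ⟨fun x => c * h x, contDiff_const.mul hh, fun x hx => ?_⟩
    rw [smul_apply, hh' x hx, smul_eq_mul]; ring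

lemma IsFree.approx [CompleteSpace X] (h : IsFree K o δ) (hK : IsCompact K) :
    ∃ C : ℝ, 0 ≤ C ∧ ∀ ε : ℝ, 0 < ε → ∃ T : X →L[ℝ] X, FR T ∧ ‖T‖ ≤ C ∧
      (∀ ψ : X →L[ℝ] ℝ, ψ.comp T ∈ smoothSub K o δ) ∧ (∀ x ∈ K, ‖T (δ x) - δ x‖ ≤ C * ε) ∧
      ∀ (φ : X →L[ℝ] ℝ) (A : E → E →L[ℝ] ℝ) (ω M : ℝ), 0 ≤ ω → 0 ≤ M → (∀ x ∈ K, ‖A x‖ ≤ M) →
        (∀ x ∈ K, ∀ y ∈ K ∩ ball x ε, ∀ z ∈ K ∩ ball x ε,
          |φ (δ y) - φ (δ z) - A x (y - z)| ≤ ω * ‖y - z‖) →
        ‖φ - φ.comp T‖ ≤ C * (ω + M * ε) := by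
  classical
  obtain ⟨Cp, hCp, hpou⟩ := exists_pou E
  set c : ℝ := 3 ^ Module.finrank ℝ E + 1 with hc
  have hc1 : 1 ≤ c := by rw [hc]; linarith [pow_nonneg (show (0 : ℝ) ≤ 3 by norm_num) (Module.finrank ℝ E)]
  refine ⟨(6 + 3 * Cp) * (c + 1) + 1, by positivity, fun ε hε => ?_⟩
  choose r hr0 hrε Λ hΛ1 hΛ2 using fun x => loc δ h.lip x hε
  obtain ⟨ρ, hρ0, hρ⟩ := lebesgue_number_lemma_of_metric (c := fun x : K => ball (x : E) (r x)) hK
    (fun _ => isOpen_ball) (fun x hx => mem_iUnion.2 ⟨⟨x, hx⟩, mem_ball_self (hr0 x)⟩)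
  have hρ' : ∀ w ∈ K, ∃ a ∈ K, ball w ρ ⊆ ball a (r a) := fun w hw => by
    obtain ⟨a, ha⟩ := hρ w hw
    exact ⟨a, a.2, ha⟩
  choose! cc hccK hcc using hρ'
  set s : ℝ := min ρ ε / 3 with hs
  have hs0 : 0 < s := by rw [hs]; exact div_pos (lt_min hρ0 hε) (by norm_num)
  have hs1 : 3 * s ≤ ρ := by rw [hs]; linarith [min_le_left ρ ε]
  have hs2 : 3 * s ≤ ε := by rw [hs]; linarith [min_le_right ρ ε]
  obtain ⟨N, hNK, hNs, hNd⟩ := exists_net hK hs0
  obtain ⟨θ, θd, θ0, θs, θ1, θl⟩ := hpou s hs0 N hNs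
  have θ1' : ∀ x ∈ K, ∑ w ∈ N, θ w x = 1 := fun x hx => θ1 x (hNd x hx)
  have θl' : ∀ u ∈ K, ∀ v ∈ K, ∑ w ∈ N, |θ w u - θ w v| ≤ Cp / s * ‖u - v‖ :=
    fun u hu v hv => θl u v (hNd u hu) (hNd v hv)
  have hsub : ∀ w ∈ N, K ∩ ball w (3 * s) ⊆ K ∩ ball (cc w) (r (cc w)) := fun w hw =>
    inter_subset_inter_right _ ((ball_subset_ball hs1).trans (hcc w (hNK w hw)))
  let a : E → E → X := fun w x => δ w + Λ (cc w) (x - w)
  let b : E → E → X := fun w x => a w x - δ x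
  have hb : ∀ w u v, b w u - b w v = Λ (cc w) (u - v) - (δ u - δ v) := by
    intro w u v
    simp only [a, b, map_sub]; abel
  let g : E → X := fun x => ∑ w ∈ N, θ w x • a w x
  let G : E → X := fun x => ∑ w ∈ N, θ w x • b w x
  have hgG : ∀ x ∈ K, g x = G x + δ x := by
    intro x hx
    simp only [g, G, b, smul_sub, Finset.sum_sub_distrib, ← Finset.sum_smul, θ1' x hx, one_smul,
      sub_add_cancel]
  obtain ⟨G1, G2⟩ := glue hs0 hCp (show 0 ≤ c + 1 by linarith) N hNK θ θ0 θs θ1' θl' b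
    (fun w _ => by simp [a, b]) (fun w hw u hu v hv => by
      rw [hb]
      refine (norm_sub_le _ _).trans ?_
      have := add_le_add (hΛ1 (cc w) u (hsub w hw hu) v (hsub w hw hv)) (h.lip u hu.1 v hv.1)
      linarith)
  obtain ⟨T, hT1, hT2⟩ := h.lin g ((6 + 3 * Cp) * (c + 1) + 1) (by positivity) (fun u hu v hv => by
    rw [hgG u hu, hgG v hv, add_sub_add_comm]
    refine (norm_add_le _ _).trans ?_
    have := add_le_add (G2 u hu v hv) (h.lip u hu v hv)
    linarith)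
  have hT3 : ∀ x ∈ K, T (δ x) - δ x = G x - G o := by
    intro x hx
    rw [hT2 x hx, hgG x hx, hgG o h.mem, h.zero]; abel
  refine ⟨T, ?_, hT1, fun ψ => ?_, fun x hx => ?_, fun φ A ω M hω hM hA hφ => ?_⟩
  · let F : Submodule ℝ X := N.sup fun w =>
      Submodule.span ℝ {δ w} ⊔ LinearMap.range (Λ (cc w) : E →ₗ[ℝ] X)
    have hF : FiniteDimensional ℝ F := inferInstance
    have hgF : ∀ x, g x ∈ F := by
      intro x
      refine F.sum_mem fun w hw => F.smul_mem _ ?_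
      have : Submodule.span ℝ {δ w} ⊔ LinearMap.range (Λ (cc w) : E →ₗ[ℝ] X) ≤ F :=
        Finset.le_sup (f := fun w => Submodule.span ℝ {δ w} ⊔
          LinearMap.range (Λ (cc w) : E →ₗ[ℝ] X)) hw
      exact this (Submodule.add_mem_sup (Submodule.mem_span_singleton_self _)
        (LinearMap.mem_range_self _ _))
    have hle : Submodule.span ℝ (δ '' K) ≤ F.comap (T : X →ₗ[ℝ] X) := by
      rw [Submodule.span_le]
      rintro _ ⟨x, hx, rfl⟩
      show T (δ x) ∈ F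
      rw [hT2 x hx]
      exact F.sub_mem (hgF x) (hgF o)
    have hcl : IsClosed (T ⁻¹' (F : Set X)) := F.closed_of_finiteDimensional.preimage T.continuous
    have hall : LinearMap.range (T : X →ₗ[ℝ] X) ≤ F := by
      rintro _ ⟨x, rfl⟩
      exact closure_minimal hle hcl (h.dense x)
    exact Submodule.finiteDimensional_of_le hall
  · refine ⟨fun x => ψ (g x), ψ.contDiff.comp (ContDiff.sum fun w _ => (θd w).smul ?_),
      fun x hx => ?_⟩
    · exact contDiff_const.add ((Λ (cc w)).contDiff.comp (contDiff_id.sub contDiff_const))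
    · rw [ContinuousLinearMap.comp_apply, hT2 x hx, map_sub]
  · rw [hT3 x hx]
    refine (norm_sub_le _ _).trans ((add_le_add (G1 x hx) (G1 o h.mem)).trans ?_)
    nlinarith [mul_le_mul_of_nonneg_left hs2 (show 0 ≤ c + 1 by linarith),
      mul_nonneg (mul_nonneg hCp (show 0 ≤ c + 1 by linarith)) hε.le,
      mul_nonneg (show 0 ≤ c + 1 by linarith) hε.le]
  · have hκ : 0 ≤ (c + 1) * (ω + M * ε) := by positivity
    obtain ⟨-, H2⟩ := glue hs0 hCp hκ N hNK θ θ0 θs θ1' θl' (fun w x => φ (b w x))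
      (fun w _ => by simp [a, b]) (fun w hw u hu v hv => by
        have hu' := hsub w hw hu
        have hv' := hsub w hw hv
        have hw' := hccK w (hNK w hw)
        have a1 := hΛ2 (cc w) φ (A (cc w)) ω hω (hφ (cc w) hw') u hu' v hv'
        have a2 := hφ (cc w) hw' u ⟨hu.1, ball_subset_ball (hrε _) hu'.2⟩ v
          ⟨hv.1, ball_subset_ball (hrε _) hv'.2⟩
        have e : φ (b w u) - φ (b w v) = (φ (Λ (cc w) (u - v)) - A (cc w) (u - v)) -
            (φ (δ u) - φ (δ v) - A (cc w) (u - v)) := by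
          rw [← map_sub φ, hb, map_sub φ, map_sub φ]; ring
        rw [Real.norm_eq_abs, e]
        refine (abs_sub _ _).trans ((add_le_add a1 a2).trans ?_)
        rw [← add_mul]
        refine mul_le_mul_of_nonneg_right ?_ (norm_nonneg _)
        nlinarith [mul_le_mul_of_nonneg_right (hA _ hw') hε.le, mul_nonneg hM hε.le])
    apply h.norm_le _ _ (by positivity)
    intro u hu v hv
    have e1 : ∀ x ∈ K, (φ - φ.comp T) (δ x) = φ (G o) - ∑ w ∈ N, θ w x • φ (b w x) := by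
      intro x hx
      have : (φ - φ.comp T) (δ x) = -φ (T (δ x) - δ x) := by simp
      rw [this, hT3 x hx, map_sub]
      simp [G]
    rw [e1 u hu, e1 v hv, sub_sub_sub_cancel_left, abs_sub_comm]
    refine (H2 u hu v hv).trans (mul_le_mul_of_nonneg_right ?_ (norm_nonneg _))
    nlinarith [mul_nonneg hM hε.le]

lemma smooth_modulus (hK : IsCompact K) {f : E → ℝ} (hf : ContDiff ℝ 1 f) :
    ∃ M : ℝ, 0 ≤ M ∧ (∀ x ∈ K, ‖fderiv ℝ f x‖ ≤ M) ∧ ∀ ω : ℝ, 0 < ω → ∃ ε : ℝ, 0 < ε ∧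
      ∀ x ∈ K, ∀ y ∈ ball x ε, ∀ z ∈ ball x ε, |f y - f z - fderiv ℝ f x (y - z)| ≤ ω * ‖y - z‖ := by
  have hc : Continuous (fderiv ℝ f) := hf.continuous_fderiv (by simp)
  obtain ⟨M, hM⟩ := hK.exists_bound_of_continuousOn hc.continuousOn
  refine ⟨max M 0, le_max_right _ _, fun x hx => (hM x hx).trans (le_max_left _ _), fun ω hω => ?_⟩
  have hu := (hK.cthickening (r := 1)).uniformContinuousOn_of_continuous hc.continuousOn
  obtain ⟨η, hη, hη'⟩ := Metric.uniformContinuousOn_iff.1 hu ω hω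
  refine ⟨min η 1, lt_min hη one_pos, fun x hx y hy z hz => ?_⟩
  have := (convex_ball x (min η 1)).norm_image_sub_le_of_norm_fderiv_le' (𝕜 := ℝ) (f := f)
    (φ := fderiv ℝ f x) (C := ω) (fun w _ => hf.differentiable (by simp) w) (fun w hw => by
      rw [← dist_eq_norm]
      refine (hη' w ?_ x (self_subset_cthickening K hx) (hw.trans_le (min_le_left _ _))).le
      exact mem_cthickening_of_dist_le w x 1 K hx (hw.le.trans (min_le_right _ _))) hz hy
  exact this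

theorem IsFree.cbap [CompleteSpace X] (h : IsFree K o δ) (hK : IsCompact K) : HasCBAP X := by
  obtain ⟨C, hC, hT⟩ := h.approx hK
  choose T h1 h2 h3 h4 h5 using fun n : ℕ => hT (1 / ((n : ℝ) + 1)) (by positivity)
  have lim : Tendsto (fun n : ℕ => 1 / ((n : ℝ) + 1)) atTop (𝓝 0) :=
    tendsto_one_div_add_atTop_nhds_zero_nat
  refine cbap_of (smoothSub K o δ) T h1 ?_ h3 ?_ C h2
  · have hs : ∀ y ∈ Submodule.span ℝ (δ '' K), Tendsto (fun n => T n y) atTop (𝓝 y) := by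
      intro y hy
      induction hy using Submodule.span_induction with
      | mem x hx =>
        obtain ⟨x, hx, rfl⟩ := hx
        rw [tendsto_iff_norm_sub_tendsto_zero]
        refine squeeze_zero (fun _ => norm_nonneg _) (fun n => h4 n x hx) ?_
        simpa using lim.const_mul C
      | zero => simp
      | add x y _ _ hx hy => simpa using hx.add hy
      | smul a x _ hx => simpa using hx.const_smul a
    intro x
    rw [Metric.tendsto_atTop]
    intro η hη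
    obtain ⟨y, hy, hxy⟩ := Metric.mem_closure_iff.1 (h.dense x) (η / (2 * (C + 1))) (by positivity)
    obtain ⟨n0, hn0⟩ := Metric.tendsto_atTop.1 (hs y hy) (η / 2) (by positivity)
    refine ⟨n0, fun n hn => ?_⟩
    have a1 := hn0 n hn
    rw [dist_eq_norm] at a1 hxy ⊢
    have e : T n x - x = T n (x - y) + (T n y - y) - (x - y) := by rw [map_sub]; abel
    have a2 : ‖T n (x - y)‖ ≤ C * ‖x - y‖ :=
      ((T n).le_opNorm _).trans (mul_le_mul_of_nonneg_right (h2 n) (norm_nonneg _))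
    have a3 := (norm_sub_le _ (x - y)).trans (add_le_add (norm_add_le (T n (x - y)) (T n y - y)) le_rfl)
    rw [lt_div_iff₀ (by positivity)] at hxy
    rw [e]
    nlinarith
  · rintro φ ⟨f, hf, hφ⟩
    obtain ⟨M, hM0, hM, hω⟩ := smooth_modulus hK hf
    rw [Metric.tendsto_atTop]
    intro η hη
    obtain ⟨ε, hε, hε'⟩ := hω (η / (2 * (C + 1))) (by positivity)
    have l2 : Tendsto (fun n : ℕ => C * (M * (1 / ((n : ℝ) + 1)))) atTop (𝓝 0) := by
      simpa using (lim.const_mul M).const_mul C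
    obtain ⟨n0, hn0⟩ := eventually_atTop.1
      ((lim.eventually (gt_mem_nhds hε)).and (l2.eventually (gt_mem_nhds (half_pos hη))))
    refine ⟨n0, fun n hn => ?_⟩
    obtain ⟨a1, a2⟩ := hn0 n hn
    have := h5 n φ (fderiv ℝ f) (η / (2 * (C + 1))) M (by positivity) hM0 hM (fun x hx y hy z hz => by
      rw [hφ y hy.1, hφ z hz.1, sub_sub_sub_cancel_right]
      exact hε' x hx y (ball_subset_ball a1.le hy.2) z (ball_subset_ball a1.le hz.2))
    rw [dist_zero_right, norm_norm]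
    have a3 : C * (η / (2 * (C + 1))) ≤ η / 2 := by
      rw [← mul_div_assoc, div_le_div_iff₀ (by positivity) (by norm_num)]
      nlinarith
    rw [mul_add] at this
    linarith

/-- the free space -/
noncomputable abbrev freeSpace {M : Type} [MetricSpace M] (o : M) :
    Submodule ℝ (StrongDual ℝ (Lip0 o)) := closedSpan (range (delta o))

theorem free_cbap (K : Set E) (hK : IsCompact K) (o : K) : HasCBAP (freeSpace o) := by
  classical
  have hc : CompleteSpace (freeSpace o) :=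
    (Submodule.isClosed_topologicalClosure _).completeSpace_coe
  let d : K → freeSpace o := fun x =>
    ⟨delta o x, Submodule.le_topologicalClosure _ (Submodule.subset_span ⟨x, rfl⟩)⟩
  let δ : E → freeSpace o := fun x => if h : x ∈ K then d ⟨x, h⟩ else 0
  have hδ : ∀ x (hx : x ∈ K), δ x = d ⟨x, hx⟩ := fun x hx => dif_pos hx
  refine IsFree.cbap (K := K) (o := (o : E)) (δ := δ) ⟨o.2, ?_, ?_, ?_, ?_⟩ hK
  · rw [hδ _ o.2]
    apply Subtype.ext
    ext f
    exact f.fn_base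
  · intro y hy z hz
    rw [hδ y hy, hδ z hz, Submodule.coe_norm]
    apply ContinuousLinearMap.opNorm_le_bound _ (norm_nonneg _)
    intro f
    have h1 := f.le_norm_mul ⟨y, hy⟩ ⟨z, hz⟩
    rw [mul_comm, Subtype.dist_eq, dist_eq_norm] at h1
    exact h1
  · intro μ
    rw [closure_subtype]
    have : Subtype.val '' ((Submodule.span ℝ (δ '' K) : Submodule ℝ (freeSpace o)) : Set (freeSpace o)) =
        (Submodule.span ℝ (range (delta o)) : Set (StrongDual ℝ (Lip0 o))) := by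
      have h1 := Submodule.map_span (freeSpace o).subtype (δ '' K)
      have h2 : (freeSpace o).subtype '' (δ '' K) = range (delta o) := by
        ext ν
        constructor
        · rintro ⟨_, ⟨x, hx, rfl⟩, rfl⟩
          exact ⟨⟨x, hx⟩, by rw [hδ x hx]; rfl⟩
        · rintro ⟨x, rfl⟩
          exact ⟨_, ⟨x, x.2, rfl⟩, by rw [hδ x x.2]; rfl⟩
      rw [h2] at h1
      rw [← h1]; rfl
    rw [this]
    exact μ.2
  · intro f C hC hf
    have hl : ∀ x y : K, |(f x - f o) - (f y - f o)| ≤ C * dist x y := by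
      intro x y
      rw [sub_sub_sub_cancel_right, Subtype.dist_eq, dist_eq_norm]
      exact hf x x.2 y y.2
    let F : Lip0 o := ⟨fun x => f x - f o, sub_self _, ⟨C, hC⟩, LipschitzWith.of_dist_le_mul fun x y => by
      rw [Real.dist_eq]; exact hl x y⟩
    let φ : freeSpace o →L[ℝ] ℝ := (NormedSpace.inclusionInDoubleDual ℝ (Lip0 o) F).comp
      (freeSpace o).subtypeL
    refine ⟨φ, ?_, fun x hx => ?_⟩
    · apply ContinuousLinearMap.opNorm_le_bound _ hC
      intro μ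
      have h1 : ‖F‖ ≤ C := F.norm_le hC hl
      have h2 := (μ : StrongDual ℝ (Lip0 o)).le_opNorm F
      rw [mul_comm] at h2
      exact h2.trans (mul_le_mul_of_nonneg_right h1 (norm_nonneg _))
    · rw [hδ x hx]; rfl

end Pool.Agent.H12Z.Free
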