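import Mathlib

/-! A character killing `V` and large on `U`, from a lower bound modulo the ideal of `V`. -/

namespace Pool.Agent.H12Z.Cor

open Filter Topology
open scoped ENNReal NNReal

theorem exists_char {A : Type*} [NormedCommRing A] [NormedAlgebra ℂ A] [CompleteSpace A]
    (U V : A) (h : ∀ i : ℕ, 1 ≤ i → ∀ b : A, 1 ≤ ‖U ^ i - V * b‖) :
    ∃ φ : A →ₐ[ℂ] ℂ, φ V = 0 ∧ 1 ≤ ‖φ U‖ := by
  let I : Ideal A := (Ideal.span {V}).closure
  have hI : IsClosed (I : Set A) := isClosed_closure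
  let a : A ⧸ I := Ideal.Quotient.mk I U
  have hpow : ∀ i : ℕ, 1 ≤ i → 1 ≤ ‖a ^ i‖ := by
    intro i hi
    by_contra hlt
    push Not at hlt
    obtain ⟨m, hm, hm'⟩ := Ideal.Quotient.norm_mk_lt (a ^ i) (ε := 1 - ‖a ^ i‖) (by linarith)
    have hm1 : ‖m‖ < 1 := by linarith
    have hmem : U ^ i - m ∈ I := by
      rw [← Ideal.Quotient.eq, hm, map_pow]
    have hmem' : U ^ i - m ∈ closure ((Ideal.span {V} : Ideal A) : Set A) := hmem
    rw [Metric.mem_closure_iff] at hmem'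
    obtain ⟨z, hz, hz'⟩ := hmem' (1 - ‖m‖) (by linarith)
    obtain ⟨b, rfl⟩ := Ideal.mem_span_singleton.1 hz
    have h1 := h i hi b
    rw [dist_eq_norm] at hz'
    have : U ^ i - V * b = (U ^ i - m - V * b) + m := by ring
    have h2 := norm_add_le (U ^ i - m - V * b) m
    rw [← this] at h2
    linarith
  have : Nontrivial (A ⧸ I) := by
    refine ⟨⟨a ^ 1, 0, fun h0 => ?_⟩⟩
    have := hpow 1 le_rfl
    rw [h0, norm_zero] at this
    linarith
  have hrad : 1 ≤ spectralRadius ℂ a := by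
    refine ge_of_tendsto (spectrum.pow_nnnorm_pow_one_div_tendsto_nhds_spectralRadius a) ?_
    filter_upwards [eventually_ge_atTop 1] with n hn
    have h1 : (1 : ℝ≥0∞) ≤ (‖a ^ n‖₊ : ℝ≥0∞) := by
      have := hpow n hn
      exact_mod_cast this
    exact ENNReal.one_le_rpow h1 (by positivity)
  obtain ⟨z, hz, hz'⟩ := spectrum.exists_nnnorm_eq_spectralRadius a
  obtain ⟨f, hf⟩ := WeakDual.CharacterSpace.mem_spectrum_iff_exists.1 hz
  refine ⟨(WeakDual.CharacterSpace.equivAlgHom f).comp (Ideal.Quotient.mkₐ ℂ I), ?_, ?_⟩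
  · have : Ideal.Quotient.mkₐ ℂ I V = 0 := by
      rw [Ideal.Quotient.mkₐ_eq_mk, Ideal.Quotient.eq_zero_iff_mem]
      exact subset_closure (Ideal.mem_span_singleton_self V)
    rw [AlgHom.comp_apply, this, map_zero]
  · have h2 : (WeakDual.CharacterSpace.equivAlgHom f).comp (Ideal.Quotient.mkₐ ℂ I) U = z := by
      rw [← hf]; rfl
    rw [h2]
    rw [← hz'] at hrad
    exact_mod_cast hrad

end Pool.Agent.H12Z.Cor
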