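import Pool.Agent.H12Z.CorGood

/-! The one-coordinate triple, and tensor products over finitely many coordinates. -/

namespace Pool.Agent.H12Z.Cor

open Finset
open scoped ComplexOrder

section One

variable {H : Type} [AddCommGroup H] [Fintype H]

/-- First parameter. -/
noncomputable def et (δ : ℝ) : ℝ := δ / 20
/-- Second parameter. -/
noncomputable def ka (δ : ℝ) : ℝ := (1 - et δ * δ) / 2

/-- A point mass with real weight. -/
noncomputable def sg (y : H) (c : ℝ) : L1 H := AddMonoidAlgebra.single y (c : ℂ)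

/-- The two-point average. -/
noncomputable def vv (e : H) : L1 H := sg 0 (1 / 2) + sg e (1 / 2)

/-- The signed factor. -/
noncomputable def ww (δ : ℝ) (e : H) : L1 H :=
  sg 0 (et δ) + sg e (-(et δ * (1 - δ))) + sg (e + e) (ka δ) + sg (e + e + e) (ka δ)

/-- The five-point probability. -/
noncomputable def uu (δ : ℝ) (e : H) : L1 H :=
  sg 0 (et δ / 2) + sg e (et δ * δ / 2) + sg (e + e) ((ka δ - et δ * (1 - δ)) / 2)
    + sg (e + e + e) (ka δ) + sg (e + e + e + e) (ka δ / 2)

lemma T_sg (y : H) (c : ℝ) (f : H → ℂ) (x : H) : T (sg y c) f x = c * f (x + y) :=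
  T_single _ _ _ _

lemma T_vv (e : H) (f : H → ℂ) (x : H) : T (vv e) f x = (f x + f (x + e)) / 2 := by
  simp only [vv, T_add, T_sg, add_zero]
  push_cast; ring

lemma T_ww (δ : ℝ) (e : H) (f : H → ℂ) (x : H) : T (ww δ e) f x =
    (et δ : ℝ) * f x - ((et δ * (1 - δ) : ℝ) : ℂ) * f (x + e) + (ka δ : ℝ) * f (x + e + e)
      + (ka δ : ℝ) * f (x + e + e + e) := by
  simp only [ww, T_add, T_sg, add_zero, add_assoc]
  push_cast; ring

lemma T_uu (δ : ℝ) (e : H) (f : H → ℂ) (x : H) : T (uu δ e) f x =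
    ((et δ / 2 : ℝ) : ℂ) * f x + ((et δ * δ / 2 : ℝ) : ℂ) * f (x + e)
      + (((ka δ - et δ * (1 - δ)) / 2 : ℝ) : ℂ) * f (x + e + e)
      + (ka δ : ℝ) * f (x + e + e + e) + ((ka δ / 2 : ℝ) : ℂ) * f (x + e + e + e + e) := by
  simp only [uu, T_add, T_sg, add_zero, add_assoc]

lemma ext_T {a b : L1 H} (h : ∀ f, T a f 0 = T b f 0) : a = b := by
  classical
  apply L1.ext'
  intro x
  have := h (fun y => if y = x then 1 else 0)
  simpa [T] using this

lemma uu_eq (δ : ℝ) (e : H) : uu δ e = vv e * ww δ e := by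
  apply ext_T
  intro f
  rw [T_mul, T_vv, T_ww, T_ww, T_uu]
  push_cast; ring

lemma pos_vv (e : H) : Pos (vv e) :=
  (Pos.single _ (by norm_num)).add (Pos.single _ (by norm_num))

lemma mass_vv (e : H) : Mass (vv e) := fun x => by rw [T_vv]; norm_num

lemma pos_uu {δ : ℝ} (h0 : 0 ≤ δ) (h1 : δ ≤ 1 / 2) (e : H) : Pos (uu δ e) := by
  have hη0 : 0 ≤ et δ := by unfold et; positivity
  have hη1 : et δ ≤ 1 / 40 := by unfold et; linarith
  have hηδ : et δ * δ ≤ 1 / 80 := by nlinarith
  have hκ0 : 79 / 160 ≤ ka δ := by unfold ka; linarith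
  have he1 : et δ * (1 - δ) ≤ 1 / 40 := by nlinarith
  refine ((((Pos.single _ ?_).add (Pos.single _ ?_)).add (Pos.single _ ?_)).add
    (Pos.single _ ?_)).add (Pos.single _ ?_)
  · positivity
  · positivity
  · linarith
  · linarith
  · linarith

lemma mass_uu (δ : ℝ) (e : H) : Mass (uu δ e) := fun x => by
  rw [T_uu]; unfold ka; push_cast; ring

lemma good_coord {δ : ℝ} (h0 : 0 ≤ δ) (h1 : δ ≤ 1 / 2) (e : H) :
    Good (uu δ e) (vv e) (ww δ e) where
  pu := pos_uu h0 h1 e
  pv := pos_vv e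
  mu := mass_uu δ e
  eq := uu_eq δ e
  con h x := by
    rw [T_vv, T_uu]
    simp only [sqm, T_ww]
    have hre := p3 h0 h1 (η := et δ) (κ := ka δ) rfl rfl (h x).re (h (x + e)).re
      (h (x + e + e)).re (h (x + e + e + e)).re (h (x + e + e + e + e)).re
    have him := p3 h0 h1 (η := et δ) (κ := ka δ) rfl rfl (h x).im (h (x + e)).im
      (h (x + e + e)).im (h (x + e + e + e)).im (h (x + e + e + e + e)).im
    rw [← Complex.ofReal_add, ← Complex.ofReal_ofNat, ← Complex.ofReal_div]
    simp only [← Complex.ofReal_mul, ← Complex.ofReal_add, Complex.real_le_real]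
    simp only [Complex.sq_norm, Complex.normSq_apply, Complex.add_re, Complex.sub_re,
      Complex.add_im, Complex.sub_im, Complex.re_ofReal_mul, Complex.im_ofReal_mul]
    nlinarith

end One

section Tens

variable {κ : Type} [Fintype κ] [DecidableEq κ] {H : κ → Type} [∀ k, AddCommGroup (H k)]
  [∀ k, Fintype (H k)]

/-- The embedding of one coordinate. -/
noncomputable def emb (k : κ) : L1 (H k) →+* L1 (∀ k, H k) :=
  AddMonoidAlgebra.mapDomainRingHom ℂ (AddMonoidHom.single H k)

omit [Fintype κ] [∀ k, Fintype (H k)] in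
lemma emb_single (k : κ) (y : H k) (c : ℂ) :
    emb k (AddMonoidAlgebra.single y c) = AddMonoidAlgebra.single (Pi.single k y) c := by
  simp [emb]

omit [Fintype κ] [∀ k, Fintype (H k)] in
lemma emb_sg (k : κ) (y : H k) (c : ℝ) : emb k (sg y c) = sg (Pi.single k y) c :=
  emb_single _ _ _

omit [Fintype κ] [∀ k, Fintype (H k)] in
lemma emb_vv (k : κ) (e : H k) : emb k (vv e) = vv (Pi.single k e) := by
  simp only [vv, map_add, emb_sg, Pi.single_zero]

omit [Fintype κ] [∀ k, Fintype (H k)] in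
lemma emb_ww (δ : ℝ) (k : κ) (e : H k) : emb k (ww δ e) = ww δ (Pi.single k e) := by
  simp only [ww, map_add, emb_sg, Pi.single_zero, Pi.single_add]

omit [Fintype κ] [∀ k, Fintype (H k)] in
lemma emb_uu (δ : ℝ) (k : κ) (e : H k) : emb k (uu δ e) = uu δ (Pi.single k e) := by
  simp only [uu, map_add, emb_sg, Pi.single_zero, Pi.single_add]

/-- The tensor product. -/
noncomputable def tens (a : ∀ k, L1 (H k)) : L1 (∀ k, H k) := ∏ k, emb k (a k)

omit [∀ k, Fintype (H k)] in
lemma prod_single' (s : Finset κ) (y : ∀ k, H k) (c : κ → ℂ) :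
    ∏ k ∈ s, (AddMonoidAlgebra.single (Pi.single k (y k)) (c k) : L1 (∀ k, H k)) =
      AddMonoidAlgebra.single (∑ k ∈ s, Pi.single k (y k)) (∏ k ∈ s, c k) := by
  induction s using Finset.induction_on with
  | empty => simp [AddMonoidAlgebra.one_def]
  | insert k s hk ih =>
    rw [Finset.prod_insert hk, Finset.sum_insert hk, Finset.prod_insert hk, ih,
      AddMonoidAlgebra.single_mul_single]

lemma coeff_tens (a : ∀ k, L1 (H k)) (x : ∀ k, H k) :
    (tens a).coeff x = ∏ k, (a k).coeff (x k) := by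
  classical
  have h1 : tens a = ∑ y : (∀ k, H k), AddMonoidAlgebra.single y (∏ k, (a k).coeff (y k)) := by
    have h2 : ∀ k, emb k (a k) =
        ∑ z : H k, (AddMonoidAlgebra.single (Pi.single k z) ((a k).coeff z) : L1 (∀ k, H k)) := by
      intro k
      conv_lhs => rw [eq_sum_single (a k)]
      rw [map_sum]
      simp only [emb_single]
    simp only [tens, h2]
    rw [Finset.prod_univ_sum, Fintype.piFinset_univ]
    refine Finset.sum_congr rfl fun y _ => ?_
    rw [prod_single', Finset.univ_sum_single]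
  rw [h1, AddMonoidAlgebra.coeff_sum, Finsupp.finsetSum_apply, Finset.sum_eq_single x]
  · simp
  · intro y _ hy
    simp [hy]
  · simp

omit [∀ k, Fintype (H k)] in
lemma tens_pow (a : ∀ k, L1 (H k)) (n : ℕ) : tens a ^ n = tens (fun k => a k ^ n) := by
  simp only [tens, map_pow, Finset.prod_pow]

lemma T_tens (a : ∀ k, L1 (H k)) (f : ∀ k, H k → ℂ) (x : ∀ k, H k) :
    T (tens a) (fun y => ∏ k, f k (y k)) x = ∏ k, T (a k) (f k) (x k) := by
  classical
  simp only [T, coeff_tens]
  rw [Finset.prod_univ_sum, Fintype.piFinset_univ]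
  refine Finset.sum_congr rfl fun y _ => ?_
  rw [← Finset.prod_mul_distrib]
  rfl

lemma good_tens (δ : κ → ℝ) (h0 : ∀ k, 0 ≤ δ k) (h1 : ∀ k, δ k ≤ 1 / 2) (e : ∀ k, H k) :
    Good (tens fun k => uu (δ k) (e k)) (tens fun k => vv (e k))
      (tens fun k => ww (δ k) (e k)) := by
  simp only [tens, emb_uu, emb_vv, emb_ww]
  exact Good.prod _ fun k _ => good_coord (h0 k) (h1 k) _

end Tens

end Pool.Agent.H12Z.Cor
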