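import Mathlib

/-! Convolution and total variation norm of complex measures on an abelian group. -/

namespace Pool.Agent.H12Z.Cor

open MeasureTheory

/-- Convolution of complex measures: the image of the product measure under addition. -/
noncomputable def conv {G : Type} [AddCommGroup G] [MeasurableSpace G]
    (μ ν : ComplexMeasure G) : ComplexMeasure G :=
  VectorMeasure.map (VectorMeasure.prod μ ν (ContinuousLinearMap.mul ℝ ℂ))
    (fun p : G × G => p.1 + p.2)

/-- The total variation norm of a complex measure. -/
noncomputable def tv {G : Type} [MeasurableSpace G] (μ : ComplexMeasure G) : ℝ :=
  (VectorMeasure.variation μ Set.univ).toReal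

end Pool.Agent.H12Z.Cor
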