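import Pool.Agent.H12Z.CorL1

/-! Contractive triples and the truncation inequality. -/

namespace Pool.Agent.H12Z.Cor

open Finset
open scoped ComplexOrder

variable {H : Type} [AddCommGroup H] [Fintype H]

/-- Squared modulus as a complex-valued function. -/
noncomputable def sqm (h : H → ℂ) : H → ℂ := fun y => ((‖h y‖ ^ 2 : ℝ) : ℂ)

/-- Contractive triples. -/
structure Good (u v w : L1 H) : Prop where
  pu : Pos u
  pv : Pos v
  mu : Mass u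
  eq : u = v * w
  con : ∀ h x, T v (sqm (T w h)) x ≤ T u (sqm h) x

lemma Good.one : Good (1 : L1 H) 1 1 where
  pu := Pos.one
  pv := Pos.one
  mu := Mass.one
  eq := by simp
  con h x := by simp only [T_one]; exact le_rfl

lemma Good.mul {u v w u' v' w' : L1 H} (g : Good u v w) (g' : Good u' v' w') :
    Good (u * u') (v * v') (w * w') where
  pu := g.pu.mul g'.pu
  pv := g.pv.mul g'.pv
  mu := g.mu.mul g'.mu
  eq := by rw [g.eq, g'.eq]; ring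
  con h x := by
    calc T (v * v') (sqm (T (w * w') h)) x
        = T v (T v' (sqm (T w' (T w h)))) x := by rw [T_mul, T_mul, T_comm w w']
      _ ≤ T v (T u' (sqm (T w h))) x := g.pv.T_mono (fun y => g'.con _ y) x
      _ = T u' (T v (sqm (T w h))) x := by rw [T_comm]
      _ ≤ T u' (T u (sqm h)) x := g'.pu.T_mono (fun y => g.con _ y) x
      _ = T (u * u') (sqm h) x := by rw [T_mul, T_comm]

lemma Good.prod {κ : Type*} (s : Finset κ) {u v w : κ → L1 H} (g : ∀ k ∈ s, Good (u k) (v k) (w k)) :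
    Good (∏ k ∈ s, u k) (∏ k ∈ s, v k) (∏ k ∈ s, w k) := by
  classical
  induction s using Finset.induction_on with
  | empty => simpa using Good.one
  | insert k s hk ih =>
    rw [Finset.prod_insert hk, Finset.prod_insert hk, Finset.prod_insert hk]
    exact (g k (Finset.mem_insert_self _ _)).mul
      (ih fun j hj => g j (Finset.mem_insert_of_mem hj))

/-- The truncation inequality. -/
lemma Good.key {u v w : L1 H} (g : Good u v w) (ν : L1 H) :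
    ‖u * ν‖ ≤ 2 * ‖v * ν‖ + ‖ν‖ / 2 := by
  obtain ⟨h, hh, hT⟩ := exists_norming (u * ν)
  set G := T w h with hG
  let G1 : H → ℂ := fun y => if ‖G y‖ ≤ 2 then G y else 0
  let G2 : H → ℂ := fun y => if ‖G y‖ ≤ 2 then 0 else G y
  have hsplit : G = fun y => G1 y + G2 y := by
    funext y; simp only [G1, G2]; split_ifs <;> simp
  have h1 : T (u * ν) h 0 = T (v * ν) G1 0 + T ν (T v G2) 0 := by
    have : u * ν = (v * ν) * w := by rw [g.eq]; ring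
    rw [this, T_mul, ← hG, hsplit, T_addf, ← T_mul ν v, mul_comm ν v]
  have h2 : ‖T (v * ν) G1 0‖ ≤ ‖v * ν‖ * 2 := by
    refine norm_T_le _ _ _ fun y => ?_
    simp only [G1]; split_ifs with hy
    · exact hy
    · simp
  have h3 : ∀ x, ‖T v G2 x‖ ≤ 1 / 2 := by
    intro x
    have e1 := g.pv.norm_T_le G2 x
    have e2 : T v (fun y => ((‖G2 y‖ : ℝ) : ℂ)) x ≤ T v (fun y => ((1 / 2 : ℝ) : ℂ) * sqm G y) x := by
      refine g.pv.T_mono (fun y => ?_) x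
      simp only [sqm, G2]
      rw [← Complex.ofReal_mul, Complex.real_le_real]
      split_ifs with hy
      · rw [norm_zero]; positivity
      · push Not at hy
        nlinarith
    rw [T_mulf] at e2
    have e3 := g.con h x
    have e4 : T u (sqm h) x ≤ T u (fun _ => 1) x := by
      refine g.pu.T_mono (fun y => ?_) x
      simp only [sqm]
      rw [← Complex.ofReal_one, Complex.real_le_real]
      have := hh y
      have := norm_nonneg (h y)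
      nlinarith
    rw [g.mu x] at e4
    have e5 : ((1 / 2 : ℝ) : ℂ) * T v (sqm G) x ≤ ((1 / 2 : ℝ) : ℂ) * 1 :=
      mul_le_mul_of_nonneg_left (e3.trans e4) (by exact_mod_cast (by norm_num : (0 : ℝ) ≤ 1 / 2))
    have e6 := (e1.trans e2).trans e5
    rw [mul_one, Complex.real_le_real] at e6
    exact e6
  have h4 : ‖T ν (T v G2) 0‖ ≤ ‖ν‖ * (1 / 2) := norm_T_le _ _ _ h3
  have h5 : ‖u * ν‖ = ‖T (u * ν) h 0‖ := by
    rw [hT, Complex.norm_real, Real.norm_of_nonneg (norm_nonneg _)]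
  rw [h5, h1]
  have := norm_add_le (T (v * ν) G1 0) (T ν (T v G2) 0)
  linarith

lemma Good.lower {u v w : L1 H} (g : Good u v w) (ν : L1 H) {l : ℂ} (hl : 1 ≤ ‖l‖) :
    ‖ν‖ / 4 ≤ ‖(u - l • 1) * ν‖ + ‖v * ν‖ := by
  have h1 := g.key ν
  have h2 : (u - l • 1) * ν = u * ν - l • ν := by
    rw [sub_mul, smul_mul_assoc, one_mul]
  have h3 : ‖l • ν‖ ≤ ‖u * ν‖ + ‖u * ν - l • ν‖ := by
    have := norm_sub_le (u * ν) (u * ν - l • ν)
    simpa using this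
  rw [norm_smul] at h3
  have h4 : ‖ν‖ ≤ ‖l‖ * ‖ν‖ := le_mul_of_one_le_left (norm_nonneg _) hl
  rw [h2]
  have := norm_nonneg (u * ν - l • ν)
  linarith

lemma cs4 (a b c d : ℝ) :
    (a + b + c + d) ^ 2 ≤ 10 * a ^ 2 + 10 * b ^ 2 + 5 / 2 * c ^ 2 + 5 / 2 * d ^ 2 := by
  nlinarith [sq_nonneg (a - b), sq_nonneg (c - d), sq_nonneg (4 * a - c), sq_nonneg (4 * a - d),
    sq_nonneg (4 * b - c), sq_nonneg (4 * b - d)]

lemma msq {A B c : ℝ} (h : A * c ^ 2 ≤ 4 * B) (y : ℝ) : A * (c * y) ^ 2 ≤ 4 * (B * y ^ 2) := by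
  calc A * (c * y) ^ 2 = (A * c ^ 2) * y ^ 2 := by ring
    _ ≤ (4 * B) * y ^ 2 := mul_le_mul_of_nonneg_right h (sq_nonneg y)
    _ = _ := by ring

/-- The one-coordinate inequality. -/
lemma p3 {δ η κ : ℝ} (h0 : 0 ≤ δ) (h1 : δ ≤ 1 / 2) (hη : η = δ / 20) (hκ : κ = (1 - η * δ) / 2)
    (a0 a1 a2 a3 a4 : ℝ) :
    ((η * a0 - η * (1 - δ) * a1 + κ * a2 + κ * a3) ^ 2
      + (η * a1 - η * (1 - δ) * a2 + κ * a3 + κ * a4) ^ 2) / 2 ≤
    η / 2 * a0 ^ 2 + η * δ / 2 * a1 ^ 2 + (κ - η * (1 - δ)) / 2 * a2 ^ 2 + κ * a3 ^ 2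
      + κ / 2 * a4 ^ 2 := by
  have hη0 : 0 ≤ η := by rw [hη]; positivity
  have hη1 : η ≤ 1 / 40 := by rw [hη]; linarith
  have hηδ : η * δ ≤ 1 / 80 := by nlinarith
  have hηδ0 : 0 ≤ η * δ := mul_nonneg hη0 h0
  have hκ1 : κ ≤ 1 / 2 := by rw [hκ]; linarith
  have hκ0 : 79 / 160 ≤ κ := by rw [hκ]; linarith
  have he0 : 0 ≤ η * (1 - δ) := mul_nonneg hη0 (by linarith)
  have he1 : η * (1 - δ) ≤ 1 / 40 := by nlinarith
  have hsum : η / 2 + η * δ / 2 + (κ - η * (1 - δ)) / 2 + κ + κ / 2 = 1 := by rw [hκ]; ring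
  have d0 : 10 * η ^ 2 ≤ 4 * (η / 2) := by nlinarith
  have d1 : 10 * (-(η * (2 - δ))) ^ 2 ≤ 4 * (η * δ / 2) := by
    have h2 : (2 - δ) ^ 2 ≤ 4 := by nlinarith
    have h3 : η * (2 - δ) ^ 2 ≤ η * 4 := mul_le_mul_of_nonneg_left h2 hη0
    have h4 : 10 * (η * (2 - δ) ^ 2) ≤ 2 * δ := by linarith
    have h5 := mul_le_mul_of_nonneg_left h4 hη0
    calc 10 * (-(η * (2 - δ))) ^ 2 = η * (10 * (η * (2 - δ) ^ 2)) := by ring
      _ ≤ η * (2 * δ) := h5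
      _ = _ := by ring
  have d2 : 5 / 2 * (κ + η * (1 - δ)) ^ 2 ≤ 4 * ((κ - η * (1 - δ)) / 2) := by
    have h2 : (κ + η * (1 - δ)) ^ 2 ≤ (21 / 40) ^ 2 :=
      pow_le_pow_left₀ (by linarith) (by linarith) 2
    linarith
  have d4 : 5 / 2 * (-κ) ^ 2 ≤ 4 * (κ / 2) := by nlinarith
  obtain ⟨m, hm⟩ : ∃ m, m = η / 2 * a0 + η * δ / 2 * a1 + (κ - η * (1 - δ)) / 2 * a2 + κ * a3
    + κ / 2 * a4 := ⟨_, rfl⟩
  have key := cs4 (η * (a0 - m)) (-(η * (2 - δ)) * (a1 - m)) ((κ + η * (1 - δ)) * (a2 - m))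
    (-κ * (a4 - m))
  have c0 := msq d0 (a0 - m)
  have c1 := msq d1 (a1 - m)
  have c2 := msq d2 (a2 - m)
  have c4 := msq d4 (a4 - m)
  have c3 : 0 ≤ κ * (a3 - m) ^ 2 := mul_nonneg (by linarith) (sq_nonneg _)
  have e1 : ((η * a0 - η * (1 - δ) * a1 + κ * a2 + κ * a3) ^ 2
      + (η * a1 - η * (1 - δ) * a2 + κ * a3 + κ * a4) ^ 2) / 2 =
      m ^ 2 + (η * (a0 - m) + -(η * (2 - δ)) * (a1 - m) + (κ + η * (1 - δ)) * (a2 - m)
        + -κ * (a4 - m)) ^ 2 / 4 := by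
    rw [hm]; ring
  have e2 : η / 2 * a0 ^ 2 + η * δ / 2 * a1 ^ 2 + (κ - η * (1 - δ)) / 2 * a2 ^ 2 + κ * a3 ^ 2
      + κ / 2 * a4 ^ 2 = m ^ 2 + (η / 2 * (a0 - m) ^ 2 + η * δ / 2 * (a1 - m) ^ 2
        + (κ - η * (1 - δ)) / 2 * (a2 - m) ^ 2 + κ * (a3 - m) ^ 2 + κ / 2 * (a4 - m) ^ 2) := by
    have : η / 2 * (a0 - m) ^ 2 + η * δ / 2 * (a1 - m) ^ 2
        + (κ - η * (1 - δ)) / 2 * (a2 - m) ^ 2 + κ * (a3 - m) ^ 2 + κ / 2 * (a4 - m) ^ 2 =
        η / 2 * a0 ^ 2 + η * δ / 2 * a1 ^ 2 + (κ - η * (1 - δ)) / 2 * a2 ^ 2 + κ * a3 ^ 2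
      + κ / 2 * a4 ^ 2 - 2 * m * (η / 2 * a0 + η * δ / 2 * a1 + (κ - η * (1 - δ)) / 2 * a2
        + κ * a3 + κ / 2 * a4)
        + m ^ 2 * (η / 2 + η * δ / 2 + (κ - η * (1 - δ)) / 2 + κ + κ / 2) := by ring
    rw [this, hsum, ← hm]; ring
  rw [e1, e2]
  linarith

end Pool.Agent.H12Z.Cor
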