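import Mathlib

/-! The group algebra of a finite abelian group with the sum norm, and its action on functions. -/

namespace Pool.Agent.H12Z.Cor

open Finset
open scoped ComplexOrder

/-- The complex group algebra. -/
abbrev L1 (H : Type) := AddMonoidAlgebra ℂ H

variable {H : Type} [AddCommGroup H] [Fintype H]

/-- The element with given coefficients. -/
noncomputable def mk (f : H → ℂ) : L1 H :=
  AddMonoidAlgebra.ofCoeff (Finsupp.equivFunOnFinite.symm f)

omit [AddCommGroup H] in
@[simp] lemma coeff_mk (f : H → ℂ) (x : H) : (mk f).coeff x = f x := rfl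

omit [AddCommGroup H] [Fintype H] in
lemma L1.ext' {a b : L1 H} (h : ∀ x, a.coeff x = b.coeff x) : a = b :=
  AddMonoidAlgebra.coeff_injective (Finsupp.ext h)

lemma coeff_mul' (a b : L1 H) (x : H) :
    (a * b).coeff x = ∑ y, a.coeff y * b.coeff (x - y) := by
  rw [AddMonoidAlgebra.coeff_mul_apply_left, Finsupp.sum_fintype _ _ (by simp)]
  refine Finset.sum_congr rfl fun y _ => ?_
  rw [neg_add_eq_sub]

omit [AddCommGroup H] in
lemma eq_sum_single (a : L1 H) : a = ∑ y, AddMonoidAlgebra.single y (a.coeff y) := by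
  conv_lhs => rw [← AddMonoidAlgebra.sum_coeff_single a]
  rw [Finsupp.sum_fintype _ _ (by simp)]

/-- The sum norm. -/
noncomputable def l1Norm : AddGroupNorm (L1 H) where
  toFun a := ∑ x, ‖a.coeff x‖
  map_zero' := by simp
  add_le' a b := by
    rw [← Finset.sum_add_distrib]
    exact Finset.sum_le_sum fun x _ => by
      rw [AddMonoidAlgebra.coeff_add, Finsupp.add_apply]; exact norm_add_le _ _
  neg' a := by simp
  eq_zero_of_map_eq_zero' a ha := by
    apply L1.ext'
    intro x
    have := (Finset.sum_eq_zero_iff_of_nonneg (fun x _ => norm_nonneg (a.coeff x))).1 ha x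
      (Finset.mem_univ x)
    simpa using this

noncomputable instance instNAG : NormedAddCommGroup (L1 H) :=
  AddGroupNorm.toNormedAddCommGroup l1Norm

lemma norm_def (a : L1 H) : ‖a‖ = ∑ x, ‖a.coeff x‖ := rfl

lemma norm_mul_le' (a b : L1 H) : ‖a * b‖ ≤ ‖a‖ * ‖b‖ := by
  simp only [norm_def, coeff_mul']
  calc ∑ x, ‖∑ y, a.coeff y * b.coeff (x - y)‖
      ≤ ∑ x, ∑ y, ‖a.coeff y‖ * ‖b.coeff (x - y)‖ :=
        Finset.sum_le_sum fun x _ => (norm_sum_le _ _).trans
          (Finset.sum_le_sum fun y _ => (norm_mul _ _).le)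
    _ = ∑ y, ‖a.coeff y‖ * ∑ x, ‖b.coeff (x - y)‖ := by
        rw [Finset.sum_comm]; simp only [Finset.mul_sum]
    _ = ∑ y, ‖a.coeff y‖ * ∑ x, ‖b.coeff x‖ := by
        refine Finset.sum_congr rfl fun y _ => ?_
        congr 1
        exact Fintype.sum_equiv (Equiv.subRight y) _ _ (fun x => rfl)
    _ = _ := by rw [Finset.sum_mul]

noncomputable instance instNCR : NormedCommRing (L1 H) :=
  { (inferInstance : CommRing (L1 H)), instNAG with
    norm_mul_le := norm_mul_le' }

noncomputable instance instNAlg : NormedAlgebra ℂ (L1 H) :=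
  { (inferInstance : Algebra ℂ (L1 H)) with
    norm_smul_le := fun c a => by
      simp only [norm_def, AddMonoidAlgebra.coeff_smul_apply, smul_eq_mul, norm_mul,
        Finset.mul_sum, le_refl] }

lemma norm_single (y : H) (c : ℂ) : ‖(AddMonoidAlgebra.single y c : L1 H)‖ = ‖c‖ := by
  classical
  rw [norm_def, Finset.sum_eq_single y]
  · simp
  · intro x _ hx
    simp [hx.symm]
  · simp

instance instN1 : NormOneClass (L1 H) where
  norm_one := by rw [AddMonoidAlgebra.one_def, norm_single, norm_one]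

instance instFD : FiniteDimensional ℂ (L1 H) := inferInstance

instance instCS : CompleteSpace (L1 H) := FiniteDimensional.complete ℂ (L1 H)

/-- The action on functions. -/
noncomputable def T (a : L1 H) (f : H → ℂ) (x : H) : ℂ := ∑ y, a.coeff y * f (x + y)

lemma T_mul (a b : L1 H) (f : H → ℂ) : T (a * b) f = T a (T b f) := by
  funext x
  simp only [T, coeff_mul', Finset.sum_mul, Finset.mul_sum]
  rw [Finset.sum_comm]
  refine Finset.sum_congr rfl fun y _ => ?_
  refine Fintype.sum_equiv (Equiv.subRight y) _ _ (fun z => ?_)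
  simp only [Equiv.subRight_apply]
  rw [mul_assoc]
  congr 3
  abel

lemma T_comm (a b : L1 H) (f : H → ℂ) : T a (T b f) = T b (T a f) := by
  rw [← T_mul, ← T_mul, mul_comm]

lemma T_single (y : H) (c : ℂ) (f : H → ℂ) (x : H) :
    T (AddMonoidAlgebra.single y c) f x = c * f (x + y) := by
  classical
  rw [T, Finset.sum_eq_single y]
  · simp
  · intro z _ hz
    simp [hz.symm]
  · simp

lemma T_one (f : H → ℂ) : T 1 f = f := by
  funext x
  rw [AddMonoidAlgebra.one_def, T_single]; simp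

lemma T_add (a b : L1 H) (f : H → ℂ) (x : H) : T (a + b) f x = T a f x + T b f x := by
  simp only [T, AddMonoidAlgebra.coeff_add, Finsupp.add_apply, add_mul, Finset.sum_add_distrib]

lemma T_sub (a b : L1 H) (f : H → ℂ) (x : H) : T (a - b) f x = T a f x - T b f x := by
  simp only [T, AddMonoidAlgebra.coeff_sub, Finsupp.sub_apply, sub_mul, Finset.sum_sub_distrib]

lemma T_addf (a : L1 H) (f g : H → ℂ) (x : H) :
    T a (fun y => f y + g y) x = T a f x + T a g x := by
  simp only [T, mul_add, Finset.sum_add_distrib]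

lemma T_subf (a : L1 H) (f g : H → ℂ) (x : H) :
    T a (fun y => f y - g y) x = T a f x - T a g x := by
  simp only [T, mul_sub, Finset.sum_sub_distrib]

lemma T_mulf (a : L1 H) (c : ℂ) (f : H → ℂ) (x : H) :
    T a (fun y => c * f y) x = c * T a f x := by
  simp only [T, Finset.mul_sum]
  exact Finset.sum_congr rfl fun y _ => by ring

lemma norm_T_le (a : L1 H) (f : H → ℂ) (x : H) {M : ℝ} (hM : ∀ y, ‖f y‖ ≤ M) :
    ‖T a f x‖ ≤ ‖a‖ * M := by
  rw [T, norm_def, Finset.sum_mul]
  refine (norm_sum_le _ _).trans (Finset.sum_le_sum fun y _ => ?_)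
  rw [norm_mul]
  exact mul_le_mul_of_nonneg_left (hM _) (norm_nonneg _)

lemma exists_norming (a : L1 H) : ∃ h : H → ℂ, (∀ y, ‖h y‖ ≤ 1) ∧ T a h 0 = (‖a‖ : ℝ) := by
  have : ∀ z : ℂ, ∃ c : ℂ, ‖c‖ ≤ 1 ∧ z * c = (‖z‖ : ℝ) := by
    intro z
    by_cases hz : z = 0
    · exact ⟨0, by simp, by simp [hz]⟩
    · have hn : (‖z‖ : ℂ) ≠ 0 := by exact_mod_cast (norm_ne_zero_iff.2 hz)
      refine ⟨(starRingEnd ℂ) z / (‖z‖ : ℝ), ?_, ?_⟩
      · rw [norm_div, Complex.norm_conj, Complex.norm_real, Real.norm_of_nonneg (norm_nonneg _),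
          div_self (norm_ne_zero_iff.2 hz)]
      · rw [← mul_div_assoc, Complex.mul_conj, Complex.normSq_eq_norm_sq]
        push_cast
        field_simp
  choose c hc using this
  refine ⟨fun y => c (a.coeff y), fun y => (hc _).1, ?_⟩
  simp only [T, zero_add, (hc _).2, norm_def]
  push_cast
  rfl

/-- Nonnegative coefficients. -/
def Pos (a : L1 H) : Prop := ∀ x, 0 ≤ a.coeff x

lemma Pos.mul {a b : L1 H} (ha : Pos a) (hb : Pos b) : Pos (a * b) := fun x => by
  rw [coeff_mul']
  exact Finset.sum_nonneg fun y _ => mul_nonneg (ha _) (hb _)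

lemma Pos.add {a b : L1 H} (ha : Pos a) (hb : Pos b) : Pos (a + b) := fun x => by
  rw [AddMonoidAlgebra.coeff_add, Finsupp.add_apply]
  exact add_nonneg (ha _) (hb _)

omit [AddCommGroup H] [Fintype H] in
lemma Pos.single (y : H) {c : ℝ} (hc : 0 ≤ c) :
    Pos (AddMonoidAlgebra.single y (c : ℂ) : L1 H) := fun x => by
  classical
  rw [AddMonoidAlgebra.coeff_single, Finsupp.single_apply]
  split_ifs
  · exact_mod_cast hc
  · exact le_rfl

omit [Fintype H] in
lemma Pos.one : Pos (1 : L1 H) := by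
  rw [AddMonoidAlgebra.one_def]
  have := Pos.single (0 : H) (c := 1) zero_le_one
  simpa using this

lemma Pos.pow {a : L1 H} (ha : Pos a) (n : ℕ) : Pos (a ^ n) := by
  induction n with
  | zero => simpa using Pos.one
  | succ n ih => rw [pow_succ]; exact ih.mul ha

lemma Pos.T_mono {a : L1 H} (ha : Pos a) {f g : H → ℂ} (h : ∀ y, f y ≤ g y) (x : H) :
    T a f x ≤ T a g x :=
  Finset.sum_le_sum fun y _ => mul_le_mul_of_nonneg_left (h _) (ha y)

lemma Pos.T_nonneg {a : L1 H} (ha : Pos a) {f : H → ℂ} (h : ∀ y, 0 ≤ f y) (x : H) :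
    0 ≤ T a f x :=
  Finset.sum_nonneg fun y _ => mul_nonneg (ha y) (h _)

omit [AddCommGroup H] [Fintype H] in
lemma Pos.coeff_eq {a : L1 H} (ha : Pos a) (x : H) : a.coeff x = (‖a.coeff x‖ : ℝ) :=
  (Complex.norm_of_nonneg' (ha x)).symm

lemma Pos.norm_T_le {a : L1 H} (ha : Pos a) (f : H → ℂ) (x : H) :
    ((‖T a f x‖ : ℝ) : ℂ) ≤ T a (fun y => ((‖f y‖ : ℝ) : ℂ)) x := by
  have h1 : T a (fun y => ((‖f y‖ : ℝ) : ℂ)) x = ((∑ y, ‖a.coeff y‖ * ‖f (x + y)‖ : ℝ) : ℂ) := by
    rw [T]; push_cast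
    exact Finset.sum_congr rfl fun y _ => by rw [← ha.coeff_eq]
  rw [h1, Complex.real_le_real, T]
  exact (norm_sum_le _ _).trans (Finset.sum_le_sum fun y _ => (norm_mul _ _).le)

/-- Total mass one. -/
def Mass (a : L1 H) : Prop := ∀ x, T a (fun _ => 1) x = 1

lemma Mass.mul {a b : L1 H} (ha : Mass a) (hb : Mass b) : Mass (a * b) := fun x => by
  rw [T_mul, show T b (fun _ => 1) = fun _ => 1 from funext hb, ha]

lemma Mass.one : Mass (1 : L1 H) := fun x => by rw [T_one]

lemma Mass.pow {a : L1 H} (ha : Mass a) (n : ℕ) : Mass (a ^ n) := by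
  induction n with
  | zero => simpa using Mass.one
  | succ n ih => rw [pow_succ]; exact ih.mul ha

lemma Mass.const {a : L1 H} (ha : Mass a) (c : ℂ) (x : H) : T a (fun _ => c) x = c := by
  have := T_mulf a c (fun _ => 1) x
  simp only [mul_one] at this
  rw [this, ha x, mul_one]

end Pool.Agent.H12Z.Cor
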