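import Pool.Agent.H12Z.CorCoord

/-! Test functions separating powers of the five-point product from multiples of the two-point
product. -/

namespace Pool.Agent.H12Z.Cor

open Finset
open scoped ComplexOrder

lemma norm_le_of_le {z : ℂ} {r : ℝ} (h0 : 0 ≤ z) (h : z ≤ (r : ℂ)) : ‖z‖ ≤ r := by
  rw [← Complex.norm_of_nonneg' h0, Complex.real_le_real] at h
  exact h

section Tens

variable {κ : Type} [Fintype κ] [DecidableEq κ] {H : κ → Type} [∀ k, AddCommGroup (H k)]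
  [∀ k, Fintype (H k)]

omit [∀ k, Fintype (H k)] in
lemma pos_tens [∀ k, Fintype (H k)] {a : ∀ k, L1 (H k)} (ha : ∀ k, Pos (a k)) : Pos (tens a) :=
  fun x => by
    rw [coeff_tens]
    exact Finset.prod_nonneg fun k _ => ha k _

lemma mass_tens {a : ∀ k, L1 (H k)} (ha : ∀ k, Mass (a k)) : Mass (tens a) := fun x => by
  have := T_tens a (fun _ _ => 1) x
  simp only [Finset.prod_const_one] at this
  rw [this]
  exact Finset.prod_eq_one fun k _ => ha k _

lemma sep_tens {U V : ∀ k, L1 (H k)} (pU : ∀ k, Pos (U k)) (pV : ∀ k, Pos (V k))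
    (mU : ∀ k, Mass (U k)) (p p' : ∀ k, H k → ℝ) (hp : ∀ k x, 0 ≤ p k x)
    (hp' : ∀ k x, 0 ≤ p' k x) (hpp : ∀ k x, 1 ≤ p k x * p' k x)
    (hV : ∀ k x, T (V k) (fun y => (p k y : ℂ)) x ≤ 1) {r : ℝ}
    (hU : ∀ k, T (U k) (fun y => (p' k y : ℂ)) 0 ≤ (r : ℂ)) {R : ℝ} (hR : 0 < R)
    (b : L1 (∀ k, H k)) :
    1 - R * r ^ Fintype.card κ - ‖b‖ / R ≤ ‖tens U - tens V * b‖ := by
  classical
  let F : (∀ k, H k) → ℂ := fun x => if R ≤ ∏ k, p k (x k) then 1 else 0
  have hF : ∀ x, ‖F x‖ ≤ 1 := fun x => by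
    simp only [F]; split_ifs <;> simp
  have hF0 : ∀ x, 0 ≤ F x := fun x => by
    simp only [F]; split_ifs <;> simp
  have h1 : ∀ x, ‖T (tens V) F x‖ ≤ 1 / R := by
    intro x
    refine norm_le_of_le ((pos_tens pV).T_nonneg hF0 x) ?_
    have e1 : T (tens V) F x ≤
        T (tens V) (fun y => ((1 / R : ℝ) : ℂ) * ∏ k, (p k (y k) : ℂ)) x := by
      refine (pos_tens pV).T_mono (fun y => ?_) x
      rw [← Complex.ofReal_prod, ← Complex.ofReal_mul]
      simp only [F]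
      split_ifs with hy
      · rw [← Complex.ofReal_one, Complex.real_le_real, one_div_mul_eq_div, le_div_iff₀ hR]
        linarith
      · rw [← Complex.ofReal_zero, Complex.real_le_real]
        exact mul_nonneg (by positivity) (Finset.prod_nonneg fun k _ => hp k _)
    rw [T_mulf, T_tens V (fun k y => (p k y : ℂ))] at e1
    have e2 : ∏ k, T (V k) (fun y => (p k y : ℂ)) (x k) ≤ 1 :=
      Finset.prod_le_one (fun k _ => (pV k).T_nonneg (fun y => by exact_mod_cast hp k y) _)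
        fun k _ => hV k _
    have e3 := mul_le_mul_of_nonneg_left e2
      (show (0 : ℂ) ≤ ((1 / R : ℝ) : ℂ) by exact_mod_cast (by positivity : (0 : ℝ) ≤ 1 / R))
    rw [mul_one] at e3
    exact e1.trans e3
  have h2 : ‖T (tens U) (fun y => 1 - F y) 0‖ ≤ R * r ^ Fintype.card κ := by
    refine norm_le_of_le ((pos_tens pU).T_nonneg (fun y => ?_) 0) ?_
    · simp only [F]; split_ifs <;> simp
    have e1 : T (tens U) (fun y => 1 - F y) 0 ≤
        T (tens U) (fun y => ((R : ℝ) : ℂ) * ∏ k, (p' k (y k) : ℂ)) 0 := by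
      refine (pos_tens pU).T_mono (fun y => ?_) 0
      rw [← Complex.ofReal_prod, ← Complex.ofReal_mul]
      simp only [F]
      have hq : 0 ≤ ∏ k, p' k (y k) := Finset.prod_nonneg fun k _ => hp' k _
      split_ifs with hy
      · rw [sub_self, ← Complex.ofReal_zero, Complex.real_le_real]
        exact mul_nonneg hR.le hq
      · rw [sub_zero, ← Complex.ofReal_one, Complex.real_le_real]
        push Not at hy
        have e : 1 ≤ (∏ k, p k (y k)) * ∏ k, p' k (y k) := by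
          rw [← Finset.prod_mul_distrib]
          calc (1 : ℝ) = ∏ _k : κ, (1 : ℝ) := by simp
            _ ≤ _ := Finset.prod_le_prod (fun _ _ => zero_le_one) fun k _ => hpp k _
        exact e.trans (mul_le_mul_of_nonneg_right hy.le hq)
    rw [T_mulf, T_tens U (fun k y => (p' k y : ℂ))] at e1
    have e2 : ∏ k, T (U k) (fun y => (p' k y : ℂ)) ((0 : ∀ k, H k) k) ≤ ∏ _k : κ, (r : ℂ) :=
      Finset.prod_le_prod (fun k _ => (pU k).T_nonneg (fun y => by exact_mod_cast hp' k y) _)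
        fun k _ => hU k
    rw [Finset.prod_const, Finset.card_univ] at e2
    have e3 := mul_le_mul_of_nonneg_left e2 (show (0 : ℂ) ≤ ((R : ℝ) : ℂ) by exact_mod_cast hR.le)
    push_cast
    exact e1.trans e3
  have h3 : T (tens U - tens V * b) F 0 =
      1 - T (tens U) (fun y => 1 - F y) 0 - T b (T (tens V) F) 0 := by
    rw [T_sub, T_subf, mass_tens mU, mul_comm, T_mul]; ring
  have h4 := norm_T_le (tens U - tens V * b) F 0 hF
  have h5 := norm_T_le b (T (tens V) F) 0 h1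
  rw [h3, mul_one] at h4
  have h6 : ‖(1 : ℂ)‖ ≤ ‖1 - T (tens U) (fun y => 1 - F y) 0 - T b (T (tens V) F) 0‖
      + ‖T (tens U) (fun y => 1 - F y) 0‖ + ‖T b (T (tens V) F) 0‖ := by
    calc ‖(1 : ℂ)‖ = ‖(1 - T (tens U) (fun y => 1 - F y) 0 - T b (T (tens V) F) 0)
        + T (tens U) (fun y => 1 - F y) 0 + T b (T (tens V) F) 0‖ := by congr 1; ring
      _ ≤ _ := norm_add₃_le
  rw [norm_one] at h6
  rw [mul_one_div] at h5
  linarith

end Tens

/-- The sign sequence. -/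
noncomputable def Gs (n : ℕ) : ℝ := if n ≤ 1 then (-1) ^ n else -(-1) ^ n

lemma Gs_sq (n : ℕ) : Gs n = 1 ∨ Gs n = -1 := by
  unfold Gs
  rcases neg_one_pow_eq_or ℝ n with h | h <;> split_ifs <;> simp [h]

lemma Gs_succ (n : ℕ) : Gs n + Gs (n + 1) ≤ 0 := by
  rcases n with _ | _ | n
  · simp [Gs]
  · norm_num [Gs]
  · simp only [Gs]
    rw [if_neg (by omega), if_neg (by omega), pow_succ (-1 : ℝ) (n + 1 + 1)]
    linarith

lemma Gs_cyc {q : ℕ} [NeZero q] (hq : Odd q) (h3 : 3 ≤ q) (x : ZMod q) :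
    Gs x.val + Gs (x + 1).val ≤ 0 := by
  have hx := ZMod.val_lt x
  have : Fact (1 < q) := ⟨by omega⟩
  rw [ZMod.val_add, ZMod.val_one]
  rcases Nat.lt_or_ge (x.val + 1) q with h | h
  · rw [Nat.mod_eq_of_lt h]; exact Gs_succ _
  · have h' : x.val + 1 = q := by omega
    rw [h', Nat.mod_self]
    obtain ⟨k, hk⟩ := hq
    have hv : x.val = 2 * k := by omega
    simp only [Gs]
    rw [if_neg (by omega), if_pos (by omega), hv, pow_mul]
    norm_num

lemma T_pow_Gs {q : ℕ} [NeZero q] (δ : ℝ) (i : ℕ) : ∀ n : ℕ, n + 4 * i < q →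
    T (uu δ (1 : ZMod q) ^ i) (fun x => (Gs x.val : ℂ)) (n : ZMod q) =
      ((-(0 : ℝ) ^ i * (-1) ^ n + (if n = 0 then 2 * (et δ / 2) ^ i * (1 - i * δ) else 0)
        + (if n = 1 then -2 * (et δ / 2) ^ i else 0) : ℝ) : ℂ) := by
  induction i with
  | zero =>
    intro n hn
    rw [pow_zero, T_one, ZMod.val_natCast_of_lt (by omega)]
    congr 1
    rcases n with _ | _ | n
    · norm_num [Gs]
    · norm_num [Gs]
    · simp [Gs]
  | succ i ih =>
    intro n hn
    rw [pow_succ', T_mul, T_uu]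
    have e1 : (n : ZMod q) + 1 = ((n + 1 : ℕ) : ZMod q) := by push_cast; rfl
    have e2 : ((n + 1 : ℕ) : ZMod q) + 1 = ((n + 2 : ℕ) : ZMod q) := by push_cast; ring
    have e3 : ((n + 2 : ℕ) : ZMod q) + 1 = ((n + 3 : ℕ) : ZMod q) := by push_cast; ring
    have e4 : ((n + 3 : ℕ) : ZMod q) + 1 = ((n + 4 : ℕ) : ZMod q) := by push_cast; ring
    rw [e1, e2, e3, e4, ih n (by omega), ih (n + 1) (by omega), ih (n + 2) (by omega),
      ih (n + 3) (by omega), ih (n + 4) (by omega)]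
    simp only [← Complex.ofReal_mul, ← Complex.ofReal_add]
    congr 1
    rcases n with _ | _ | n
    · simp; ring
    · simp; ring
    · simp; ring

lemma coord_test {q : ℕ} [NeZero q] (hq : Odd q) (h3 : 3 ≤ q) {δ : ℝ}
    {i : ℕ} (hi : 1 ≤ i) (hiq : 4 * i < q) {a : ℝ} (ha : a = 2 * (et δ / 2) ^ i * (1 - i * δ))
    (ha0 : 0 ≤ a) (ha2 : a ≤ 2) :
    ∃ p p' : ZMod q → ℝ, (∀ x, 0 ≤ p x) ∧ (∀ x, 0 ≤ p' x) ∧ (∀ x, 1 ≤ p x * p' x) ∧
      (∀ x, T (vv (1 : ZMod q)) (fun y => (p y : ℂ)) x ≤ 1) ∧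
      T (uu δ (1 : ZMod q) ^ i) (fun y => (p' y : ℂ)) 0 ≤ ((1 - a ^ 2 / 8 : ℝ) : ℂ) := by
  refine ⟨fun x => 1 + a / 4 * Gs x.val, fun x => (1 + a ^ 2 / 8) - a / 4 * Gs x.val,
    fun x => ?_, fun x => ?_, fun x => ?_, fun x => ?_, ?_⟩
  · rcases Gs_sq x.val with h | h <;> simp only [h] <;> linarith
  · rcases Gs_sq x.val with h | h <;> simp only [h] <;> nlinarith
  · have h1 : 0 ≤ a ^ 2 * (2 - a) := mul_nonneg (sq_nonneg a) (by linarith)
    have h2 : 0 ≤ a ^ 2 * a := mul_nonneg (sq_nonneg a) ha0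
    rcases Gs_sq x.val with h | h <;> simp only [h] <;> nlinarith
  · rw [T_vv, ← Complex.ofReal_add, ← Complex.ofReal_ofNat, ← Complex.ofReal_div,
      ← Complex.ofReal_one, Complex.real_le_real]
    have := mul_nonpos_of_nonneg_of_nonpos ha0 (Gs_cyc hq h3 x)
    linarith
  · have h1 := T_pow_Gs (q := q) δ i 0 (by omega)
    have h2 : (fun y : ZMod q => (((1 + a ^ 2 / 8) - a / 4 * Gs y.val : ℝ) : ℂ)) =
        fun y => (fun _ => ((1 + a ^ 2 / 8 : ℝ) : ℂ)) y
          - (fun y : ZMod q => ((a / 4 : ℝ) : ℂ) * (Gs y.val : ℂ)) y := by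
      funext y; push_cast; ring
    rw [h2, T_subf, ((mass_uu δ 1).pow i).const, T_mulf]
    rw [Nat.cast_zero] at h1
    rw [h1, ← Complex.ofReal_mul, ← Complex.ofReal_sub, Complex.real_le_real, ← ha,
      zero_pow (by omega)]
    simp only [if_true, zero_ne_one, if_false]
    nlinarith

end Pool.Agent.H12Z.Cor
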