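import Pool.Agent.H12Z.CorMeas
import Pool.Agent.H12Z.CorTest
import Pool.Agent.H12Z.CorChar

/-! The compact group, the two product measures and the character. -/

namespace Pool.Agent.H12Z.Cor

open MeasureTheory Set
open scoped ENNReal

/-- The coordinate groups. -/
abbrev HH (k : ℕ × ℕ) : Type := ZMod (8 * k.1 + 3)
/-- The compact group. -/
abbrev GG : Type := ∀ k : ℕ × ℕ, HH k
/-- The finite quotients. -/
abbrev GI (I : Finset (ℕ × ℕ)) : Type := ∀ k : I, HH k
/-- The bounded product of the finite group algebras. -/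
abbrev BB : Type := lp (fun I : Finset (ℕ × ℕ) => L1 (GI I)) ∞

/-- The quotient maps. -/
def piI (I : Finset (ℕ × ℕ)) : GG →+ GI I where
  toFun := I.restrict
  map_zero' := rfl
  map_add' _ _ := rfl

lemma meas_piI (I : Finset (ℕ × ℕ)) (a : GI I) : MeasurableSet (piI I ⁻¹' {a}) :=
  Finset.measurable_restrict I (measurableSet_singleton a)

/-- The family of finite images. -/
noncomputable def JJ : ComplexMeasure GG →ₗ[ℂ] BB where
  toFun μ := ⟨fun I => Jp (piI I) μ, memℓp_infty ⟨tv μ, by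
    rintro _ ⟨I, rfl⟩
    exact norm_Jp_le (meas_piI I) μ⟩⟩
  map_add' μ ν := lp.ext (funext fun I => Jp_add _ μ ν)
  map_smul' c μ := lp.ext (funext fun I => Jp_smul _ c μ)

lemma JJ_apply (μ : ComplexMeasure GG) (I : Finset (ℕ × ℕ)) : JJ μ I = Jp (piI I) μ := rfl

lemma JJ_conv (μ ν : ComplexMeasure GG) : JJ (conv μ ν) = JJ μ * JJ ν :=
  lp.ext (funext fun I => Jp_conv (piI I) (meas_piI I) μ ν)

lemma JJ_dirac : JJ (VectorMeasure.dirac 0 1) = 1 :=
  lp.ext (funext fun I => Jp_dirac (meas_piI I) (map_zero _))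

lemma tv_le_levels (ν : ComplexMeasure GG) {M : ℝ} (h : ∀ I, ‖Jp (piI I) ν‖ ≤ M) :
    tv ν ≤ 4 * M := by
  have := fin_var ν
  refine tv_le_of_forall ν fun s hs => ?_
  refine le_of_forall_pos_le_add fun ε hε => ?_
  obtain ⟨t, ht, hts⟩ := exists_measure_symmDiff_lt_of_generateFrom_isSetRing
    (μ := VectorMeasure.variation ν) (C := measurableCylinders HH) isSetRing_measurableCylinders
    ⟨{univ}, countable_singleton _, singleton_subset_iff.2 (univ_mem_measurableCylinders HH),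
      by simp⟩ generateFrom_measurableCylinders.symm hs (ε := ENNReal.ofReal (ε / 2))
    (by simpa using hε)
  have htm : MeasurableSet t := MeasurableSet.of_mem_measurableCylinders ht
  obtain ⟨I, S, -, rfl⟩ := (mem_measurableCylinders t).1 ht
  have h1 := norm_sub_le_symmDiff ν hs htm
  have h2 : ‖ν (cylinder I S)‖ ≤ M := (norm_preimage_le (meas_piI I) ν S).trans (h I)
  have h3 : (VectorMeasure.variation ν).real (symmDiff (cylinder I S) s) ≤ ε / 2 :=
    ENNReal.toReal_le_of_le_ofReal (by positivity) hts.le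
  linarith

/-- Product measures from coordinate probabilities. -/
noncomputable def prodM (a : ∀ k, L1 (HH k)) (hp : ∀ k, Pos (a k)) (hm : ∀ k, Mass (a k)) :
    ComplexMeasure GG :=
  haveI := fun k => ofL1_prob (hp k) (hm k)
  toC (Measure.infinitePi fun k => ofL1 (a k))

lemma Jp_prodM (a : ∀ k, L1 (HH k)) (hp : ∀ k, Pos (a k)) (hm : ∀ k, Mass (a k))
    (I : Finset (ℕ × ℕ)) : Jp (piI I) (prodM a hp hm) = tens (fun k : I => a k) := by
  have := fun k => ofL1_prob (hp k) (hm k)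
  apply L1.ext'
  intro x
  rw [coeff_tens, Jp, coeff_mk, prodM, toC_apply _ (meas_piI I x)]
  have h1 : (Measure.infinitePi fun k => ofL1 (a k)) (piI I ⁻¹' {x}) =
      ∏ k : I, ENNReal.ofReal ‖(a k).coeff (x k)‖ := by
    have h2 := Measure.infinitePi_cylinder (fun k => ofL1 (a k)) (s := I) (S := {x})
      (measurableSet_singleton x)
    rw [Measure.pi_singleton] at h2
    simp only [ofL1_singleton] at h2
    exact h2
  rw [Measure.real, h1, ENNReal.toReal_prod]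
  push_cast
  refine Finset.prod_congr rfl fun k _ => ?_
  rw [ENNReal.toReal_ofReal (norm_nonneg _)]
  exact ((hp k).coeff_eq _).symm

/-- The parameters. -/
noncomputable def dl (j : ℕ) : ℝ := 1 / (2 * ((j : ℝ) + 1))

lemma dl_pos (j : ℕ) : 0 < dl j := by unfold dl; positivity

lemma dl_le (j : ℕ) : dl j ≤ 1 / 2 := by
  unfold dl
  have : (0 : ℝ) ≤ j := Nat.cast_nonneg j
  exact one_div_le_one_div_of_le (by norm_num) (by linarith)

lemma mul_dl_lt (j : ℕ) : (j : ℝ) * dl j < 1 := by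
  unfold dl
  have : (0 : ℝ) ≤ j := Nat.cast_nonneg j
  rw [mul_one_div, div_lt_one (by positivity)]
  linarith

/-- The product of the five-point probabilities. -/
noncomputable def UU : ComplexMeasure GG :=
  prodM (fun k => uu (dl k.1) 1) (fun _ => pos_uu (dl_pos _).le (dl_le _) _)
    (fun _ => mass_uu _ _)

/-- The product of the two-point probabilities. -/
noncomputable def VV : ComplexMeasure GG :=
  prodM (fun _ => vv 1) (fun _ => pos_vv _) (fun _ => mass_vv _)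

lemma Jp_UU (I : Finset (ℕ × ℕ)) :
    Jp (piI I) UU = tens (fun k : I => uu (dl k.1.1) (1 : HH k)) := Jp_prodM _ _ _ I

lemma Jp_VV (I : Finset (ℕ × ℕ)) : Jp (piI I) VV = tens (fun k : I => vv (1 : HH k)) :=
  Jp_prodM _ _ _ I

lemma sep_BB (i : ℕ) (hi : 1 ≤ i) (b : BB) : 1 ≤ ‖JJ UU ^ i - JJ VV * b‖ := by
  by_contra hlt
  push Not at hlt
  obtain ⟨g, hg⟩ : ∃ g, g = 1 - ‖JJ UU ^ i - JJ VV * b‖ := ⟨_, rfl⟩
  have hg0 : 0 < g := by linarith
  obtain ⟨a, ha⟩ : ∃ a, a = 2 * (et (dl i) / 2) ^ i * (1 - i * dl i) := ⟨_, rfl⟩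
  have he0 : 0 < et (dl i) / 2 := by have := dl_pos i; unfold et; positivity
  have he1 : et (dl i) / 2 ≤ 1 := by have := dl_le i; unfold et; linarith
  have hd0 : 0 < 1 - i * dl i := by have := mul_dl_lt i; linarith
  have hd1 : 1 - i * dl i ≤ 1 := by
    have := mul_nonneg (Nat.cast_nonneg (α := ℝ) i) (dl_pos i).le; linarith
  have ha0 : 0 < a := by rw [ha]; positivity
  have ha2 : a ≤ 2 := by
    have h1 : (et (dl i) / 2) ^ i ≤ 1 := pow_le_one₀ he0.le he1
    have h2 : (et (dl i) / 2) ^ i * (1 - i * dl i) ≤ 1 := mul_le_one₀ h1 hd0.le hd1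
    rw [ha]; linarith
  obtain ⟨R, hR⟩ : ∃ R, R = 2 * ‖b‖ / g + 1 := ⟨_, rfl⟩
  have hR0 : 0 < R := by rw [hR]; positivity
  have hbR : ‖b‖ / R < g / 2 := by
    rw [div_lt_iff₀ hR0, hR]
    have : g / 2 * (2 * ‖b‖ / g + 1) = ‖b‖ + g / 2 := by field_simp
    rw [this]; linarith
  obtain ⟨m, hm⟩ := exists_pow_lt_of_lt_one (show 0 < g / 2 / R by positivity)
    (show 1 - a ^ 2 / 8 < 1 by have := pow_pos ha0 2; linarith)
  rw [lt_div_iff₀ hR0] at hm
  let I : Finset (ℕ × ℕ) := {i} ×ˢ Finset.range m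
  have hI : ∀ k : I, k.1.1 = i := fun k =>
    Finset.mem_singleton.1 (Finset.mem_product.1 k.2).1
  have hcard : Fintype.card I = m := by simp [I]
  have hc : ∀ k : I, ∃ p p' : HH k → ℝ, (∀ x, 0 ≤ p x) ∧ (∀ x, 0 ≤ p' x) ∧
      (∀ x, 1 ≤ p x * p' x) ∧
      (∀ x, open ComplexOrder in T (vv (1 : HH k)) (fun y => (p y : ℂ)) x ≤ 1) ∧
      (open ComplexOrder in T (uu (dl k.1.1) (1 : HH k) ^ i) (fun y => (p' y : ℂ)) 0
        ≤ ((1 - a ^ 2 / 8 : ℝ) : ℂ)) := by
    intro k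
    refine coord_test ⟨4 * k.1.1 + 1, by ring⟩ (by omega) hi (by rw [hI k]; omega)
      (by rw [hI k]; exact ha) ha0.le ha2
  choose p p' hp hp' hpp hV hU using hc
  have key := sep_tens (U := fun k : I => uu (dl k.1.1) (1 : HH k) ^ i)
    (V := fun k : I => vv (1 : HH k))
    (fun k => (pos_uu (dl_pos _).le (dl_le _) _).pow i) (fun k => pos_vv _)
    (fun k => (mass_uu _ _).pow i) p p' hp hp' hpp hV hU hR0 (b I)
  rw [← tens_pow, ← Jp_UU, ← Jp_VV, hcard] at key
  have h1 : ‖Jp (piI I) UU ^ i - Jp (piI I) VV * b I‖ ≤ ‖JJ UU ^ i - JJ VV * b‖ :=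
    lp.norm_apply_le_norm ENNReal.top_ne_zero (JJ UU ^ i - JJ VV * b) I
  have h2 : ‖b I‖ / R ≤ ‖b‖ / R :=
    div_le_div_of_nonneg_right (lp.norm_apply_le_norm ENNReal.top_ne_zero b I) hR0.le
  linarith

lemma lower_tv {l : ℂ} (hl : 1 ≤ ‖l‖) (ν : ComplexMeasure GG) :
    tv ν / 16 ≤ tv (conv (UU - l • VectorMeasure.dirac 0 1) ν) + tv (conv VV ν) := by
  have h : ∀ I, ‖Jp (piI I) ν‖ ≤
      4 * (tv (conv (UU - l • VectorMeasure.dirac 0 1) ν) + tv (conv VV ν)) := by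
    intro I
    have g := good_tens (H := fun k : I => HH k) (fun k => dl k.1.1) (fun k => (dl_pos _).le)
      (fun k => dl_le _) (fun _ => 1)
    have h1 := g.lower (Jp (piI I) ν) hl
    rw [← Jp_UU, ← Jp_VV] at h1
    have h2 := norm_Jp_le (meas_piI I) (conv (UU - l • VectorMeasure.dirac 0 1) ν)
    have h3 := norm_Jp_le (meas_piI I) (conv VV ν)
    rw [Jp_conv _ (meas_piI I)] at h2 h3
    have h4 : Jp (piI I) (UU - l • VectorMeasure.dirac 0 1) = Jp (piI I) UU - l • 1 := by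
      rw [← JJ_apply, map_sub, map_smul, JJ_dirac]
      rfl
    rw [h4] at h2
    linarith
  have := tv_le_levels ν h
  linarith

theorem main : ∃ φ : ComplexMeasure GG →ₗ[ℂ] ℂ, φ ≠ 0 ∧
    (∀ μ ν, φ (conv μ ν) = φ μ * φ ν) ∧
    ∃ (n : ℕ) (μ : Fin n → ComplexMeasure GG) (c : ℝ), 0 < c ∧ (∀ j, φ (μ j) = 0) ∧
      ∀ ν, tv ν = 1 → c ≤ ∑ j, tv (conv (μ j) ν) := by
  obtain ⟨ψ, hV, hU⟩ := exists_char (JJ UU) (JJ VV) sep_BB
  refine ⟨ψ.toLinearMap ∘ₗ JJ, fun h0 => ?_, fun μ ν => ?_, 2,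
    ![UU - ψ (JJ UU) • VectorMeasure.dirac 0 1, VV], 1 / 16, by norm_num, ?_, fun ν hν => ?_⟩
  · have : ψ (JJ UU) = 0 := LinearMap.congr_fun h0 UU
    rw [this, norm_zero] at hU
    linarith
  · change ψ (JJ (conv μ ν)) = ψ (JJ μ) * ψ (JJ ν)
    rw [JJ_conv, map_mul]
  · intro j
    fin_cases j
    · change ψ (JJ (UU - ψ (JJ UU) • VectorMeasure.dirac 0 1)) = 0
      rw [map_sub, map_smul, JJ_dirac, map_sub, map_smul, map_one, smul_eq_mul, mul_one, sub_self]
    · exact hV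
  · have := lower_tv hU ν
    rw [hν] at this
    rw [Fin.sum_univ_two]
    exact this

end Pool.Agent.H12Z.Cor
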