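import Pool.Agent.H12Z.CorDefs
import Pool.Agent.H12Z.CorL1

/-! Images of complex measures in finite quotient groups. -/

namespace Pool.Agent.H12Z.Cor

open MeasureTheory Set
open scoped ENNReal

section Fin

variable {G : Type} [MeasurableSpace G]

lemma variation_le_re_im (μ : ComplexMeasure G) :
    VectorMeasure.variation μ ≤ VectorMeasure.variation (ComplexMeasure.re μ)
      + VectorMeasure.variation (ComplexMeasure.im μ) := by
  refine VectorMeasure.variation_le_of_forall_enorm_le fun E _ => ?_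
  rw [Measure.add_apply]
  have h1 := VectorMeasure.enorm_measure_le_variation (ComplexMeasure.re μ) E
  have h2 := VectorMeasure.enorm_measure_le_variation (ComplexMeasure.im μ) E
  refine le_trans ?_ (add_le_add h1 h2)
  rw [← ofReal_norm, ← ofReal_norm, ← ofReal_norm,
    ← ENNReal.ofReal_add (norm_nonneg _) (norm_nonneg _)]
  exact ENNReal.ofReal_le_ofReal (Complex.norm_le_abs_re_add_abs_im (μ E))

lemma fin_signed (s : SignedMeasure G) : IsFiniteMeasure (VectorMeasure.variation s) := by
  rw [← SignedMeasure.totalVariation_eq_variation]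
  unfold SignedMeasure.totalVariation
  infer_instance

lemma fin_var (μ : ComplexMeasure G) : IsFiniteMeasure (VectorMeasure.variation μ) := by
  have := fin_signed (ComplexMeasure.re μ)
  have := fin_signed (ComplexMeasure.im μ)
  exact isFiniteMeasure_of_le _ (variation_le_re_im μ)

lemma signed_var_le (s : SignedMeasure G) {M : ℝ} (h : ∀ t, MeasurableSet t → ‖s t‖ ≤ M) :
    VectorMeasure.variation s univ ≤ 2 * ENNReal.ofReal M := by
  by_contra hlt
  push Not at hlt
  obtain ⟨t, -, ht, ht'⟩ := s.exists_subset_lt_enorm_apply_of_lt_variation MeasurableSet.univ hlt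
  have : ‖s t‖ₑ ≤ ENNReal.ofReal M := by
    rw [← ofReal_norm]; exact ENNReal.ofReal_le_ofReal (h t ht)
  exact absurd (ht'.trans_le (by gcongr)) (lt_irrefl _)

lemma tv_le_of_forall (μ : ComplexMeasure G) {M : ℝ} (h : ∀ t, MeasurableSet t → ‖μ t‖ ≤ M) :
    tv μ ≤ 4 * M := by
  have hM : 0 ≤ M := (norm_nonneg _).trans (h ∅ MeasurableSet.empty)
  have h1 := signed_var_le (ComplexMeasure.re μ) (M := M) fun t ht =>
    (Complex.abs_re_le_norm (μ t)).trans (h t ht)
  have h2 := signed_var_le (ComplexMeasure.im μ) (M := M) fun t ht =>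
    (Complex.abs_im_le_norm (μ t)).trans (h t ht)
  have h3 := variation_le_re_im μ univ
  rw [Measure.add_apply] at h3
  have h4 : VectorMeasure.variation μ univ ≤ ENNReal.ofReal (4 * M) := by
    refine (h3.trans (add_le_add h1 h2)).trans_eq ?_
    rw [ENNReal.ofReal_mul (by norm_num), ← add_mul]
    norm_num
  exact ENNReal.toReal_le_of_le_ofReal (by positivity) h4

lemma norm_sub_le_symmDiff (μ : ComplexMeasure G) {s t : Set G} (hs : MeasurableSet s)
    (ht : MeasurableSet t) :
    ‖μ s‖ ≤ ‖μ t‖ + 2 * (VectorMeasure.variation μ).real (symmDiff t s) := by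
  have := fin_var μ
  have h1 : μ (s ∩ t) + μ (s \ t) = μ s := by
    rw [← VectorMeasure.of_union (by grind) (hs.inter ht) (hs.diff ht), inter_union_sdiff]
  have h2 : μ (s ∩ t) + μ (t \ s) = μ t := by
    rw [← VectorMeasure.of_union (by grind) (hs.inter ht) (ht.diff hs), inter_comm,
      inter_union_sdiff]
  have h3 : ‖μ (s \ t)‖ ≤ (VectorMeasure.variation μ).real (symmDiff t s) :=
    (VectorMeasure.norm_measure_le_variation (μ := μ)).trans
      (measureReal_mono (by rw [Set.symmDiff_def]; exact subset_union_right))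
  have h4 : ‖μ (t \ s)‖ ≤ (VectorMeasure.variation μ).real (symmDiff t s) :=
    (VectorMeasure.norm_measure_le_variation (μ := μ)).trans
      (measureReal_mono (by rw [Set.symmDiff_def]; exact subset_union_left))
  have h5 : μ s = μ t - μ (t \ s) + μ (s \ t) := by rw [← h1, ← h2]; ring
  rw [h5]
  have h6 := norm_add_le (μ t - μ (t \ s)) (μ (s \ t))
  have h7 := norm_sub_le (μ t) (μ (t \ s))
  linarith

variable {Γ : Type} [AddCommGroup Γ] [Fintype Γ]

/-- The image of a measure in a finite group. -/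
noncomputable def Jp (π : G → Γ) (μ : ComplexMeasure G) : L1 Γ := mk fun a => μ (π ⁻¹' {a})

lemma Jp_add (π : G → Γ) (μ ν : ComplexMeasure G) : Jp π (μ + ν) = Jp π μ + Jp π ν := by
  apply L1.ext'
  intro x
  rw [AddMonoidAlgebra.coeff_add, Finsupp.add_apply]
  simp [Jp]

lemma Jp_smul (π : G → Γ) (c : ℂ) (μ : ComplexMeasure G) : Jp π (c • μ) = c • Jp π μ := by
  apply L1.ext'
  intro x
  rw [AddMonoidAlgebra.coeff_smul_apply]
  simp [Jp]

lemma norm_Jp_le {π : G → Γ} (hπ : ∀ a, MeasurableSet (π ⁻¹' {a})) (μ : ComplexMeasure G) :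
    ‖Jp π μ‖ ≤ tv μ := by
  have := fin_var μ
  rw [norm_def]
  calc ∑ a, ‖(Jp π μ).coeff a‖ ≤ ∑ a, (VectorMeasure.variation μ).real (π ⁻¹' {a}) :=
        Finset.sum_le_sum fun a _ => VectorMeasure.norm_measure_le_variation (μ := μ)
    _ = (VectorMeasure.variation μ).real (π ⁻¹' (Finset.univ : Finset Γ)) :=
        sum_measureReal_preimage_singleton _ (fun a _ => hπ a)
    _ = tv μ := by simp [tv, Measure.real]

lemma norm_preimage_le {π : G → Γ} (hπ : ∀ a, MeasurableSet (π ⁻¹' {a})) (μ : ComplexMeasure G)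
    (S : Set Γ) : ‖μ (π ⁻¹' S)‖ ≤ ‖Jp π μ‖ := by
  classical
  have h1 : π ⁻¹' S = ⋃ a ∈ Finset.univ.filter (· ∈ S), π ⁻¹' {a} := by
    ext x; simp
  rw [h1, VectorMeasure.of_biUnion_finset _ (fun a _ => hπ a), norm_def]
  · refine (norm_sum_le _ _).trans ?_
    exact Finset.sum_le_sum_of_subset_of_nonneg (Finset.filter_subset _ _)
      fun _ _ _ => norm_nonneg _
  · intro a _ b _ hab
    exact Disjoint.preimage π (disjoint_singleton.2 hab)

lemma Jp_dirac [Zero G] {π : G → Γ} (hπ : ∀ a, MeasurableSet (π ⁻¹' {a})) (h0 : π 0 = 0) :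
    Jp π (VectorMeasure.dirac 0 1) = 1 := by
  classical
  apply L1.ext'
  intro x
  rw [AddMonoidAlgebra.one_def, AddMonoidAlgebra.coeff_single, Finsupp.single_apply, Jp, coeff_mk]
  split_ifs with hx
  · exact VectorMeasure.dirac_apply_of_mem (hπ x) (by simp [h0, hx])
  · exact VectorMeasure.dirac_apply_of_notMem (by simpa [h0] using hx)

lemma Jp_conv [AddCommGroup G] [MeasurableAdd₂ G] (π : G →+ Γ)
    (hπ : ∀ a, MeasurableSet (π ⁻¹' {a})) (μ ν : ComplexMeasure G) :
    Jp π (conv μ ν) = Jp π μ * Jp π ν := by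
  classical
  have := fin_var μ
  apply L1.ext'
  intro x
  rw [coeff_mul']
  simp only [Jp, coeff_mk, conv]
  rw [VectorMeasure.map_apply _ measurable_add (hπ x)]
  have h1 : (fun p : G × G => p.1 + p.2) ⁻¹' (π ⁻¹' {x}) =
      ⋃ y ∈ (Finset.univ : Finset Γ), (π ⁻¹' {y}) ×ˢ (π ⁻¹' {x - y}) := by
    ext ⟨a, b⟩
    simp only [mem_preimage, mem_singleton_iff, map_add, Finset.mem_univ, iUnion_true,
      mem_iUnion, mem_prod]
    constructor
    · intro h; exact ⟨π a, rfl, by rw [← h]; abel⟩
    · rintro ⟨y, h1, h2⟩; rw [h1, h2]; abel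
  rw [h1, VectorMeasure.of_biUnion_finset _ (fun y _ => (hπ y).prod (hπ _))]
  · refine Finset.sum_congr rfl fun y _ => ?_
    rw [VectorMeasure.prod_apply]
    rfl
  · intro a _ b _ hab
    exact Set.disjoint_prod.2 (Or.inl (Disjoint.preimage π (disjoint_singleton.2 hab)))

/-- A finite positive measure as a complex measure. -/
noncomputable def toC (m : Measure G) [IsFiniteMeasure m] : ComplexMeasure G :=
  m.toSignedMeasure.toComplexMeasure 0

lemma toC_apply (m : Measure G) [IsFiniteMeasure m] {s : Set G} (hs : MeasurableSet s) :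
    toC m s = (m.real s : ℝ) := by
  rw [toC, SignedMeasure.toComplexMeasure_apply, Measure.toSignedMeasure_apply_measurable hs]
  rfl

/-- The measure on a finite group with given nonnegative coefficients. -/
noncomputable def ofL1 [MeasurableSpace Γ] (a : L1 Γ) : Measure Γ :=
  ∑ y, ENNReal.ofReal ‖a.coeff y‖ • Measure.dirac y

lemma ofL1_singleton [MeasurableSpace Γ] [MeasurableSingletonClass Γ] (a : L1 Γ) (x : Γ) :
    ofL1 a {x} = ENNReal.ofReal ‖a.coeff x‖ := by
  classical
  rw [ofL1, Measure.finsetSum_apply, Finset.sum_eq_single x]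
  · simp
  · intro y _ hy
    simp [hy]
  · simp

open scoped ComplexOrder in
lemma ofL1_prob [MeasurableSpace Γ] {a : L1 Γ} (hp : Pos a) (hm : Mass a) :
    IsProbabilityMeasure (ofL1 a) := by
  constructor
  rw [ofL1, Measure.finsetSum_apply]
  simp only [Measure.smul_apply, measure_univ, smul_eq_mul, mul_one]
  rw [← ENNReal.ofReal_sum_of_nonneg (fun _ _ => norm_nonneg _)]
  have h1 := hm 0
  simp only [T, mul_one] at h1
  have h2 : ((∑ y, ‖a.coeff y‖ : ℝ) : ℂ) = 1 := by
    rw [← h1]; push_cast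
    exact Finset.sum_congr rfl fun y _ => (hp.coeff_eq y).symm
  have h3 : ∑ y, ‖a.coeff y‖ = 1 := by exact_mod_cast h2
  rw [h3, ENNReal.ofReal_one]

end Fin

end Pool.Agent.H12Z.Cor
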