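import Pool.Agent.H12Z.CubConvA

/-! Convolution of the Bernoulli kernel with the fractional derivative of the hat function. -/

namespace Pool.Agent.H12Z.CubConv

open MeasureTheory Filter Finset Topology Pool.Agent.H445Z.Cub Real

lemma rep_mem (x : Circ) : rep x ∈ Set.Ico 0 (2 * π) := by
  have := (AddCircle.equivIco (2 * π) 0 x).2
  simpa [rep] using this

lemma coe_rep (x : Circ) : ((rep x : ℝ) : Circ) = x :=
  (AddCircle.equivIco (2 * π) 0).symm_apply_apply x

lemma rep_coe {t : ℝ} (h0 : 0 ≤ t) (h1 : t < 2 * π) : rep (t : Circ) = t := by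
  unfold rep
  rw [AddCircle.equivIco_coe_eq ⟨h0, by simpa using h1⟩]

lemma meas_rep : Measurable rep :=
  measurable_subtype_coe.comp (AddCircle.measurableEquivIco (2 * π) 0).measurable

lemma rep_pos {x : Circ} (hx : x ≠ 0) : 0 < rep x := by
  refine lt_of_le_of_ne (rep_mem x).1 fun h => hx ?_
  rw [← coe_rep x, ← h]; rfl

lemma rep_eq_add {x : Circ} {t : ℝ} (h : (t : Circ) = x) : ∃ m : ℤ, rep x = t + m * (2 * π) := by
  have h1 : ((rep x - t : ℝ) : Circ) = 0 := by rw [AddCircle.coe_sub, coe_rep, h, sub_self]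
  obtain ⟨m, hm⟩ := (AddCircle.coe_eq_zero_iff _).1 h1
  exact ⟨m, by rw [zsmul_eq_mul] at hm; linarith⟩

lemma cos_rep {x : Circ} {t : ℝ} (h : (t : Circ) = x) (k : ℤ) (θ : ℝ) :
    Real.cos (k * rep x + θ) = Real.cos (k * t + θ) := by
  obtain ⟨m, hm⟩ := rep_eq_add h
  rw [hm, ← Real.cos_add_int_mul_two_pi (k * t + θ) (k * m)]
  congr 1; push_cast; ring

lemma int_cos (m : ℤ) (θ : ℝ) :
    ∫ y : Circ, Real.cos (m * rep y + θ) ∂AddCircle.haarAddCircle =
      if m = 0 then Real.cos θ else 0 := by
  split_ifs with hm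
  · simp [hm]
  · rw [AddCircle.integral_haarAddCircle, ← AddCircle.intervalIntegral_preimage (2 * π) 0]
    have h1 : ∀ a : ℝ, Real.cos (m * rep (a : Circ) + θ) = Real.cos (m * a + θ) :=
      fun a => cos_rep rfl m θ
    simp only [h1]
    rw [intervalIntegral.integral_comp_mul_add Real.cos (by exact_mod_cast hm), integral_cos,
      zero_add, mul_zero, zero_add, add_comm, Real.sin_add_int_mul_two_pi]
    simp

lemma intble_bdd {f : Circ → ℝ} (hf : Measurable f) {C : ℝ} (h : ∀ y, |f y| ≤ C) :
    Integrable f AddCircle.haarAddCircle :=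
  Integrable.of_bound hf.aestronglyMeasurable C (Eventually.of_forall h)

lemma orth (k j : ℕ) (hk : 1 ≤ k) (x : Circ) (c φ : ℝ) :
    ∫ y : Circ, Real.cos (k * rep (x - y) - φ) * Real.cos (j * (rep y - c) + φ)
      ∂AddCircle.haarAddCircle = if j = k then Real.cos (k * (rep x - c)) / 2 else 0 := by
  have hm := meas_rep
  have h1 : ∀ y : Circ, Real.cos (k * rep (x - y) - φ) * Real.cos (j * (rep y - c) + φ) =
      (Real.cos ((((j : ℤ) - k : ℤ) : ℝ) * rep y + (k * rep x - j * c))
        + Real.cos ((((j : ℤ) + k : ℤ) : ℝ) * rep y + (2 * φ - k * rep x - j * c))) / 2 := by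
    intro y
    have e := cos_rep (x := x - y) (t := rep x - rep y)
      (by rw [AddCircle.coe_sub, coe_rep, coe_rep]) k (-φ)
    rw [Int.cast_natCast, ← sub_eq_add_neg, ← sub_eq_add_neg] at e
    rw [e]
    have e1 : (((j : ℤ) - k : ℤ) : ℝ) * rep y + (k * rep x - j * c) =
        (j * (rep y - c) + φ) + (k * (rep x - rep y) - φ) := by push_cast; ring
    have e2 : (((j : ℤ) + k : ℤ) : ℝ) * rep y + (2 * φ - k * rep x - j * c) =
        (j * (rep y - c) + φ) - (k * (rep x - rep y) - φ) := by push_cast; ring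
    rw [e1, e2, Real.cos_add (j * (rep y - c) + φ), Real.cos_sub (j * (rep y - c) + φ)]
    ring
  simp only [h1]
  rw [integral_div, integral_add (intble_bdd (by fun_prop) fun y => Real.abs_cos_le_one _)
    (intble_bdd (by fun_prop) fun y => Real.abs_cos_le_one _), int_cos, int_cos,
    if_neg (by omega : ¬ ((j : ℤ) + k = 0))]
  by_cases hjk : j = k
  · subst hjk
    rw [if_pos (by omega), if_pos rfl, add_zero, mul_sub]
  · rw [if_neg (by omega), if_neg hjk]; simp

lemma coef_nonneg (a k : ℕ) : 0 ≤ coef a k := by unfold coef; positivity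

lemma coef_zero (a : ℕ) : coef a 0 = 0 := by simp [coef]

lemma summable_coef (a : ℕ) {r : ℝ} (h1 : r < 1) : Summable fun k : ℕ => coef a k * (k : ℝ) ^ r := by
  have hd : 0 < dl a := by unfold dl; have := Real.pi_pos; positivity
  have hs : Summable fun k : ℕ => 4 / (2 ^ a * dl a ^ 2) * (k : ℝ) ^ (r - 2) :=
    (Real.summable_nat_rpow.2 (by linarith)).mul_left _
  refine Summable.of_nonneg_of_le (fun k => mul_nonneg (coef_nonneg a k) (by positivity))
    (fun k => ?_) hs
  rcases Nat.eq_zero_or_pos k with rfl | hk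
  · rw [coef_zero, zero_mul]; positivity
  · have hk' : (0 : ℝ) < k := by exact_mod_cast hk
    rw [Real.rpow_sub hk', Real.rpow_two]
    have h2 : coef a k ≤ 4 / (2 ^ a * (k * dl a) ^ 2) := by
      unfold coef
      refine div_le_div_of_nonneg_right ?_ (by positivity)
      have := Real.sin_sq_le_one (k * dl a / 2)
      linarith
    refine (mul_le_mul_of_nonneg_right h2 (by positivity)).trans_eq ?_
    field_simp

lemma int_mul_eta {r : ℝ} (h1 : r < 1) (a : ℕ) (c : ℝ) {g : Circ → ℝ} (hg : Measurable g)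
    (hb : ∀ y, |g y| ≤ 1) :
    ∫ y : Circ, g y * eta r a (rep y - c) ∂AddCircle.haarAddCircle =
      ((2 : ℝ) ^ a)⁻¹ * ∫ y, g y ∂AddCircle.haarAddCircle + 2 * ∑' j : ℕ, coef a j * (j : ℝ) ^ r *
        ∫ y : Circ, g y * Real.cos (j * (rep y - c) + r * π / 2) ∂AddCircle.haarAddCircle := by
  have hm := meas_rep
  have hs := summable_coef a h1
  let F : ℕ → Circ → ℝ := fun j y =>
    coef a j * (j : ℝ) ^ r * (g y * Real.cos (j * (rep y - c) + r * π / 2))
  have hF : ∀ j y, |F j y| ≤ coef a j * (j : ℝ) ^ r := fun j y => by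
    have h0 : 0 ≤ coef a j * (j : ℝ) ^ r := mul_nonneg (coef_nonneg a j) (by positivity)
    simp only [F]
    rw [abs_mul, abs_of_nonneg h0, abs_mul]
    exact mul_le_of_le_one_right h0
      (mul_le_one₀ (hb y) (abs_nonneg _) (Real.abs_cos_le_one _))
  have hFm : ∀ j, Measurable (F j) := fun j => by simp only [F]; fun_prop
  have hFi : ∀ j, Integrable (F j) AddCircle.haarAddCircle := fun j => intble_bdd (hFm j) (hF j)
  have hsum := hasSum_integral_of_summable_integral_norm hFi (by
    refine Summable.of_nonneg_of_le (fun j => integral_nonneg fun y => norm_nonneg _)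
      (fun j => ?_) hs
    have := norm_integral_le_of_norm_le_const (μ := AddCircle.haarAddCircle)
      (f := fun y => ‖F j y‖) (C := coef a j * (j : ℝ) ^ r)
      (Eventually.of_forall fun y => by rw [norm_norm]; exact hF j y)
    simp only [probReal_univ, mul_one] at this
    exact (le_abs_self _).trans this)
  have e : ∀ y, g y * eta r a (rep y - c) = ((2 : ℝ) ^ a)⁻¹ * g y + 2 * ∑' j, F j y := by
    intro y
    simp only [eta, F]
    rw [mul_add, mul_comm (g y), mul_left_comm (g y), ← tsum_mul_left]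
    congr 3
    funext j; ring
  have hti : Integrable (fun y => ∑' j, F j y) AddCircle.haarAddCircle := by
    refine intble_bdd (Measurable.tsum hFm) (C := ∑' j : ℕ, coef a j * (j : ℝ) ^ r) fun y => ?_
    exact tsum_of_norm_bounded (f := fun j => F j y) hs.hasSum fun j => hF j y
  simp only [e]
  rw [integral_add ((intble_bdd hg hb).const_mul _) (hti.const_mul _), integral_const_mul,
    integral_const_mul, ← hsum.tsum_eq]
  simp only [F, integral_const_mul]

lemma int_eta {r : ℝ} (h1 : r < 1) (a : ℕ) (c : ℝ) :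
    ∫ y : Circ, eta r a (rep y - c) ∂AddCircle.haarAddCircle = ((2 : ℝ) ^ a)⁻¹ := by
  have h := int_mul_eta h1 a c (g := fun _ => 1) measurable_const (by simp)
  simp only [one_mul, integral_const, probReal_univ, smul_eq_mul, mul_one] at h
  rw [h]
  have : ∀ j : ℕ, coef a j * (j : ℝ) ^ r *
      ∫ y : Circ, Real.cos (j * (rep y - c) + r * π / 2) ∂AddCircle.haarAddCircle = 0 := by
    intro j
    rcases Nat.eq_zero_or_pos j with rfl | hj
    · rw [coef_zero, zero_mul, zero_mul]
    · have h2 := int_cos j (r * π / 2 - j * c)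
      rw [if_neg (by omega)] at h2
      have h3 : ∀ y : Circ, (j : ℝ) * (rep y - c) + r * π / 2 =
          ((j : ℤ) : ℝ) * rep y + (r * π / 2 - j * c) := fun y => by push_cast; ring
      simp only [h3, h2, mul_zero]
  simp [this]

lemma int_cos_eta {r : ℝ} (h1 : r < 1) (a : ℕ) (c : ℝ) (x : Circ) {k : ℕ} (hk : 1 ≤ k) :
    (k : ℝ) ^ (-r) * ∫ y : Circ, Real.cos (k * rep (x - y) - r * π / 2) * eta r a (rep y - c)
      ∂AddCircle.haarAddCircle = coef a k * Real.cos (k * (rep x - c)) := by
  have hm := meas_rep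
  rw [int_mul_eta h1 a c (by fun_prop) fun y => Real.abs_cos_le_one _]
  simp only [orth k _ hk]
  rw [tsum_eq_single k (fun j hj => by rw [if_neg hj, mul_zero]), if_pos rfl]
  have h2 : ∫ y : Circ, Real.cos (k * rep (x - y) - r * π / 2) ∂AddCircle.haarAddCircle = 0 := by
    rw [integral_sub_left_eq_self (fun y : Circ => Real.cos (k * rep y - r * π / 2))]
    have h3 := int_cos k (-(r * π / 2))
    rw [if_neg (by omega)] at h3
    simpa [sub_eq_add_neg] using h3
  have hk' : (0 : ℝ) < k := by exact_mod_cast hk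
  rw [h2, Real.rpow_neg hk'.le]
  have : (0 : ℝ) < (k : ℝ) ^ r := by positivity
  field_simp
  ring

lemma maj_rep_int {γ : ℝ} (hγ : -1 < γ) :
    Integrable (fun y : Circ => maj γ (rep y)) AddCircle.haarAddCircle := by
  have hm := meas_rep
  have h1 : Measurable fun y : Circ => maj γ (rep y) := by unfold maj; fun_prop
  have h2 : Integrable (fun y : Circ => maj γ (rep y)) volume := by
    rw [← (AddCircle.measurePreserving_mk (2 * π) 0).integrable_comp h1.aestronglyMeasurable,
      zero_add]
    have h3 := (maj_intble hγ).1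
    rw [integrableOn_Ioc_iff_integrableOn_Ioo] at h3
    have h4 : IntegrableOn ((fun y : Circ => maj γ (rep y)) ∘ QuotientAddGroup.mk)
        (Set.Ioo 0 (2 * π)) volume := by
      refine h3.congr_fun (fun t ht => ?_) measurableSet_Ioo
      simp only [Function.comp]
      rw [rep_coe ht.1.le ht.2]
    exact (integrableOn_Ioc_iff_integrableOn_Ioo (by simp)).2 h4
  rw [AddCircle.volume_eq_smul_haarAddCircle, integrable_smul_measure
    (by simpa using Real.pi_pos) ENNReal.ofReal_ne_top] at h2
  exact h2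

lemma haar_zero : (AddCircle.haarAddCircle : Measure Circ) {0} = 0 := by
  have h1 : (volume : Measure Circ) {0} = 0 := by
    have := AddCircle.volume_closedBall (T := 2 * π) (x := 0) 0
    simpa [Real.pi_pos.le] using this
  rw [AddCircle.volume_eq_smul_haarAddCircle, Measure.smul_apply, smul_eq_mul, mul_eq_zero] at h1
  exact h1.resolve_left (by simpa using Real.pi_pos)

theorem thm_conv : S_etaAlg → S_conv := by
  intro hA r h0 h1 a c x
  have hm := meas_rep
  have hη : Continuous fun y : Circ => eta r a (rep y - c) := (hA r h0 h1 a).2.2.2.1 c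
  obtain ⟨B, hB⟩ := isCompact_univ.exists_bound_of_continuousOn hη.continuousOn
  have hB' : ∀ y : Circ, |eta r a (rep y - c)| ≤ B := fun y => hB y (Set.mem_univ y)
  have hB0 : 0 ≤ B := (abs_nonneg _).trans (hB' 0)
  let F : ℕ → Circ → ℝ := fun n y => (1 + 2 * SS r n (rep (x - y))) * eta r a (rep y - c)
  have hFm : ∀ n, AEStronglyMeasurable (F n) AddCircle.haarAddCircle := fun n => by
    refine (Measurable.mul ?_ hη.measurable).aestronglyMeasurable
    unfold SS
    fun_prop
  have hbd : Integrable (fun y : Circ => (1 + 2 * (3 * maj (r / 2 - 1) (rep (x - y)))) * B)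
      AddCircle.haarAddCircle :=
    ((integrable_const 1).add
      ((((maj_rep_int (by linarith)).comp_sub_left x).const_mul 3).const_mul 2)).mul_const B
  have hae : ∀ᵐ y : Circ ∂AddCircle.haarAddCircle, y ≠ x := by
    rw [ae_iff]
    simpa using haar_zero
  have hle : ∀ n, ∀ᵐ y : Circ ∂AddCircle.haarAddCircle,
      ‖F n y‖ ≤ (1 + 2 * (3 * maj (r / 2 - 1) (rep (x - y)))) * B := fun n => by
    filter_upwards [hae] with y hy
    have p0 := rep_pos (sub_ne_zero.2 hy.symm)
    have p1 := (rep_mem (x - y)).2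
    have h2 := SS_le h0 (by linarith) (sin_half p0 p1) n
    have h3 := sin_rpow_le p0 p1 (γ := r / 2 - 1) (by linarith)
    have h4 := abs_add_le 1 (2 * SS r n (rep (x - y)))
    rw [abs_one, abs_mul, abs_two] at h4
    have h5 := abs_nonneg (1 + 2 * SS r n (rep (x - y)))
    simp only [F]
    rw [Real.norm_eq_abs, abs_mul]
    exact mul_le_mul (by linarith) (hB' y) (abs_nonneg _) (by linarith)
  have hlim : ∀ᵐ y : Circ ∂AddCircle.haarAddCircle, Tendsto (fun n => F n y) atTop
      (𝓝 (bern r (rep (x - y)) * eta r a (rep y - c))) := by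
    filter_upwards [hae] with y hy
    exact (SS_tendsto h0 (sin_half (rep_pos (sub_ne_zero.2 hy.symm))
      (rep_mem (x - y)).2)).mul_const _
  refine ⟨?_, ?_⟩
  · refine hbd.mono' (aestronglyMeasurable_of_tendsto_ae atTop hFm hlim) ?_
    filter_upwards [hlim, ae_all_iff.2 hle] with y h2 h3
    exact le_of_tendsto' h2.norm h3
  have key := tendsto_integral_of_dominated_convergence _ hFm hbd hle hlim
  have hI : ∀ n, ∫ y, F n y ∂AddCircle.haarAddCircle =
      ((2 : ℝ) ^ a)⁻¹ + 2 * ∑ k ∈ range (n + 1), coef a k * Real.cos (k * (rep x - c)) := by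
    intro n
    have i0 : Integrable (fun y : Circ => eta r a (rep y - c)) AddCircle.haarAddCircle :=
      intble_bdd hη.measurable hB'
    have i1 : ∀ k : ℕ, Integrable (fun y : Circ => (k : ℝ) ^ (-r) *
        (Real.cos (k * rep (x - y) - r * π / 2) * eta r a (rep y - c))) AddCircle.haarAddCircle :=
      fun k => (i0.bdd_mul (c := 1) (Measurable.aestronglyMeasurable (by fun_prop))
        (Eventually.of_forall fun y => Real.abs_cos_le_one _)).const_mul _
    have e : ∀ y, F n y = eta r a (rep y - c) + 2 * ∑ k ∈ Finset.Icc 1 n, (k : ℝ) ^ (-r) *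
        (Real.cos (k * rep (x - y) - r * π / 2) * eta r a (rep y - c)) := fun y => by
      simp only [F, SS]
      rw [add_mul, one_mul, mul_assoc, Finset.sum_mul]
      simp only [mul_assoc]
    simp only [e]
    rw [integral_add i0 ((integrable_finsetSum _ fun k _ => i1 k).const_mul 2),
      integral_const_mul, integral_finsetSum _ fun k _ => i1 k, int_eta (by linarith)]
    congr 2
    rw [Finset.range_eq_Ico, Finset.sum_eq_sum_Ico_succ_bot (by omega), coef_zero, zero_mul,
      zero_add]
    refine Finset.sum_congr rfl fun k hk => ?_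
    rw [integral_const_mul, int_cos_eta (by linarith) a c x (Finset.mem_Icc.1 hk).1]
  simp only [hI] at key
  have hs : Summable fun k : ℕ => coef a k * Real.cos (k * (rep x - c)) := by
    refine Summable.of_norm_bounded (summable_coef a (r := 0) (by norm_num)) fun k => ?_
    rw [Real.rpow_zero, norm_mul, Real.norm_of_nonneg (coef_nonneg a k)]
    exact mul_le_mul_of_nonneg_left (Real.abs_cos_le_one _) (coef_nonneg a k)
  have h2 := ((hs.hasSum.tendsto_sum_nat.comp (tendsto_add_atTop_nat 1)).const_mul 2).const_add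
    ((2 : ℝ) ^ a)⁻¹
  exact tendsto_nhds_unique key h2

end Pool.Agent.H12Z.CubConv
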