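import Pool.Agent.H445Z.CubSt

/-! Finite sums of the Bernoulli kernel: bounds and pointwise convergence. -/

namespace Pool.Agent.H12Z.CubConv

open MeasureTheory Filter Finset Topology Pool.Agent.H445Z.Cub Real

/-- Finite sums of the kernel series. -/
noncomputable def SS (r : ℝ) (n : ℕ) (t : ℝ) : ℝ :=
  ∑ k ∈ Finset.Icc 1 n, (k : ℝ) ^ (-r) * Real.cos (k * t - r * Real.pi / 2)

/-- Unweighted sums. -/
noncomputable def DD (φ t : ℝ) (n : ℕ) : ℝ := ∑ k ∈ range n, Real.cos (((k : ℝ) + 1) * t - φ)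

lemma SS_eq (r : ℝ) (n : ℕ) (t : ℝ) : SS r n t =
    ∑ k ∈ range n, ((k : ℝ) + 1) ^ (-r) * Real.cos (((k : ℝ) + 1) * t - r * π / 2) := by
  induction n with
  | zero => simp [SS]
  | succ n ih =>
    rw [sum_range_succ, ← ih, SS, SS, Finset.sum_Icc_succ_top (by omega)]
    push_cast; rfl

lemma DD_tel (φ t : ℝ) (n : ℕ) :
    2 * Real.sin (t / 2) * DD φ t n = Real.sin ((n + 1 / 2) * t - φ) - Real.sin (t / 2 - φ) := by
  induction n with
  | zero => simp [DD]; ring_nf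
  | succ n ih =>
    rw [DD, sum_range_succ, ← DD, mul_add, ih]
    have e1 : ((n : ℝ) + 1 / 2) * t - φ = (((n : ℝ) + 1) * t - φ) - t / 2 := by ring
    have e2 : (((n + 1 : ℕ) : ℝ) + 1 / 2) * t - φ = (((n : ℝ) + 1) * t - φ) + t / 2 := by
      push_cast; ring
    rw [e1, e2, Real.sin_sub (((n : ℝ) + 1) * t - φ), Real.sin_add]
    ring

lemma DD_le_inv (φ : ℝ) {t : ℝ} (ht : 0 < Real.sin (t / 2)) (n : ℕ) :
    |DD φ t n| ≤ (Real.sin (t / 2))⁻¹ := by
  have h := DD_tel φ t n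
  have h1 : |2 * Real.sin (t / 2) * DD φ t n| ≤ 2 := by
    rw [h]
    have := Real.abs_sin_le_one ((n + 1 / 2) * t - φ)
    have := Real.abs_sin_le_one (t / 2 - φ)
    have := abs_sub (Real.sin ((n + 1 / 2) * t - φ)) (Real.sin (t / 2 - φ))
    linarith
  rw [abs_mul, abs_of_pos (by positivity)] at h1
  rw [← one_div, le_div_iff₀ ht]
  linarith

lemma DD_le_n (φ t : ℝ) (n : ℕ) : |DD φ t n| ≤ n := by
  refine (Finset.abs_sum_le_sum_abs _ _).trans ?_
  calc ∑ k ∈ range n, |Real.cos (((k : ℝ) + 1) * t - φ)| ≤ ∑ _k ∈ range n, (1 : ℝ) :=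
        sum_le_sum fun k _ => Real.abs_cos_le_one _
    _ = n := by simp

lemma DD_le (φ : ℝ) {t γ : ℝ} (ht : 0 < Real.sin (t / 2)) (h0 : 0 ≤ γ) (h1 : γ ≤ 1) (n : ℕ) :
    |DD φ t n| ≤ (n : ℝ) ^ γ * Real.sin (t / 2) ^ (γ - 1) := by
  have e : |DD φ t n| = |DD φ t n| ^ γ * |DD φ t n| ^ (1 - γ) := by
    rw [← Real.rpow_add' (abs_nonneg _) (by norm_num)]; simp
  rw [e]
  refine mul_le_mul (Real.rpow_le_rpow (abs_nonneg _) (DD_le_n φ t n) h0) ?_ (by positivity)
    (by positivity)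
  refine (Real.rpow_le_rpow (abs_nonneg _) (DD_le_inv φ ht n) (by linarith)).trans_eq ?_
  rw [Real.inv_rpow ht.le, ← Real.rpow_neg ht.le]
  congr 1; ring

lemma abel_bound (a z : ℕ → ℝ) (u : ℕ → ℝ) (L : ℝ) (hu : ∀ k, 0 < u k) (hanti : Antitone u)
    (ha : ∀ k, a k = u k ^ 2) (hL : 0 ≤ L)
    (hD : ∀ k, |∑ j ∈ range (k + 1), z j| ≤ (u k)⁻¹ * L) (n : ℕ) :
    |∑ k ∈ range (n + 1), a k * z k - a n * ∑ j ∈ range (n + 1), z j| ≤ 2 * (u 0 - u n) * L := by
  induction n with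
  | zero => simp
  | succ n ih =>
    have e : ∑ k ∈ range (n + 1 + 1), a k * z k - a (n + 1) * ∑ j ∈ range (n + 1 + 1), z j =
        (∑ k ∈ range (n + 1), a k * z k - a n * ∑ j ∈ range (n + 1), z j)
          + (a n - a (n + 1)) * ∑ j ∈ range (n + 1), z j := by
      rw [sum_range_succ _ (n + 1), sum_range_succ z (n + 1)]; ring
    rw [e]
    have h1 : u (n + 1) ≤ u n := hanti (Nat.le_succ n)
    have h2 := hu n
    have h3 := hu (n + 1)
    have h4 : 0 ≤ a n - a (n + 1) := by rw [ha, ha]; nlinarith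
    have h5 : |(a n - a (n + 1)) * ∑ j ∈ range (n + 1), z j| ≤ 2 * (u n - u (n + 1)) * L := by
      rw [abs_mul, abs_of_nonneg h4]
      refine (mul_le_mul_of_nonneg_left (hD n) h4).trans ?_
      rw [← mul_assoc]
      refine mul_le_mul_of_nonneg_right ?_ hL
      rw [ha, ha, ← div_eq_mul_inv, div_le_iff₀ h2]
      nlinarith
    have := abs_add_le (∑ k ∈ range (n + 1), a k * z k - a n * ∑ j ∈ range (n + 1), z j)
      ((a n - a (n + 1)) * ∑ j ∈ range (n + 1), z j)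
    linarith

lemma SS_le {r t : ℝ} (h0 : 0 < r) (h1 : r ≤ 1) (ht : 0 < Real.sin (t / 2)) (n : ℕ) :
    |SS r n t| ≤ 3 * Real.sin (t / 2) ^ (r / 2 - 1) := by
  have hL : 0 ≤ Real.sin (t / 2) ^ (r / 2 - 1) := by positivity
  rcases n with _ | n
  · simp only [SS]; simp; positivity
  have hu : ∀ k : ℕ, 0 < ((k : ℝ) + 1) ^ (-(r / 2)) := fun k => by positivity
  have hanti : Antitone fun k : ℕ => ((k : ℝ) + 1) ^ (-(r / 2)) := fun a b hab =>
    Real.rpow_le_rpow_of_nonpos (by positivity) (by simpa using hab) (by linarith)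
  have ha : ∀ k : ℕ, ((k : ℝ) + 1) ^ (-r) = (((k : ℝ) + 1) ^ (-(r / 2))) ^ 2 := fun k => by
    rw [← Real.rpow_natCast, ← Real.rpow_mul (by positivity)]
    congr 1; push_cast; ring
  have hD : ∀ k : ℕ, |∑ j ∈ range (k + 1), Real.cos (((j : ℝ) + 1) * t - r * π / 2)| ≤
      (((k : ℝ) + 1) ^ (-(r / 2)))⁻¹ * Real.sin (t / 2) ^ (r / 2 - 1) := fun k => by
    have := DD_le (r * π / 2) (γ := r / 2) ht (by linarith) (by linarith) (k + 1)
    rw [Real.rpow_neg (by positivity), inv_inv]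
    push_cast at this
    exact this
  have key := abel_bound (fun k => ((k : ℝ) + 1) ^ (-r))
    (fun j => Real.cos (((j : ℝ) + 1) * t - r * π / 2)) (fun k => ((k : ℝ) + 1) ^ (-(r / 2)))
    _ hu hanti ha hL hD n
  rw [SS_eq]
  have h2 : |((n : ℝ) + 1) ^ (-r) * ∑ j ∈ range (n + 1), Real.cos (((j : ℝ) + 1) * t - r * π / 2)|
      ≤ ((n : ℝ) + 1) ^ (-(r / 2)) * Real.sin (t / 2) ^ (r / 2 - 1) := by
    rw [abs_mul, abs_of_nonneg (by positivity)]
    refine (mul_le_mul_of_nonneg_left (hD n) (by positivity)).trans_eq ?_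
    rw [ha, ← mul_assoc, sq, mul_assoc (((n : ℝ) + 1) ^ (-(r / 2))), mul_inv_cancel₀ (hu n).ne',
      mul_one]
  simp only [Nat.cast_zero, zero_add, Real.one_rpow] at key
  have h3 := mul_nonneg (hu n).le hL
  have h4 := abs_sub_abs_le_abs_sub
    (∑ k ∈ range (n + 1), ((k : ℝ) + 1) ^ (-r) * Real.cos (((k : ℝ) + 1) * t - r * π / 2))
    (((n : ℝ) + 1) ^ (-r) * ∑ j ∈ range (n + 1), Real.cos (((j : ℝ) + 1) * t - r * π / 2))
  nlinarith

lemma SS_tendsto {r t : ℝ} (h0 : 0 < r) (ht : 0 < Real.sin (t / 2)) :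
    Tendsto (fun n => 1 + 2 * SS r n t) atTop (𝓝 (bern r t)) := by
  have hanti : Antitone fun k : ℕ => ((k : ℝ) + 1) ^ (-r) := fun a b hab =>
    Real.rpow_le_rpow_of_nonpos (by positivity) (by simpa using hab) (by linarith)
  have h1 : Tendsto (fun k : ℕ => ((k : ℝ) + 1) ^ (-r)) atTop (𝓝 0) :=
    (tendsto_rpow_neg_atTop h0).comp
      (tendsto_atTop_add_const_right _ 1 tendsto_natCast_atTop_atTop)
  have h2 := hanti.cauchySeq_series_mul_of_tendsto_zero_of_bounded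
    (z := fun j : ℕ => Real.cos (((j : ℝ) + 1) * t - r * π / 2)) h1
    (fun n => DD_le_inv (r * π / 2) ht n)
  obtain ⟨l, hl⟩ := cauchySeq_tendsto_of_complete h2
  have h3 : Tendsto (fun n => SS r n t) atTop (𝓝 l) := by
    simpa only [SS_eq, smul_eq_mul] using hl
  have h4 : bern r t = 1 + 2 * l := by
    unfold bern
    congr 2
    exact h3.limUnder_eq
  rw [h4]
  exact (h3.const_mul 2).const_add 1

/-- The integrable majorant. -/
noncomputable def maj (γ t : ℝ) : ℝ := (t / π) ^ γ + ((2 * π - t) / π) ^ γ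

lemma sin_half {t : ℝ} (h0 : 0 < t) (h1 : t < 2 * π) : 0 < Real.sin (t / 2) :=
  Real.sin_pos_of_pos_of_lt_pi (by linarith) (by linarith)

lemma sin_rpow_le {t γ : ℝ} (h0 : 0 < t) (h1 : t < 2 * π) (hγ : γ ≤ 0) :
    Real.sin (t / 2) ^ γ ≤ maj γ t := by
  have hp := Real.pi_pos
  have a1 : 0 ≤ (t / π) ^ γ := by positivity
  have a2 : 0 ≤ ((2 * π - t) / π) ^ γ := Real.rpow_nonneg (div_nonneg (by linarith) hp.le) _
  unfold maj
  rcases le_total t π with h | h
  · have h2 := Real.mul_le_sin (x := t / 2) (by linarith) (by linarith)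
    have h3 : t / π = 2 / π * (t / 2) := by field_simp
    have := Real.rpow_le_rpow_of_nonpos (x := t / π) (by positivity) (h3 ▸ h2) hγ
    linarith
  · have h2 := Real.mul_le_sin (x := π - t / 2) (by linarith) (by linarith)
    rw [Real.sin_pi_sub] at h2
    have h3 : (2 * π - t) / π = 2 / π * (π - t / 2) := by field_simp
    have := Real.rpow_le_rpow_of_nonpos (x := (2 * π - t) / π) (div_pos (by linarith) hp)
      (h3 ▸ h2) hγ
    linarith

lemma maj_intble {γ : ℝ} (hγ : -1 < γ) : IntervalIntegrable (maj γ) volume 0 (2 * π) := by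
  have hp := Real.pi_pos
  have h1 : IntervalIntegrable (fun t : ℝ => (t / π) ^ γ) volume 0 (2 * π) := by
    have := (intervalIntegral.intervalIntegrable_rpow' (a := 0) (b := 2) hγ).comp_mul_right
      (c := π⁻¹)
    simpa [div_eq_mul_inv] using this
  have h2 := (h1.comp_sub_left (2 * π)).symm
  simp only [sub_zero, sub_self] at h2
  exact h1.add h2

end Pool.Agent.H12Z.CubConv
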