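import Mathlib

set_option autoImplicit false

/-!
# Many determinants of zero-one matrices

A chain of copies of a fixed `16 × 16` zero-one matrix `D` whose inverse has the entry
`12823 / 69220` (lowest terms, `69220 ≥ 2 ^ 16`), together with one column of digits, gives
`69220 ^ k` different determinants in dimension `16 k + O(1)`.
-/

namespace Pool.Agent.H12Z.Dets

open Matrix

def dl : List (List ℤ) :=
  [[0, 0, 1, 1, 0, 0, 1, 1, 0, 0, 0, 1, 1, 1, 1, 1],
   [0, 1, 1, 0, 1, 0, 1, 0, 1, 1, 1, 1, 1, 0, 0, 1],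
   [1, 1, 1, 1, 0, 0, 0, 0, 1, 1, 0, 0, 1, 1, 0, 1],
   [1, 0, 1, 0, 1, 1, 1, 0, 1, 1, 0, 1, 0, 0, 1, 0],
   [0, 1, 1, 0, 1, 1, 0, 0, 0, 0, 1, 0, 1, 1, 1, 0],
   [1, 1, 0, 0, 1, 1, 1, 0, 0, 1, 0, 0, 1, 1, 0, 1],
   [1, 1, 0, 1, 0, 0, 0, 1, 0, 0, 1, 1, 1, 0, 1, 0],
   [1, 0, 0, 0, 1, 0, 0, 0, 1, 0, 1, 0, 1, 1, 1, 1],
   [0, 0, 1, 1, 1, 1, 0, 1, 0, 1, 0, 0, 1, 0, 0, 1],
   [0, 0, 0, 1, 1, 0, 1, 0, 0, 1, 1, 1, 0, 1, 0, 0],
   [0, 1, 0, 0, 1, 1, 0, 1, 1, 0, 0, 0, 0, 1, 0, 0],
   [1, 0, 1, 0, 0, 1, 0, 1, 0, 1, 1, 1, 0, 1, 1, 1],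
   [0, 0, 0, 1, 0, 1, 1, 0, 1, 0, 1, 1, 1, 0, 0, 0],
   [0, 0, 0, 0, 0, 1, 1, 1, 1, 1, 1, 0, 1, 0, 1, 0],
   [0, 1, 0, 1, 0, 1, 0, 0, 1, 0, 1, 0, 0, 0, 1, 1],
   [1, 0, 1, 1, 0, 0, 1, 0, 0, 0, 1, 0, 0, 0, 0, 1]]

def hl : List (List ℤ) :=
  [[13240, 11710, -5160, -11300, 7300, -9090, -15640, -8470, 3770, 8760, -2680, -3900, -2870, 5210, 13560, -15660],
   [1048, -12823, -4570, 3058, -6386, -10747, -14120, 19395, 12689, 3412, -8598, 6446, 12979, 2535, -11976, 538],
   [-2776, -6324, -10880, -7836, -19808, 18824, 8340, 10580, -2568, 9456, -2324, -3072, 2212, 2400, 12172, -15956],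
   [-2524, 17739, -10790, -3534, 2038, 7191, -6680, 3685, -13057, -16936, 2874, 14462, -2527, 4925, -12372, -4334],
   [4864, -4429, 16570, -10906, -1898, 979, -4240, -15795, -17593, -10584, -8994, 14858, 10437, 11105, 2012, -1466],
   [7044, 12556, 7460, -3356, -7388, -12856, 8660, 9160, -7248, 10516, -1384, -12552, -22868, 5480, -7048, 3484],
   [-15044, -1856, 9460, -4664, 2768, -14484, 5600, 9760, 15008, -2216, -4316, 14072, 4108, -15320, 2828, -19744],
   [-5288, -2272, 8000, 8612, 12936, 7332, -12240, 2400, -7884, 4448, -25572, -4256, 10996, -13980, 11816, -9848],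
   [2164, -5144, -14060, -7556, 11252, 16844, 8360, -11140, 5792, 5196, -15244, 4988, -8008, -6060, -2008, 2564],
   [11472, -2192, -15680, -1928, 5656, -2188, 1840, 9140, -6144, -18132, 15788, -6056, 14996, -16900, -3224, 14872],
   [17192, -8112, 6140, 16612, -9384, 10092, -1780, -5080, 3536, -8492, 828, -11296, -4124, -8480, 2216, -14688],
   [-6128, -13262, 7700, -5728, 9336, -38, -8320, 2310, 4006, 128, 3248, -16556, -19354, 23750, 1336, 20632],
   [-2704, -1921, -5910, 8226, -8622, -6749, -5840, -8695, -8037, 11804, 13994, 6882, -16447, -4295, 15048, 12086],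
   [-9832, 12112, -13400, 10148, -8516, -1552, 13580, -4020, 14244, -12988, -9428, -9484, -3536, 920, 7204, 4728],
   [-14836, 8941, 4590, -15946, -7218, 2009, -4600, -5545, 4977, -3124, 15906, 8218, 21347, -9665, -19628, 11274],
   [-10088, -13157, 11230, 10722, 17086, -12533, 10160, -10475, -6689, 9428, 5618, -10266, 3201, 11265, -18404, 1162]]

def DZ : Fin 16 → Fin 16 → ℤ := fun i j => (dl.getD i []).getD j 0
def HZ : Fin 16 → Fin 16 → ℤ := fun i j => (hl.getD i []).getD j 0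

lemma DZ_mul : ∀ i j : Fin 16, ∑ k : Fin 16, DZ i k * HZ k j = if i = j then -69220 else 0 := by
  decide +kernel

lemma DZ_01 : ∀ i j : Fin 16, DZ i j = 0 ∨ DZ i j = 1 := by
  decide +kernel

lemma HZ_11 : HZ 1 1 = -12823 := by decide +kernel

def D : Matrix (Fin 16) (Fin 16) ℚ := Matrix.of fun i j => (DZ i j : ℚ)
def Dinv : Matrix (Fin 16) (Fin 16) ℚ := Matrix.of fun i j => (HZ i j : ℚ) / (-69220)

lemma D_mul : D * Dinv = 1 := by
  ext i j
  have h := congrArg (fun z : ℤ => (z : ℚ)) (DZ_mul i j)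
  simp only [Int.cast_sum, Int.cast_mul] at h
  simp only [Matrix.mul_apply, D, Dinv, Matrix.one_apply, Matrix.of_apply]
  have : ∑ k : Fin 16, (DZ i k : ℚ) * ((HZ k j : ℚ) / (-69220)) =
      (∑ k : Fin 16, (DZ i k : ℚ) * (HZ k j : ℚ)) / (-69220) := by
    rw [Finset.sum_div]
    exact Finset.sum_congr rfl fun k _ => by ring
  rw [this, h]
  split_ifs <;> norm_num

lemma D_01 (i j : Fin 16) : D i j = 0 ∨ D i j = 1 := by
  rcases DZ_01 i j with h | h <;> simp [D, h]

lemma Dinv_11 : Dinv 1 1 = 12823 / 69220 := by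
  simp only [Dinv, Matrix.of_apply, HZ_11]; norm_num

lemma det_D_ne : D.det ≠ 0 := by
  intro h
  have := congrArg Matrix.det D_mul
  rw [Matrix.det_mul, h] at this
  simp at this

/-- a matrix of size `m`, zero-one outside the column `c`, digits in the column `c`, whose
determinant is `a + b t` once `t` is put in the place `(r, c)` -/
def Good (m : ℕ) (a b : ℚ) : Prop :=
  ∃ (ι : Type) (_ : Fintype ι) (_ : DecidableEq ι) (N : Matrix ι ι ℚ) (r c : ι),
    Fintype.card ι = m ∧ (∀ i j, j ≠ c → N i j = 0 ∨ N i j = 1) ∧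
    (∀ i, ∃ s : ℕ, s ≤ 69220 ∧ N i c = s) ∧ N r c = 0 ∧
    ∀ t : ℚ, (N + Matrix.single r c t).det = a + b * t

lemma good_base : Good 1 0 1 := by
  refine ⟨Unit, inferInstance, inferInstance, 0, (), (), by simp, ?_, ?_, rfl, ?_⟩
  · intro i j h; exact absurd rfl h
  · intro i; exact ⟨0, by norm_num, by simp⟩
  · intro t; simp [Matrix.det_unique]

lemma good_step {m : ℕ} {a b : ℚ} (h : Good m a b) (t : ℕ) (ht : t ≤ 69220) :
    Good (m + 16) (D.det * (a + b * t)) (D.det * (b * (-12823 / 69220))) := by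
  obtain ⟨ι, _, _, N, r, c, hc, h01, hd, hrc, hdet⟩ := h
  refine ⟨ι ⊕ Fin 16, inferInstance, inferInstance,
    Matrix.fromBlocks (N + Matrix.single r c (t : ℚ)) (Matrix.single r 1 1) 0 D,
    Sum.inr 1, Sum.inl c, by simp [hc], ?_, ?_, by simp, ?_⟩
  · rintro (i | i) (j | j) hj
    · have hj' : j ≠ c := fun e => hj (by rw [e])
      have : Matrix.single r c (t : ℚ) i j = 0 := by
        rw [Matrix.single_apply]; simp [Ne.symm hj']
      simp only [Matrix.fromBlocks_apply₁₁, Matrix.add_apply, this, add_zero]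
      exact h01 i j hj'
    · simp only [Matrix.fromBlocks_apply₁₂, Matrix.single_apply]
      split_ifs <;> simp
    · simp
    · simp only [Matrix.fromBlocks_apply₂₂]; exact D_01 i j
  · rintro (i | i)
    · by_cases hi : i = r
      · subst hi
        exact ⟨t, ht, by simp [hrc]⟩
      · obtain ⟨s, hs, hs'⟩ := hd i
        refine ⟨s, hs, ?_⟩
        simp [hs', Ne.symm hi]
    · exact ⟨0, by norm_num, by simp⟩
  · intro t'
    have e : Matrix.fromBlocks (N + Matrix.single r c (t : ℚ)) (Matrix.single r (1 : Fin 16) (1 : ℚ)) 0 D +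
        Matrix.single (Sum.inr 1) (Sum.inl c) t' =
        Matrix.fromBlocks (N + Matrix.single r c (t : ℚ)) (Matrix.single r (1 : Fin 16) (1 : ℚ))
          (Matrix.single 1 c t') D := by
      ext (i | i) (j | j) <;> simp [Matrix.single_apply]
    let _ : Invertible D := invertibleOfRightInverse D Dinv D_mul
    have hinv : ⅟D = Dinv := rfl
    rw [e, Matrix.det_fromBlocks₂₂, hinv]
    have e2 : Matrix.single r (1 : Fin 16) (1 : ℚ) * Dinv * Matrix.single (1 : Fin 16) c t' =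
        Matrix.single r c (12823 / 69220 * t') := by
      rw [Matrix.single_mul_mul_single, Dinv_11]; simp
    have e3 : N + Matrix.single r c (t : ℚ) - Matrix.single r c (12823 / 69220 * t') =
        N + Matrix.single r c ((t : ℚ) - 12823 / 69220 * t') := by
      ext i j
      simp only [Matrix.sub_apply, Matrix.add_apply, Matrix.single_apply]
      split_ifs <;> ring
    rw [e2, e3, hdet]
    ring

/-- the set of the numbers `∑ P ^ (k - 1 - i) Q ^ i t i` -/
def U : ℕ → Finset ℤ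
  | 0 => {0}
  | k + 1 => ((U k) ×ˢ (Finset.range 69220)).image
      (fun p : ℤ × ℕ => 69220 * p.1 + (-12823) ^ k * (p.2 : ℤ))

lemma card_U (k : ℕ) : (U k).card = 69220 ^ k := by
  induction k with
  | zero => simp [U]
  | succ k ih =>
    rw [U, Finset.card_image_of_injOn, Finset.card_product, ih, Finset.card_range, pow_succ]
    rintro ⟨u, t⟩ h ⟨u', t'⟩ h' e
    simp only [Finset.coe_product, Set.mem_prod, Finset.mem_coe, Finset.mem_range] at h h'
    simp only at e
    have hcop : IsCoprime (69220 : ℤ) ((-12823) ^ k) := by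
      apply IsCoprime.pow_right
      rw [Int.isCoprime_iff_gcd_eq_one]
      decide +kernel
    have hdv : (69220 : ℤ) ∣ (-12823) ^ k * ((t : ℤ) - t') := ⟨u' - u, by linear_combination e⟩
    have h2 : (69220 : ℤ) ∣ ((t : ℤ) - t') := hcop.dvd_of_dvd_mul_left hdv
    have h3 : t = t' := by
      obtain ⟨z, hz⟩ := h2
      have := h.2
      have := h'.2
      omega
    subst h3
    have : u = u' := by linarith
    rw [this]

lemma good_U (k : ℕ) : ∀ u ∈ U k,
    Good (1 + 16 * k) ((D.det / 69220) ^ k * (69220 * u)) ((D.det / 69220) ^ k * (-12823) ^ k) := by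
  induction k with
  | zero =>
    intro u hu
    simp only [U, Finset.mem_singleton] at hu
    subst hu
    simpa using good_base
  | succ k ih =>
    intro u hu
    simp only [U, Finset.mem_image, Finset.mem_product, Finset.mem_range] at hu
    obtain ⟨⟨v, t⟩, ⟨hv, ht⟩, rfl⟩ := hu
    have := good_step (ih v hv) t ht.le
    have e1 : 1 + 16 * (k + 1) = 1 + 16 * k + 16 := by ring
    have e2 : (D.det / 69220) ^ (k + 1) * (69220 * (((69220 * v + (-12823) ^ k * (t : ℤ) : ℤ)) : ℚ)) =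
        D.det * ((D.det / 69220) ^ k * (69220 * (v : ℚ)) + (D.det / 69220) ^ k * (-12823) ^ k * (t : ℚ)) := by
      push_cast
      rw [pow_succ]
      generalize (D.det / 69220) ^ k = y
      ring
    have e3 : (D.det / 69220) ^ (k + 1) * (-12823) ^ (k + 1) =
        D.det * ((D.det / 69220) ^ k * (-12823) ^ k * (-12823 / 69220)) := by
      rw [pow_succ, pow_succ]
      generalize (D.det / 69220) ^ k = y
      ring
    rw [e1, e2, e3]
    exact this

/-- determinants of zero-one matrices of size `m` -/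
def Det01 (m : ℕ) (x : ℚ) : Prop :=
  ∃ (ι : Type) (_ : Fintype ι) (_ : DecidableEq ι) (N : Matrix ι ι ℚ),
    Fintype.card ι = m ∧ (∀ i j, N i j = 0 ∨ N i j = 1) ∧ N.det = x

lemma det01_of_good {m : ℕ} {a b : ℚ} (h : Good m a b) (L : ℕ) (hL : 69220 ≤ L) :
    Det01 (m + L) (-a) := by
  obtain ⟨ι, _, _, N, r, c, hc, h01, hd, hrc, hdet⟩ := h
  choose s hs hs' using hd
  refine ⟨ι ⊕ Fin L, inferInstance, inferInstance,
    Matrix.fromBlocks (N.updateCol c 0) (Matrix.of fun i l => if (l : ℕ) < s i then 1 else 0)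
      (Matrix.of fun _ j => if j = c then 1 else 0) 1, by simp [hc], ?_, ?_⟩
  · rintro (i | i) (j | j)
    · simp only [Matrix.fromBlocks_apply₁₁, Matrix.updateCol_apply]
      split_ifs with hj
      · simp
      · exact h01 i j hj
    · simp only [Matrix.fromBlocks_apply₁₂, Matrix.of_apply]; split_ifs <;> simp
    · simp only [Matrix.fromBlocks_apply₂₁, Matrix.of_apply]; split_ifs <;> simp
    · simp only [Matrix.fromBlocks_apply₂₂, Matrix.one_apply]; split_ifs <;> simp
  · rw [Matrix.det_fromBlocks_one₂₂]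
    have e : N.updateCol c 0 - (Matrix.of fun (i : ι) (l : Fin L) => if (l : ℕ) < s i then (1 : ℚ) else 0) *
        (Matrix.of fun (_ : Fin L) (j : ι) => if j = c then (1 : ℚ) else 0) =
        N.updateCol c ((-1 : ℚ) • fun i => N i c) := by
      ext i j
      simp only [Matrix.sub_apply, Matrix.updateCol_apply, Matrix.mul_apply, Matrix.of_apply]
      by_cases hj : j = c
      · simp only [hj, if_true, mul_one, Pi.zero_apply, Pi.smul_apply, smul_eq_mul, hs']
        rw [Fin.sum_univ_eq_sum_range (fun l => if l < s i then (1 : ℚ) else 0) L]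
        rw [Finset.sum_ite, Finset.sum_const_zero, Finset.sum_const]
        have : (Finset.range L).filter (fun l => l < s i) = Finset.range (s i) := by
          ext l
          have := hs i
          simp only [Finset.mem_filter, Finset.mem_range]
          omega
        rw [this]; simp
      · simp [hj]
    have h0 := hdet 0
    simp only [Matrix.single_zero, add_zero, mul_zero] at h0
    rw [e, Matrix.det_updateCol_smul, Matrix.updateCol_eq_self, h0]
    ring

lemma det01_id (m : ℕ) : Det01 m 1 :=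
  ⟨Fin m, inferInstance, inferInstance, 1, by simp, fun i j => by
    rw [Matrix.one_apply]; split_ifs <;> simp, by simp⟩

/-- from zero-one matrices to sign matrices -/
lemma sign_of_det01 {m : ℕ} {x : ℚ} (h : Det01 m x) :
    ∃ d : ℤ, (d : ℚ) = (-1) ^ m * x ∧ ∃ M : Matrix (Fin (m + 1)) (Fin (m + 1)) ℤ,
      (∀ i j, M i j = 1 ∨ M i j = -1) ∧ M.det = 2 ^ m * d := by
  obtain ⟨ι, _, _, N, hc, h01, hdet⟩ := h
  let NZ : Matrix ι ι ℤ := Matrix.of fun i j => if N i j = 0 then 0 else 1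
  have hN : NZ.map (Int.castRingHom ℚ) = N := by
    ext i j
    rcases h01 i j with h | h <;> simp [NZ, h]
  have hx : ((NZ.det : ℤ) : ℚ) = x := by
    rw [← hdet, ← hN]
    exact (Int.castRingHom ℚ).map_det NZ
  let M0 : Matrix (Unit ⊕ ι) (Unit ⊕ ι) ℤ :=
    Matrix.fromBlocks 1 (Matrix.of fun _ _ => 1) (Matrix.of fun _ _ => 1)
      (Matrix.of fun i j => 1 - 2 * NZ i j)
  have hM0 : M0.det = 2 ^ m * ((-1) ^ m * NZ.det) := by
    rw [Matrix.det_fromBlocks_one₁₁]
    have : (Matrix.of fun i j => 1 - 2 * NZ i j) -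
        (Matrix.of fun (_ : ι) (_ : Unit) => (1 : ℤ)) * (Matrix.of fun (_ : Unit) (_ : ι) => (1 : ℤ)) =
        (-2 : ℤ) • NZ := by
      ext i j
      simp [Matrix.mul_apply]
    rw [this, Matrix.det_smul, hc, neg_pow]
    ring
  have hcard : Fintype.card (Unit ⊕ ι) = m + 1 := by simp [hc, add_comm]
  let e := Fintype.equivFinOfCardEq hcard
  refine ⟨(-1) ^ m * NZ.det, by rw [Int.cast_mul, hx]; simp, Matrix.reindex e e M0, ?_, ?_⟩
  · intro i j
    simp only [Matrix.reindex_apply, Matrix.submatrix_apply]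
    generalize e.symm i = a
    generalize e.symm j = b
    rcases a with a | a <;> rcases b with b | b
    · simp [M0]
    · simp [M0]
    · simp [M0]
    · simp only [M0, Matrix.fromBlocks_apply₂₂, Matrix.of_apply, NZ]
      split_ifs <;> simp
  · rw [Matrix.det_reindex_self, hM0]

def S (n : ℕ) : Set ℤ := {d : ℤ | ∃ M : Matrix (Fin n) (Fin n) ℤ,
  (∀ i j, M i j = 1 ∨ M i j = -1) ∧ M.det = 2 ^ (n - 1) * d}

lemma S_finite (n : ℕ) : (S n).Finite := by
  have h1 : (Set.range (fun B : Fin n → Fin n → Bool =>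
      (Matrix.det (Matrix.of fun i j => if B i j then (1 : ℤ) else -1)) / 2 ^ (n - 1))).Finite :=
    Set.finite_range _
  refine h1.subset ?_
  rintro d ⟨M, hM, hd⟩
  refine ⟨fun i j => decide (M i j = 1), ?_⟩
  have : (Matrix.of fun i j => if (decide (M i j = 1)) then (1 : ℤ) else -1) = M := by
    ext i j
    rcases hM i j with h | h <;> simp [h]
  simp only [this, hd]
  rw [Int.mul_ediv_cancel_left _ (by positivity)]

lemma one_le_S (m : ℕ) : 1 ≤ (S (m + 1)).ncard := by
  obtain ⟨d, -, M, hM, hd⟩ := sign_of_det01 (det01_id m)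
  exact (Set.ncard_pos (S_finite _)).2 ⟨d, M, hM, by simpa using hd⟩

lemma pow_le_S (k L : ℕ) (hL : 69220 ≤ L) : 69220 ^ k ≤ (S (1 + 16 * k + L + 1)).ncard := by
  have h : ∀ u ∈ U k, ∃ d ∈ S (1 + 16 * k + L + 1),
      (d : ℚ) = (-1) ^ (1 + 16 * k + L) * -((D.det / 69220) ^ k * (69220 * u)) := by
    intro u hu
    obtain ⟨d, hd, M, hM, hM'⟩ := sign_of_det01 (det01_of_good (good_U k u hu) L hL)
    exact ⟨d, ⟨M, hM, by simpa using hM'⟩, hd⟩
  choose! f hf hf' using h
  rw [← card_U, ← Set.ncard_coe_finset]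
  refine Set.ncard_le_ncard_of_injOn f (fun u hu => hf u hu) ?_ (S_finite _)
  intro u hu v hv e
  have h1 := hf' u hu
  have h2 := hf' v hv
  rw [e, h2] at h1
  have h3 : ((-1 : ℚ)) ^ (1 + 16 * k + L) ≠ 0 := pow_ne_zero _ (by norm_num)
  have h4 : (D.det / 69220) ^ k ≠ 0 := pow_ne_zero _ (div_ne_zero det_D_ne (by norm_num))
  have h5 := mul_left_cancel₀ h4 (neg_injective (mul_left_cancel₀ h3 h1))
  have h6 : (v : ℚ) = u := by linarith
  exact_mod_cast h6.symm

lemma main_aux (K : ℕ) (hK : 69220 + 18 ≤ K) (n : ℕ) (hn : 1 ≤ n) : 2 ^ n ≤ 2 ^ K * (S n).ncard := by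
  by_cases h : n ≤ K
  · obtain ⟨m, rfl⟩ : ∃ m, n = m + 1 := ⟨n - 1, by omega⟩
    calc 2 ^ (m + 1) ≤ 2 ^ K := Nat.pow_le_pow_right (by norm_num) h
      _ ≤ 2 ^ K * (S (m + 1)).ncard := Nat.le_mul_of_pos_right _ (one_le_S m)
  · have e : n = 1 + 16 * ((n - 69222) / 16) + (69220 + (n - 69222) % 16) + 1 := by omega
    have h1 := pow_le_S ((n - 69222) / 16) (69220 + (n - 69222) % 16) (by omega)
    rw [← e] at h1
    generalize hk : (n - 69222) / 16 = k at h1
    have h2 : n ≤ K + 16 * k := by omega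
    calc 2 ^ n ≤ 2 ^ (K + 16 * k) := Nat.pow_le_pow_right (by norm_num) h2
      _ = 2 ^ K * (2 ^ 16) ^ k := by rw [pow_add, pow_mul]
      _ ≤ 2 ^ K * 69220 ^ k := Nat.mul_le_mul_left _ (Nat.pow_le_pow_left (by norm_num) k)
      _ ≤ 2 ^ K * (S n).ncard := Nat.mul_le_mul_left _ h1

theorem main : ∃ c : ℝ, 0 < c ∧ ∀ n : ℕ, 1 ≤ n → c * (2 : ℝ) ^ n ≤ ((S n).ncard : ℝ) := by
  obtain ⟨K, hK⟩ : ∃ K : ℕ, 69220 + 18 ≤ K := ⟨_, le_rfl⟩
  refine ⟨((2 : ℝ) ^ K)⁻¹, by positivity, fun n hn => ?_⟩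
  have h : ((2 ^ n : ℕ) : ℝ) ≤ ((2 ^ K * (S n).ncard : ℕ) : ℝ) := by
    exact_mod_cast main_aux K hK n hn
  push_cast at h
  rw [inv_mul_le_iff₀ (by positivity)]
  exact h

end Pool.Agent.H12Z.Dets
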