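import Mathlib

set_option autoImplicit false

/-!
# Lipschitz-free spaces and the commuting bounded approximation property
-/

namespace Pool.Agent.H12Z.Free

open Set Filter Topology
open scoped NNReal

section Free

variable {M : Type} [MetricSpace M] (o : M)

/-- The vector space of real Lipschitz functions on `M` vanishing at the base point `o`. -/
def lipSub : Submodule ℝ (M → ℝ) where
  carrier := {f | f o = 0 ∧ ∃ K : ℝ≥0, LipschitzWith K f}
  zero_mem' := ⟨rfl, 0, LipschitzWith.const 0⟩
  add_mem' := by
    rintro f g ⟨hf, K, hK⟩ ⟨hg, L, hL⟩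
    exact ⟨by simp [hf, hg], K + L, hK.add hL⟩
  smul_mem' := by
    rintro c f ⟨hf, K, hK⟩
    exact ⟨by simp [hf], ‖c‖₊ * K, (lipschitzWith_smul c).comp hK⟩

/-- The space of Lipschitz functions vanishing at `o`, as a type. -/
def Lip0 : Type := ↥(lipSub o)

instance : AddCommGroup (Lip0 o) := inferInstanceAs (AddCommGroup ↥(lipSub o))
instance : Module ℝ (Lip0 o) := inferInstanceAs (Module ℝ ↥(lipSub o))

variable {o}

/-- The function underlying an element of `Lip0 o`. -/
def Lip0.fn (f : Lip0 o) : M → ℝ := (show ↥(lipSub o) from f).1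

/-- The best Lipschitz constant `sup |f x - f y| / d(x, y)` (the terms with `x = y` are `0`). -/
noncomputable instance : Norm (Lip0 o) where
  norm f := ⨆ p : M × M, |f.fn p.1 - f.fn p.2| / dist p.1 p.2

theorem Lip0.fn_base (f : Lip0 o) : f.fn o = 0 := (show ↥(lipSub o) from f).2.1

theorem Lip0.bddAbove (f : Lip0 o) :
    BddAbove (range fun p : M × M => |f.fn p.1 - f.fn p.2| / dist p.1 p.2) := by
  obtain ⟨-, K, hK⟩ := (show ↥(lipSub o) from f).2
  refine ⟨K, ?_⟩
  rintro _ ⟨p, rfl⟩
  apply div_le_of_le_mul₀ dist_nonneg K.coe_nonneg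
  have := hK.dist_le_mul p.1 p.2
  rwa [Real.dist_eq] at this

theorem Lip0.le_norm_mul (f : Lip0 o) (x y : M) : |f.fn x - f.fn y| ≤ ‖f‖ * dist x y := by
  by_cases h : x = y
  · subst h
    simp
  · have h1 : |f.fn x - f.fn y| / dist x y ≤ ‖f‖ := le_ciSup f.bddAbove (x, y)
    rwa [div_le_iff₀ (dist_pos.2 h)] at h1

theorem Lip0.norm_le (f : Lip0 o) {C : ℝ} (hC : 0 ≤ C)
    (h : ∀ x y, |f.fn x - f.fn y| ≤ C * dist x y) : ‖f‖ ≤ C := by
  have : Nonempty (M × M) := ⟨(o, o)⟩
  apply ciSup_le
  intro p
  exact div_le_of_le_mul₀ dist_nonneg hC (h p.1 p.2)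

theorem Lip0.norm_nonneg' (f : Lip0 o) : 0 ≤ ‖f‖ := by
  have h1 : |f.fn o - f.fn o| / dist o o ≤ ‖f‖ := le_ciSup f.bddAbove (o, o)
  simpa using h1

theorem Lip0.core : NormedSpace.Core ℝ (Lip0 o) where
  norm_nonneg := Lip0.norm_nonneg'
  norm_smul c f := by
    have e : ∀ x, (c • f).fn x = c * f.fn x := fun _ => rfl
    apply le_antisymm
    · apply Lip0.norm_le _ (mul_nonneg (norm_nonneg _) f.norm_nonneg')
      intro x y
      rw [e, e, ← mul_sub, abs_mul, mul_assoc]
      exact mul_le_mul_of_nonneg_left (f.le_norm_mul x y) (abs_nonneg _)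
    · by_cases hc : c = 0
      · subst hc
        simp [Lip0.norm_nonneg']
      · have hc' : 0 < ‖c‖ := norm_pos_iff.2 hc
        rw [← le_div_iff₀' hc']
        apply Lip0.norm_le _ (div_nonneg (Lip0.norm_nonneg' _) hc'.le)
        intro x y
        have h := (c • f).le_norm_mul x y
        rw [e, e, ← mul_sub, abs_mul] at h
        rw [div_mul_eq_mul_div, le_div_iff₀' hc']
        exact h
  norm_triangle f g := by
    apply Lip0.norm_le _ (add_nonneg f.norm_nonneg' g.norm_nonneg')
    intro x y
    have e : ∀ x, (f + g).fn x = f.fn x + g.fn x := fun _ => rfl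
    rw [e, e, add_mul]
    have h3 : f.fn x + g.fn x - (f.fn y + g.fn y) = (f.fn x - f.fn y) + (g.fn x - g.fn y) := by ring
    rw [h3]
    exact (abs_add_le _ _).trans (add_le_add (f.le_norm_mul x y) (g.le_norm_mul x y))
  norm_eq_zero_iff f := by
    constructor
    · intro h
      apply Subtype.ext
      funext x
      have := f.le_norm_mul x o
      rw [h, zero_mul, Lip0.fn_base, sub_zero] at this
      exact abs_eq_zero.1 (le_antisymm this (abs_nonneg _))
    · rintro rfl
      apply le_antisymm _ (Lip0.norm_nonneg' _)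
      apply Lip0.norm_le _ le_rfl
      intro x y
      have e : ∀ x, (0 : Lip0 o).fn x = 0 := fun _ => rfl
      simp [e]

noncomputable instance : NormedAddCommGroup (Lip0 o) := NormedAddCommGroup.ofCore Lip0.core
noncomputable instance : NormedSpace ℝ (Lip0 o) := NormedSpace.ofCore Lip0.core

variable (o)

/-- The evaluation functional at `x`, an element of the dual of `Lip0 o`. -/
noncomputable def delta (x : M) : StrongDual ℝ (Lip0 o) :=
  LinearMap.mkContinuous
    { toFun := fun f => f.fn x
      map_add' := fun _ _ => rfl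
      map_smul' := fun _ _ => rfl } (dist x o) (by
      intro f
      have := f.le_norm_mul x o
      rw [Lip0.fn_base, sub_zero] at this
      rw [mul_comm]
      exact this)

end Free

/-- The commuting bounded approximation property. -/
def HasCBAP (X : Type) [NormedAddCommGroup X] [NormedSpace ℝ X] : Prop :=
  ∃ T : ℕ → X →L[ℝ] X,
    (∀ n, FiniteDimensional ℝ (LinearMap.range (T n : X →ₗ[ℝ] X))) ∧
    (∃ C : ℝ, ∀ n, ‖T n‖ ≤ C) ∧
    (∀ x, Tendsto (fun n => T n x) atTop (𝓝 x)) ∧
    ∀ n m, (T n).comp (T m) = (T m).comp (T n)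

/-- The norm-closed linear span of a set of vectors. -/
def closedSpan {Y : Type} [NormedAddCommGroup Y] [NormedSpace ℝ Y] (s : Set Y) : Submodule ℝ Y :=
  (Submodule.span ℝ s).topologicalClosure

/-- The closed linear span of `s`, with the induced norm, has the commuting bounded approximation
property. -/
def SpanHasCBAP {Y : Type} [NormedAddCommGroup Y] [NormedSpace ℝ Y] (s : Set Y) : Prop :=
  HasCBAP (closedSpan s)

/-- The same for a family of functionals on a normed space `Z`, in the dual space of `Z`. -/
def DualSpanHasCBAP {M Z : Type} [NormedAddCommGroup Z] [NormedSpace ℝ Z]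
    (δ : M → StrongDual ℝ Z) : Prop :=
  SpanHasCBAP (range δ)

/-- The Lipschitz-free space over the pointed metric space `(M, o)`, that is the norm-closed linear
span of the evaluation functionals in the dual of `Lip0 o`, has the commuting bounded approximation
property. -/
def FreeHasCBAP {M : Type} [MetricSpace M] (o : M) : Prop := DualSpanHasCBAP (delta o)

end Pool.Agent.H12Z.Free
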