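import Mathlib

set_option autoImplicit false

/-!
# One-dimensional Gaussian multiplicative chaos: definitions
-/

namespace Pool.Agent.H12Z.Gmc

open MeasureTheory ProbabilityTheory

/-- the kernel `g(x) = log⁺(1/|x|) + h(x)` -/
noncomputable def kernel (h : ℝ → ℝ) (x : ℝ) : ℝ := Real.posLog (|x|⁻¹) + h x

/-- a locally integrable even function that is positive-definite (tested against continuous
compactly supported functions) -/
def IsPosDef (g : ℝ → ℝ) : Prop :=
  LocallyIntegrable g ∧ (∀ x, g (-x) = g x) ∧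
    ∀ f : ℝ → ℝ, Continuous f → HasCompactSupport f → 0 ≤ ∫ x, ∫ y, g (x - y) * f x * f y

/-- a continuous, nonnegative, bounded, integrable function of integral one -/
def IsMollifier (θ : ℝ → ℝ) : Prop :=
  Continuous θ ∧ (∀ x, 0 ≤ θ x) ∧ (∃ C, ∀ x, θ x ≤ C) ∧ Integrable θ ∧ ∫ x, θ x = 1

/-- `θ_ε(z) = ε⁻¹ θ(z/ε)` -/
noncomputable def scaled (θ : ℝ → ℝ) (ε : ℝ) (z : ℝ) : ℝ := ε⁻¹ * θ (z / ε)

/-- convolution -/
noncomputable def conv (θ g : ℝ → ℝ) (z : ℝ) : ℝ := ∫ u, θ u * g (z - u)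

/-- `ω` is a jointly measurable stationary Gaussian process with covariance `K (x - y)` and mean
minus one half of the variance -/
def IsField {Ω : Type} [MeasurableSpace Ω] (K : ℝ → ℝ) (ω : ℝ → Ω → ℝ) (P : Measure Ω) : Prop :=
  IsGaussianProcess ω P ∧ Measurable (Function.uncurry ω) ∧
    (∀ x y, covariance (ω x) (ω y) P = K (x - y)) ∧
    ∀ x, ∫ w, ω x w ∂P = -(1 / 2) * variance (ω x) P

/-- the weighted total mass `∫_D φ(x) exp(ω(x)) dx` -/
noncomputable def mass {Ω : Type} (φ : ℝ → ℝ) (D : Set ℝ) (ω : ℝ → Ω → ℝ) (w : Ω) : ℝ :=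
  ∫ x in D, φ x * Real.exp (ω x w)

/-- the law `ν` is infinitely divisible: for every `n ≥ 1` it is the law of a sum of `n`
independent identically distributed real random variables -/
def InfDiv (ν : Measure ℝ) : Prop :=
  ∀ n : ℕ, 1 ≤ n → ∃ ρ : Measure ℝ, IsProbabilityMeasure ρ ∧
    (Measure.pi fun _ : Fin n => ρ).map (fun x => ∑ i, x i) = ν

end Pool.Agent.H12Z.Gmc
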