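import Pool.Agent.H12Z.GmcDefs

set_option autoImplicit false

/-!
# A moment inequality for infinitely divisible laws, and passage to the limit in law
-/

namespace Pool.Agent.H12Z.Gmc

open MeasureTheory ProbabilityTheory Filter Topology

lemma infDiv_ineq {ν : Measure ℝ} [IsProbabilityMeasure ν] (h : InfDiv ν)
    (hi : ∀ s : ℕ, s ≤ 4 → Integrable (fun y => Real.exp y ^ s) ν) :
    (∫ y, Real.exp y ^ 1 ∂ν) ^ 4 * (∫ y, Real.exp y ^ 3 ∂ν) ^ 4 ≤
      (∫ y, Real.exp y ^ 4 ∂ν) * (∫ y, Real.exp y ^ 2 ∂ν) ^ 6 := by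
  set m : ℕ → ℝ := fun s => ∫ y, Real.exp y ^ s ∂ν with hm
  have hpos : ∀ s ≤ 4, 0 < m s := by
    intro s hs
    rw [hm]
    simp only
    rw [integral_pos_iff_support_of_nonneg (fun y => by positivity) (hi s hs)]
    have : Function.support (fun y : ℝ => Real.exp y ^ s) = Set.univ := by
      ext y; simp [(Real.exp_pos y).ne']
    rw [this]; simp
  set l : ℕ → ℝ := fun s => Real.log (m s) with hl
  have key : ∀ n : ℕ, 1 ≤ n → 0 ≤ 1 - 4 * Real.exp (l 1 / n) + 6 * Real.exp (l 2 / n) -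
      4 * Real.exp (l 3 / n) + Real.exp (l 4 / n) := by
    intro n hn
    obtain ⟨ρ, hρ, hρν⟩ := h n hn
    have hn0 : (n : ℝ) ≠ 0 := by positivity
    have e1 : ∀ s, m s = (∫ y, Real.exp y ^ s ∂ρ) ^ n := by
      intro s
      rw [hm]
      simp only
      rw [← hρν, integral_map (by fun_prop) (by fun_prop)]
      have := integral_fintype_prod_eq_pow (ι := Fin n) (fun y : ℝ => Real.exp y ^ s) (μ := ρ)
      rw [Fintype.card_fin] at this
      rw [← this]
      congr 1
      funext x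
      rw [Real.exp_sum, Finset.prod_pow]
    have e0 : ∀ s, 0 ≤ ∫ y, Real.exp y ^ s ∂ρ := fun s => integral_nonneg fun y => by positivity
    have e2 : ∀ s ≤ 4, 0 < ∫ y, Real.exp y ^ s ∂ρ := by
      intro s hs
      rcases (e0 s).lt_or_eq with h1 | h1
      · exact h1
      · have := hpos s hs
        rw [e1 s, ← h1, zero_pow (by omega)] at this
        exact absurd this (lt_irrefl _)
    have e3 : ∀ s ≤ 4, Integrable (fun y => Real.exp y ^ s) ρ := fun s hs =>
      Integrable.of_integral_ne_zero (e2 s hs).ne'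
    have e4 : ∀ s ≤ 4, Real.exp (l s / n) = ∫ y, Real.exp y ^ s ∂ρ := by
      intro s hs
      rw [hl]
      simp only
      rw [e1 s, Real.log_pow, mul_div_cancel_left₀ _ hn0, Real.exp_log (e2 s hs)]
    rw [e4 1 (by norm_num), e4 2 (by norm_num), e4 3 (by norm_num), e4 4 (by norm_num)]
    have i1 := e3 1 (by norm_num)
    have i2 := e3 2 (by norm_num)
    have i3 := e3 3 (by norm_num)
    have i4 := e3 4 (by norm_num)
    have e5 : ∫ y, (1 - Real.exp y) ^ 4 ∂ρ = 1 - 4 * ∫ y, Real.exp y ^ 1 ∂ρ +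
        6 * ∫ y, Real.exp y ^ 2 ∂ρ - 4 * ∫ y, Real.exp y ^ 3 ∂ρ + ∫ y, Real.exp y ^ 4 ∂ρ := by
      have : (fun y => (1 - Real.exp y) ^ 4) = fun y => (((1 - 4 * Real.exp y ^ 1) +
          6 * Real.exp y ^ 2) - 4 * Real.exp y ^ 3) + Real.exp y ^ 4 := by
        funext y; ring
      rw [this, integral_add, integral_sub, integral_add, integral_sub, integral_const_mul,
        integral_const_mul, integral_const_mul]
      · simp
      · exact integrable_const _
      · exact i1.const_mul _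
      · exact (integrable_const _).sub (i1.const_mul _)
      · exact i2.const_mul _
      · exact ((integrable_const _).sub (i1.const_mul _)).add (i2.const_mul _)
      · exact i3.const_mul _
      · exact (((integrable_const _).sub (i1.const_mul _)).add (i2.const_mul _)).sub (i3.const_mul _)
      · exact i4
    rw [← e5]
    exact integral_nonneg fun y => by positivity
  have fin : 4 * l 1 + 4 * l 3 ≤ l 4 + 6 * l 2 := by
    by_contra hc
    push Not at hc
    set d := 4 * l 1 + 4 * l 3 - (l 4 + 6 * l 2) with hd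
    have hd0 : 0 < d := by linarith
    obtain ⟨n, hn⟩ := exists_nat_gt (max (max |l 2| |l 4|) (max 1 ((6 * l 2 ^ 2 + l 4 ^ 2) / d)))
    simp only [max_lt_iff] at hn
    obtain ⟨⟨h2, h4⟩, h1, h5⟩ := hn
    have hn0 : (0 : ℝ) < n := by linarith
    have k := key n (by exact_mod_cast h1.le)
    have a1 := Real.add_one_le_exp (l 1 / n)
    have a3 := Real.add_one_le_exp (l 3 / n)
    have a2 := (abs_le.1 (Real.abs_exp_sub_one_sub_id_le (x := l 2 / n) (by
      rw [abs_div, abs_of_pos hn0, div_le_one hn0]; exact h2.le))).2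
    have a4 := (abs_le.1 (Real.abs_exp_sub_one_sub_id_le (x := l 4 / n) (by
      rw [abs_div, abs_of_pos hn0, div_le_one hn0]; exact h4.le))).2
    have b : 0 ≤ -d / n + (6 * l 2 ^ 2 + l 4 ^ 2) / n ^ 2 := by
      have e : -d / n + (6 * l 2 ^ 2 + l 4 ^ 2) / n ^ 2 = -4 * (l 1 / n) - 4 * (l 3 / n) +
          6 * (l 2 / n + (l 2 / n) ^ 2) + (l 4 / n + (l 4 / n) ^ 2) := by
        rw [hd]; field_simp; ring
      rw [e]; linarith
    rw [div_lt_iff₀ hd0] at h5
    have e2 : -d / n + (6 * l 2 ^ 2 + l 4 ^ 2) / n ^ 2 = (-(n * d) + (6 * l 2 ^ 2 + l 4 ^ 2)) / n ^ 2 := by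
      field_simp
    rw [e2] at b
    have := (div_nonneg_iff.1 b)
    rcases this with ⟨h6, -⟩ | ⟨-, h6⟩
    · linarith
    · nlinarith
  have p1 := hpos 1 (by norm_num)
  have p2 := hpos 2 (by norm_num)
  have p3 := hpos 3 (by norm_num)
  have p4 := hpos 4 (by norm_num)
  show m 1 ^ 4 * m 3 ^ 4 ≤ m 4 * m 2 ^ 6
  rw [← Real.log_le_log_iff (by positivity) (by positivity), Real.log_mul (by positivity) (by positivity),
    Real.log_mul (by positivity) (by positivity), Real.log_pow, Real.log_pow, Real.log_pow]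
  simpa [hl] using fin

/-- truncated powers -/
noncomputable def trunc (R : ℝ) (k : ℕ) : BoundedContinuousFunction ℝ ℝ :=
  BoundedContinuousFunction.ofNormedAddCommGroup (fun x => (min |x| |R|) ^ k) (by fun_prop) (|R| ^ k)
    (fun x => by
      rw [Real.norm_eq_abs, abs_pow, abs_of_nonneg (le_min (abs_nonneg _) (abs_nonneg _))]
      exact pow_le_pow_left₀ (le_min (abs_nonneg _) (abs_nonneg _)) (min_le_right _ _) k)

lemma trunc_apply (R : ℝ) (k : ℕ) (x : ℝ) : trunc R k x = (min |x| |R|) ^ k := rfl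

section
variable {Ω : ℕ → Type} [∀ k, MeasurableSpace (Ω k)] {P : ∀ k, Measure (Ω k)}
  [∀ k, IsProbabilityMeasure (P k)] {X : ∀ k, Ω k → ℝ} {ν : Measure ℝ} [IsProbabilityMeasure ν]

lemma tendsto_trunc (h : TendstoInDistribution X atTop Real.exp P ν) (R : ℝ) (s : ℕ) :
    Tendsto (fun k => ∫ w, trunc R s (X k w) ∂P k) atTop (𝓝 (∫ y, trunc R s (Real.exp y) ∂ν)) := by
  have := ProbabilityMeasure.tendsto_iff_forall_integral_tendsto.1 h.tendsto (trunc R s)
  simp only [ProbabilityMeasure.coe_mk] at this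
  rw [integral_map h.aemeasurable_limit (trunc R s).continuous.aestronglyMeasurable] at this
  refine this.congr fun k => ?_
  rw [integral_map (h.forall_aemeasurable k) (trunc R s).continuous.aestronglyMeasurable]

lemma limit_upper (h : TendstoInDistribution X atTop Real.exp P ν) (hX : ∀ k w, 0 ≤ X k w) (s : ℕ)
    (U : ℝ) (hU : ∀ᶠ k in atTop, Integrable (fun w => X k w ^ s) (P k) ∧ ∫ w, X k w ^ s ∂P k ≤ U) :
    Integrable (fun y => Real.exp y ^ s) ν ∧ ∫ y, Real.exp y ^ s ∂ν ≤ U := by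
  have h1 : ∀ R : ℝ, ∫ y, trunc R s (Real.exp y) ∂ν ≤ U := by
    intro R
    refine le_of_tendsto (tendsto_trunc h R s) (hU.mono fun k hk => le_trans ?_ hk.2)
    refine integral_mono_of_nonneg (Eventually.of_forall fun w => ?_) hk.1
      (Eventually.of_forall fun w => ?_)
    · show 0 ≤ (min |X k w| |R|) ^ s
      positivity
    · show (min |X k w| |R|) ^ s ≤ X k w ^ s
      refine pow_le_pow_left₀ (by positivity) ((min_le_left _ _).trans ?_) s
      rw [abs_of_nonneg (hX k w)]
  have hint : ∀ R : ℝ, Integrable (fun y => trunc R s (Real.exp y)) ν := fun R =>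
    ((trunc R s).compContinuous ⟨Real.exp, Real.continuous_exp⟩).integrable ν
  have hmono : ∀ y, Monotone fun n : ℕ => trunc n s (Real.exp y) := by
    intro y n m hnm
    simp only [trunc_apply]
    refine pow_le_pow_left₀ (by positivity) (min_le_min_left _ ?_) s
    rw [Nat.abs_cast, Nat.abs_cast]; exact_mod_cast hnm
  have hlim : ∀ y, Tendsto (fun n : ℕ => trunc n s (Real.exp y)) atTop (𝓝 (Real.exp y ^ s)) := by
    intro y
    apply tendsto_const_nhds.congr'
    filter_upwards [tendsto_natCast_atTop_atTop.eventually_ge_atTop (Real.exp y)] with n hn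
    rw [trunc_apply, abs_of_pos (Real.exp_pos y), Nat.abs_cast, min_eq_left hn]
  have hU0 : 0 ≤ U := le_trans (integral_nonneg fun y => by
    show 0 ≤ (min |Real.exp y| |(0 : ℝ)|) ^ s
    positivity) (h1 0)
  have h2 : ∫⁻ y, ENNReal.ofReal (Real.exp y ^ s) ∂ν ≤ ENNReal.ofReal U := by
    have h3 := lintegral_tendsto_of_tendsto_of_monotone (μ := ν)
      (f := fun (n : ℕ) y => ENNReal.ofReal (trunc n s (Real.exp y)))
      (F := fun y => ENNReal.ofReal (Real.exp y ^ s))
      (fun n => (hint n).aemeasurable.ennreal_ofReal)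
      (Eventually.of_forall fun y n m hnm => ENNReal.ofReal_le_ofReal (hmono y hnm))
      (Eventually.of_forall fun y => ENNReal.tendsto_ofReal (hlim y))
    refine le_of_tendsto h3 (Eventually.of_forall fun n => ?_)
    show ∫⁻ y, ENNReal.ofReal (trunc n s (Real.exp y)) ∂ν ≤ _
    rw [← ofReal_integral_eq_lintegral_ofReal (hint n) (Eventually.of_forall fun y => by
      show 0 ≤ (min |Real.exp y| |(n : ℝ)|) ^ s
      positivity)]
    exact ENNReal.ofReal_le_ofReal (h1 n)
  have h4 : Integrable (fun y => Real.exp y ^ s) ν := by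
    refine ⟨by fun_prop, ?_⟩
    rw [hasFiniteIntegral_iff_ofReal (Eventually.of_forall fun y => by positivity)]
    exact h2.trans_lt ENNReal.ofReal_lt_top
  refine ⟨h4, ?_⟩
  rw [← ofReal_integral_eq_lintegral_ofReal h4 (Eventually.of_forall fun y => by positivity)] at h2
  exact (ENNReal.ofReal_le_ofReal_iff hU0).1 h2

lemma limit_lower (h : TendstoInDistribution X atTop Real.exp P ν) (hX : ∀ k w, 0 ≤ X k w) (s : ℕ)
    (hs : s ≤ 3) (U L : ℝ) (hi : Integrable (fun y => Real.exp y ^ s) ν)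
    (hU : ∀ᶠ k in atTop, Integrable (fun w => X k w ^ 4) (P k) ∧ ∫ w, X k w ^ 4 ∂P k ≤ U)
    (hL : ∀ᶠ k in atTop, L ≤ ∫ w, X k w ^ s ∂P k) :
    L ≤ ∫ y, Real.exp y ^ s ∂ν := by
  have h1 : ∀ R : ℝ, 1 ≤ R → L - U / R ≤ ∫ y, Real.exp y ^ s ∂ν := by
    intro R hR
    have hR0 : 0 < R := by linarith
    have h2 : L - U / R ≤ ∫ y, trunc R s (Real.exp y) ∂ν := by
      refine ge_of_tendsto (tendsto_trunc h R s) ((hU.and hL).mono fun k hk => ?_)
      obtain ⟨⟨i4, hk1⟩, hk2⟩ := hk
      have it : Integrable (fun w => trunc R s (X k w)) (P k) := by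
        refine Integrable.of_bound ((trunc R s).continuous.measurable.comp_aemeasurable
          (h.forall_aemeasurable k)).aestronglyMeasurable ‖trunc R s‖
          (Eventually.of_forall fun w => (trunc R s).norm_coe_le_norm _)
      have h3 : ∫ w, X k w ^ s ∂P k ≤ ∫ w, (trunc R s (X k w) + X k w ^ 4 / R) ∂P k := by
        refine integral_mono_of_nonneg (Eventually.of_forall fun w => pow_nonneg (hX k w) s)
          (it.add (i4.div_const R)) (Eventually.of_forall fun w => ?_)
        show X k w ^ s ≤ (min |X k w| |R|) ^ s + X k w ^ 4 / R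
        have x0 := hX k w
        rw [abs_of_nonneg x0, abs_of_pos hR0]
        rcases le_total (X k w) R with h5 | h5
        · rw [min_eq_left h5]
          have : 0 ≤ X k w ^ 4 / R := by positivity
          linarith
        · have h6 : X k w ^ s ≤ X k w ^ 3 := pow_le_pow_right₀ (hR.trans h5) hs
          have h7 : X k w ^ 3 ≤ X k w ^ 4 / R := by
            rw [le_div_iff₀ hR0, pow_succ _ 3]
            exact mul_le_mul_of_nonneg_left h5 (by positivity)
          have : 0 ≤ (min (X k w) R) ^ s := by positivity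
          linarith
      rw [integral_add it (i4.div_const R), integral_div] at h3
      have : (∫ w, X k w ^ 4 ∂P k) / R ≤ U / R := by gcongr
      linarith
    refine h2.trans (integral_mono_of_nonneg (Eventually.of_forall fun y => ?_) hi
      (Eventually.of_forall fun y => ?_))
    · show 0 ≤ (min |Real.exp y| |R|) ^ s
      positivity
    · show (min |Real.exp y| |R|) ^ s ≤ Real.exp y ^ s
      refine pow_le_pow_left₀ (by positivity) ((min_le_left _ _).trans ?_) s
      rw [abs_of_pos (Real.exp_pos y)]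
  have h3 : Tendsto (fun R : ℝ => L - U / R) atTop (𝓝 (L - 0)) :=
    tendsto_const_nhds.sub (tendsto_const_nhds.div_atTop tendsto_id)
  rw [sub_zero] at h3
  exact le_of_tendsto h3 ((eventually_ge_atTop 1).mono h1)

theorem not_infDiv (h : TendstoInDistribution X atTop Real.exp P ν) (hX : ∀ k w, 0 ≤ X k w)
    (U2 U4 L3 : ℝ) (hL3 : 0 ≤ L3) (hlt : U4 * U2 ^ 6 < L3 ^ 4)
    (h1 : ∀ᶠ k in atTop, 1 ≤ ∫ w, X k w ^ 1 ∂P k)
    (h2 : ∀ᶠ k in atTop, Integrable (fun w => X k w ^ 2) (P k) ∧ ∫ w, X k w ^ 2 ∂P k ≤ U2)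
    (h3 : ∀ᶠ k in atTop, L3 ≤ ∫ w, X k w ^ 3 ∂P k)
    (h4 : ∀ᶠ k in atTop, Integrable (fun w => X k w ^ 4) (P k) ∧ ∫ w, X k w ^ 4 ∂P k ≤ U4) :
    ¬ InfDiv ν := by
  intro hid
  obtain ⟨i4, b4⟩ := limit_upper h hX 4 U4 h4
  obtain ⟨-, b2⟩ := limit_upper h hX 2 U2 h2
  have hi : ∀ s : ℕ, s ≤ 4 → Integrable (fun y => Real.exp y ^ s) ν := by
    intro s hs
    refine ((integrable_const (1 : ℝ)).add i4).mono' (by fun_prop) (Eventually.of_forall fun y => ?_)
    have hy := Real.exp_pos y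
    rw [Real.norm_eq_abs, abs_of_pos (by positivity)]
    show _ ≤ 1 + Real.exp y ^ 4
    rcases le_total (Real.exp y) 1 with h5 | h5
    · have := pow_le_one₀ (n := s) hy.le h5
      have : 0 ≤ Real.exp y ^ 4 := by positivity
      linarith
    · have := pow_le_pow_right₀ h5 hs
      linarith
  have b1 := limit_lower h hX 1 (by norm_num) U4 1 (hi 1 (by norm_num)) h4 h1
  have b3 := limit_lower h hX 3 (by norm_num) U4 L3 (hi 3 (by norm_num)) h4 h3
  have key := infDiv_ineq hid hi
  have n2 : 0 ≤ ∫ y, Real.exp y ^ 2 ∂ν := integral_nonneg fun y => by positivity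
  have n4 : 0 ≤ ∫ y, Real.exp y ^ 4 ∂ν := integral_nonneg fun y => by positivity
  have a1 : (∫ y, Real.exp y ^ 4 ∂ν) * (∫ y, Real.exp y ^ 2 ∂ν) ^ 6 ≤ U4 * U2 ^ 6 :=
    mul_le_mul b4 (pow_le_pow_left₀ n2 b2 6) (by positivity) (n4.trans b4)
  have a2 : 1 ^ 4 * L3 ^ 4 ≤ (∫ y, Real.exp y ^ 1 ∂ν) ^ 4 * (∫ y, Real.exp y ^ 3 ∂ν) ^ 4 :=
    mul_le_mul (pow_le_pow_left₀ zero_le_one b1 4) (pow_le_pow_left₀ hL3 b3 4) (by positivity)
      (by positivity)
  linarith

end

end Pool.Agent.H12Z.Gmc
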