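import Pool.Agent.H12Z.GmcMom
import Pool.Agent.H12Z.GmcID

set_option autoImplicit false

/-!
# Moment bounds for the kernel `log⁺(1/|x|) + b cos x` on the unit interval
-/

namespace Pool.Agent.H12Z.Gmc

open MeasureTheory ProbabilityTheory Filter Set Topology

/-- Lebesgue measure on `(-1/2, 1/2)` -/
noncomputable def nu : Measure ℝ := volume.restrict (Metric.ball (0 : ℝ) (1 / 2))

instance : IsProbabilityMeasure nu := ⟨by
  unfold nu
  rw [Measure.restrict_apply_univ, Real.volume_ball]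
  norm_num⟩

lemma pair_int {R : ℝ → ℝ} (hR : Integrable R) (hm : Measurable R) (h0 : ∀ z, 0 ≤ R z) {n : ℕ}
    {i j : Fin n} (hij : i ≠ j) :
    Integrable (fun x : Fin n → ℝ => R (x i - x j)) (Measure.pi fun _ => nu) ∧
      ∫ x : Fin n → ℝ, R (x i - x j) ∂(Measure.pi fun _ => nu) ≤ ∫ z, R z := by
  have hmap : (Measure.pi fun _ : Fin n => nu).map (fun x => (x i, x j)) = nu.prod nu := by
    have h1 := ((iIndepFun_pi (μ := fun _ : Fin n => nu) (X := fun _ => id)
      (fun _ => aemeasurable_id)).indepFun hij).map_prod_eq_prod_map_map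
      (measurable_pi_apply i).aemeasurable (measurable_pi_apply j).aemeasurable
    refine h1.trans ?_
    congr 1
    · exact (measurePreserving_eval (fun _ : Fin n => nu) i).map_eq
    · exact (measurePreserving_eval (fun _ : Fin n => nu) j).map_eq
  have h1 := (integrable_const (1 : ℝ) (μ := nu)).convolution_integrand
    (ContinuousLinearMap.mul ℝ ℝ) hR
  simp only [ContinuousLinearMap.mul_apply', one_mul] at h1
  have h2 : nu.prod nu = (volume.prod nu).restrict (Metric.ball (0 : ℝ) (1 / 2) ×ˢ univ) := by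
    rw [← Measure.restrict_prod_eq_prod_univ]; rfl
  have hm2 : Measurable fun p : ℝ × ℝ => R (p.1 - p.2) := by fun_prop
  have h3 : Integrable (fun p : ℝ × ℝ => R (p.1 - p.2)) (nu.prod nu) := by
    rw [h2]; exact h1.integrableOn
  have h4 : ∫ p : ℝ × ℝ, R (p.1 - p.2) ∂(nu.prod nu) ≤ ∫ z, R z := by
    rw [h2]
    refine (setIntegral_le_integral h1 (Eventually.of_forall fun p => h0 _)).trans ?_
    rw [integral_prod_symm _ h1]
    simp only [integral_sub_right_eq_self]
    simp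
  rw [← hmap] at h3 h4
  have hf : AEMeasurable (fun x : Fin n → ℝ => (x i, x j)) (Measure.pi fun _ => nu) :=
    Measurable.aemeasurable (by fun_prop)
  rw [integral_map hf hm2.aestronglyMeasurable] at h4
  exact ⟨(integrable_map_measure hm2.aestronglyMeasurable hf).1 h3, h4⟩

lemma exp_sum_le {ι : Type} (s : Finset ι) (y R : ι → ℝ) {μ : ℝ} (hμ : 0 ≤ μ)
    (hs : μ * s.card ≤ 1) (h : ∀ p ∈ s, Real.exp (y p) ≤ 1 + R p) :
    Real.exp (μ * ∑ p ∈ s, y p) ≤ 1 + μ * ∑ p ∈ s, R p := by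
  set t := μ * ∑ p ∈ s, y p with ht
  have h1 : ∀ u, Real.exp t * (u - t + 1) ≤ Real.exp u := by
    intro u
    calc _ ≤ Real.exp t * Real.exp (u - t) :=
          mul_le_mul_of_nonneg_left (Real.add_one_le_exp _) (Real.exp_pos t).le
      _ = _ := by rw [← Real.exp_add]; ring_nf
  have h2 : ∑ p ∈ s, Real.exp t * (y p - t + 1) ≤ ∑ p ∈ s, (1 + R p) :=
    Finset.sum_le_sum fun p hp => (h1 _).trans (h p hp)
  rw [← Finset.mul_sum, Finset.sum_add_distrib, Finset.sum_sub_distrib, Finset.sum_add_distrib] at h2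
  simp only [Finset.sum_const, nsmul_eq_mul, mul_one] at h2
  have h3 := h1 0
  rw [Real.exp_zero] at h3
  have h4 := mul_le_mul_of_nonneg_left h2 hμ
  have h5 := mul_le_mul_of_nonneg_left h3 (sub_nonneg.2 hs)
  have e : μ * (Real.exp t * (∑ p ∈ s, y p - s.card * t + s.card)) +
      (1 - μ * s.card) * (Real.exp t * (0 - t + 1)) = Real.exp t := by
    have : μ * (Real.exp t * (∑ p ∈ s, y p - s.card * t + s.card)) =
        Real.exp t * (t - μ * s.card * t + μ * s.card) := by rw [ht]; ring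
    rw [this]; ring
  nlinarith

/-- the indicator that all coordinates lie in one of the intervals `(c k, c k + l)` -/
noncomputable def GG (c : ℕ → ℝ) (l : ℝ) (M n : ℕ) (x : Fin n → ℝ) : ℝ :=
  ∑ k ∈ Finset.range M, ∏ j, (Ioo (c k) (c k + l)).indicator (1 : ℝ → ℝ) (x j)

lemma GG_nonneg (c : ℕ → ℝ) (l : ℝ) (M n : ℕ) (x : Fin n → ℝ) : 0 ≤ GG c l M n x :=
  Finset.sum_nonneg fun _ _ => Finset.prod_nonneg fun _ _ => indicator_nonneg (fun _ _ => zero_le_one) _

lemma GG_int (c : ℕ → ℝ) (l : ℝ) (M n : ℕ) : Integrable (GG c l M n) (Measure.pi fun _ => nu) ∧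
    ∫ x, GG c l M n x ∂(Measure.pi fun _ => nu) =
      ∑ k ∈ Finset.range M, nu.real (Ioo (c k) (c k + l)) ^ n := by
  have hi : ∀ k, Integrable (fun x : Fin n → ℝ =>
      ∏ j, (Ioo (c k) (c k + l)).indicator (1 : ℝ → ℝ) (x j)) (Measure.pi fun _ => nu) := fun k =>
    Integrable.fintype_prod (f := fun _ => (Ioo (c k) (c k + l)).indicator (1 : ℝ → ℝ))
      fun _ => (integrable_const (1 : ℝ)).indicator measurableSet_Ioo
  refine ⟨integrable_finsetSum _ fun k _ => hi k, ?_⟩
  unfold GG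
  rw [integral_finsetSum _ fun k _ => hi k]
  refine Finset.sum_congr rfl fun k _ => ?_
  rw [integral_fintype_prod_eq_pow (ι := Fin n) ((Ioo (c k) (c k + l)).indicator (1 : ℝ → ℝ)),
    Fintype.card_fin, integral_indicator_one measurableSet_Ioo]

lemma ae_mem (n : ℕ) : ∀ᵐ x ∂(Measure.pi fun _ : Fin n => nu), ∀ j, |x j| < 1 / 2 := by
  rw [ae_all_iff]
  intro j
  have h : ∀ᵐ y ∂nu, |y| < 1 / 2 := by
    unfold nu
    filter_upwards [ae_restrict_mem measurableSet_ball] with y hy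
    simpa using hy
  exact (measurePreserving_eval (fun _ : Fin n => nu) j).quasiMeasurePreserving.ae h

section
variable {K L H R : ℝ → ℝ} {μ a γ : ℝ}

lemma FF_le (hK : ∀ z, K z = μ * L z + a * H z) (hμ : 0 ≤ μ) (ha : 0 ≤ a)
    (hLR : ∀ z, Real.exp (L z / 2) ≤ 1 + R z) (hR0 : ∀ z, 0 ≤ R z)
    (hH : ∀ z, |H z - Real.cos z| ≤ γ) {n : ℕ} [NeZero n] (s : ℕ)
    (hs : (Finset.univ : Finset (Fin n)).offDiag.card = s) (hμs : μ * s ≤ 1) {M : ℕ} (hM : 0 < M)
    (x : Fin n → ℝ) (hx : ∀ j, |x j| < 1 / 2) :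
    FF K n x ≤ Real.exp (a * (1 + γ) * s / 2) *
      (GG (fun k => -1 / 2 + (k - 1) / M) (3 / M) M n x + Real.exp (-a / (20 * M ^ 2)) +
        μ * ∑ p ∈ Finset.univ.offDiag, R (x p.1 - x p.2)) := by
  set S := (Finset.univ : Finset (Fin n)).offDiag with hS
  set E := Real.exp (a * (1 + γ) * s / 2) with hE
  have hM0 : (0 : ℝ) < M := by exact_mod_cast hM
  have e : FF K n x = Real.exp (μ * ∑ p ∈ S, L (x p.1 - x p.2) / 2) *
      Real.exp (a * (∑ p ∈ S, H (x p.1 - x p.2)) / 2) := by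
    rw [FF, ← Real.exp_add]
    congr 1
    simp only [hK, Finset.sum_add_distrib, ← Finset.mul_sum, ← Finset.sum_div]
    ring
  have h1 := exp_sum_le S (fun p => L (x p.1 - x p.2) / 2) (fun p => R (x p.1 - x p.2)) hμ
    (by rwa [hs]) fun p _ => hLR _
  have hH1 : ∀ z, H z ≤ 1 + γ := fun z => by
    have := (abs_le.1 (hH z)).2
    have := Real.cos_le_one z
    linarith
  have h2 : Real.exp (a * (∑ p ∈ S, H (x p.1 - x p.2)) / 2) ≤ E := by
    refine Real.exp_le_exp.2 ?_
    have := Finset.sum_le_card_nsmul S (fun p => H (x p.1 - x p.2)) (1 + γ) fun p _ => hH1 _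
    rw [hs, nsmul_eq_mul] at this
    have := mul_le_mul_of_nonneg_left this ha
    linarith
  have h3 : Real.exp (a * (∑ p ∈ S, H (x p.1 - x p.2)) / 2) ≤
      E * (GG (fun k => -1 / 2 + (k - 1) / M) (3 / M) M n x + Real.exp (-a / (20 * M ^ 2))) := by
    have g0 := GG_nonneg (fun k => -1 / 2 + (k - 1) / M) (3 / M) M n x
    have E0 : 0 < E := Real.exp_pos _
    by_cases hc : ∀ j, |x j - x 0| < 1 / M
    · have g1 : 1 ≤ GG (fun k => -1 / 2 + (k - 1) / M) (3 / M) M n x := by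
        have x0 := abs_lt.1 (hx 0)
        have hy : 0 ≤ (x 0 + 1 / 2) * M := mul_nonneg (by linarith) hM0.le
        set k := ⌊(x 0 + 1 / 2) * M⌋₊ with hk
        have k1 : (k : ℝ) ≤ (x 0 + 1 / 2) * M := Nat.floor_le hy
        have k2 : (x 0 + 1 / 2) * M < k + 1 := Nat.lt_floor_add_one _
        have k3 : k < M := by
          have : (k : ℝ) < M := by nlinarith
          exact_mod_cast this
        refine le_trans (le_of_eq ?_) (Finset.single_le_sum (f := fun k : ℕ => ∏ j,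
          (Ioo (-1 / 2 + ((k : ℝ) - 1) / M) (-1 / 2 + ((k : ℝ) - 1) / M + 3 / M)).indicator
            (1 : ℝ → ℝ) (x j)) (fun _ _ => Finset.prod_nonneg fun _ _ =>
              indicator_nonneg (fun _ _ => zero_le_one) _) (Finset.mem_range.2 k3))
        symm
        refine Finset.prod_eq_one fun j _ => indicator_of_mem ?_ _
        have c1 := abs_lt.1 (hc j)
        have k4 : (k : ℝ) / M ≤ x 0 + 1 / 2 := by rwa [div_le_iff₀ hM0]
        have k5 : x 0 + 1 / 2 < (k + 1) / M := by rwa [lt_div_iff₀ hM0]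
        have e1 : ((k : ℝ) - 1) / M = k / M - 1 / M := by ring
        have e2 : ((k : ℝ) + 1) / M = k / M + 1 / M := by ring
        have e3 : (3 : ℝ) / M = 3 * (1 / M) := by ring
        constructor <;> linarith
      have := Real.exp_pos (-a / (20 * M ^ 2))
      nlinarith
    · push Not at hc
      obtain ⟨j, hj⟩ := hc
      have hj0 : j ≠ 0 := by
        rintro rfl
        have : (0 : ℝ) < 1 / M := by positivity
        simp only [sub_self, abs_zero] at hj
        linarith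
      have hmem : (j, (0 : Fin n)) ∈ S := by simp [hS, hj0]
      have c1 : H (x j - x 0) ≤ 1 + γ - 1 / (10 * M ^ 2) := by
        have a1 := abs_lt.1 (hx j)
        have a2 := abs_lt.1 (hx 0)
        have a3 : |x j - x 0| ≤ Real.pi := by
          have := Real.pi_gt_three
          rw [abs_le]; constructor <;> linarith
        have a4 := Real.cos_le_one_sub_mul_cos_sq a3
        have a5 : (1 / M : ℝ) ^ 2 ≤ (x j - x 0) ^ 2 := by
          rw [← sq_abs (x j - x 0)]
          exact pow_le_pow_left₀ (by positivity) hj 2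
        have a6 : (1 / 10 : ℝ) ≤ 2 / Real.pi ^ 2 := by
          have := Real.pi_lt_four
          have := Real.pi_pos
          rw [div_le_div_iff₀ (by norm_num) (by positivity)]
          nlinarith
        have a7 : 1 / 10 * (1 / M : ℝ) ^ 2 ≤ 2 / Real.pi ^ 2 * (x j - x 0) ^ 2 :=
          mul_le_mul a6 a5 (by positivity) (by positivity)
        have a8 : 1 / 10 * (1 / M : ℝ) ^ 2 = 1 / (10 * M ^ 2) := by field_simp
        have := (abs_le.1 (hH (x j - x 0))).2
        linarith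
      have c2 : ∑ p ∈ S, H (x p.1 - x p.2) ≤ (1 + γ) * s - 1 / (10 * M ^ 2) := by
        rw [← Finset.add_sum_erase S _ hmem]
        have := Finset.sum_le_card_nsmul (S.erase (j, 0)) (fun p => H (x p.1 - x p.2)) (1 + γ)
          fun p _ => hH1 _
        have hcard : ((S.erase (j, 0)).card : ℝ) + 1 = s := by
          rw [← hs]; exact_mod_cast Finset.card_erase_add_one hmem
        rw [nsmul_eq_mul] at this
        rw [← hcard]
        simp only
        linarith
      have c3 : Real.exp (a * (∑ p ∈ S, H (x p.1 - x p.2)) / 2) ≤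
          E * Real.exp (-a / (20 * M ^ 2)) := by
        rw [hE, ← Real.exp_add]
        refine Real.exp_le_exp.2 ?_
        have := mul_le_mul_of_nonneg_left c2 ha
        have e1 : -a / (20 * M ^ 2) = -(a * (1 / (10 * M ^ 2))) / 2 := by field_simp; ring
        rw [e1]
        linarith
      nlinarith
  have h4 : 0 ≤ μ * ∑ p ∈ S, R (x p.1 - x p.2) :=
    mul_nonneg hμ (Finset.sum_nonneg fun _ _ => hR0 _)
  rw [e]
  have h5 := Real.exp_pos (a * (∑ p ∈ S, H (x p.1 - x p.2)) / 2)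
  calc _ ≤ (1 + μ * ∑ p ∈ S, R (x p.1 - x p.2)) *
        Real.exp (a * (∑ p ∈ S, H (x p.1 - x p.2)) / 2) := mul_le_mul_of_nonneg_right h1 h5.le
    _ ≤ _ := by nlinarith

lemma upper (hK : ∀ z, K z = μ * L z + a * H z) (hμ : 0 ≤ μ) (ha : 0 ≤ a)
    (hLR : ∀ z, Real.exp (L z / 2) ≤ 1 + R z) (hR0 : ∀ z, 0 ≤ R z)
    (hH : ∀ z, |H z - Real.cos z| ≤ γ) (hKm : Measurable K) (hRm : Measurable R)
    (hRi : Integrable R) {n : ℕ} [NeZero n] (s : ℕ)
    (hs : (Finset.univ : Finset (Fin n)).offDiag.card = s) (hμs : μ * s ≤ 1) {M : ℕ} (hM : 0 < M) :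
    Integrable (FF K n) (Measure.pi fun _ => nu) ∧
      ∫ x, FF K n x ∂(Measure.pi fun _ => nu) ≤ Real.exp (a * (1 + γ) * s / 2) *
        (M * (3 / M) ^ n + Real.exp (-a / (20 * M ^ 2)) + μ * (s * ∫ z, R z)) := by
  have hM0 : (0 : ℝ) < M := by exact_mod_cast hM
  obtain ⟨g1, g2⟩ := GG_int (fun k => -1 / 2 + (k - 1) / M) (3 / M) M n
  have hp : ∀ p ∈ (Finset.univ : Finset (Fin n)).offDiag, p.1 ≠ p.2 := fun p hp =>
    (Finset.mem_offDiag.1 hp).2.2
  have i1 : Integrable (fun x : Fin n → ℝ => ∑ p ∈ Finset.univ.offDiag, R (x p.1 - x p.2))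
      (Measure.pi fun _ => nu) :=
    integrable_finsetSum _ fun p h => (pair_int hRi hRm hR0 (hp p h)).1
  have i2 : Integrable (fun x : Fin n → ℝ => GG (fun k => -1 / 2 + (k - 1) / M) (3 / M) M n x +
      Real.exp (-a / (20 * M ^ 2))) (Measure.pi fun _ => nu) := g1.add (integrable_const _)
  have i3 := (i2.add (i1.const_mul μ)).const_mul (Real.exp (a * (1 + γ) * s / 2))
  have hb : ∀ᵐ x ∂(Measure.pi fun _ : Fin n => nu), FF K n x ≤ _ :=
    (ae_mem n).mono fun x hx => FF_le hK hμ ha hLR hR0 hH s hs hμs hM x hx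
  have hFm : Measurable (FF K n) := by unfold FF; fun_prop
  have iF : Integrable (FF K n) (Measure.pi fun _ => nu) := by
    refine i3.mono' hFm.aestronglyMeasurable (hb.mono fun x hx => ?_)
    have F0 : 0 < FF K n x := Real.exp_pos _
    rw [Real.norm_eq_abs, abs_of_pos F0]
    exact hx
  refine ⟨iF, (integral_mono_ae iF i3 hb).trans ?_⟩
  simp only [Pi.add_apply]
  rw [integral_const_mul, integral_add i2 (i1.const_mul μ), integral_add g1 (integrable_const _),
    integral_const_mul, integral_finsetSum _ fun p h => (pair_int hRi hRm hR0 (hp p h)).1, g2]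
  refine mul_le_mul_of_nonneg_left (add_le_add (add_le_add ?_ (by simp)) ?_) (Real.exp_pos _).le
  · have := Finset.sum_le_card_nsmul (Finset.range M) (fun k : ℕ => nu.real
      (Ioo (-1 / 2 + ((k : ℝ) - 1) / M) (-1 / 2 + ((k : ℝ) - 1) / M + 3 / M)) ^ n) ((3 / M) ^ n)
      fun k _ => by
        refine pow_le_pow_left₀ measureReal_nonneg ?_ n
        refine ENNReal.toReal_le_of_le_ofReal (by positivity) ?_
        refine (Measure.restrict_le_self _).trans ?_
        rw [Real.volume_Ioo, add_sub_cancel_left]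
    rwa [Finset.card_range, nsmul_eq_mul] at this
  · refine mul_le_mul_of_nonneg_left ?_ hμ
    have := Finset.sum_le_card_nsmul (Finset.univ : Finset (Fin n)).offDiag
      (fun p => ∫ x : Fin n → ℝ, R (x p.1 - x p.2) ∂(Measure.pi fun _ => nu)) (∫ z, R z)
      fun p h => (pair_int hRi hRm hR0 (hp p h)).2
    rwa [hs, nsmul_eq_mul] at this

lemma lower (hK : ∀ z, K z = μ * L z + a * H z) (hμ : 0 ≤ μ) (ha : 0 ≤ a) (hL : ∀ z, 0 ≤ L z)
    (hH : ∀ z, |H z - Real.cos z| ≤ γ) {n : ℕ} [NeZero n] (s : ℕ)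
    (hs : (Finset.univ : Finset (Fin n)).offDiag.card = s) {N : ℕ} (hN : 0 < N)
    (iF : Integrable (FF K n) (Measure.pi fun _ => nu)) :
    Real.exp (a * (1 - 1 / (2 * N ^ 2) - γ) * s / 2) * (N * (1 / N) ^ n) ≤
      ∫ x, FF K n x ∂(Measure.pi fun _ => nu) := by
  have hN0 : (0 : ℝ) < N := by exact_mod_cast hN
  obtain ⟨g1, g2⟩ := GG_int (fun k => -1 / 2 + k / N) (1 / N) N n
  have e : ∑ k ∈ Finset.range N, nu.real (Ioo (-1 / 2 + (k : ℝ) / N) (-1 / 2 + (k : ℝ) / N + 1 / N)) ^ n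
      = N * (1 / N) ^ n := by
    rw [Finset.sum_congr rfl (g := fun _ => (1 / N : ℝ) ^ n)]
    · simp
    · intro k hk
      congr 1
      have k1 : (k : ℝ) + 1 ≤ N := by exact_mod_cast Finset.mem_range.1 hk
      have k2 : (k : ℝ) / N + 1 / N ≤ 1 := by rw [← add_div, div_le_one hN0]; exact k1
      have k3 : 0 ≤ (k : ℝ) / N := by positivity
      unfold nu
      rw [Measure.real, Measure.restrict_eq_self, Real.volume_Ioo, add_sub_cancel_left,
        ENNReal.toReal_ofReal (by positivity)]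
      intro y hy
      simp only [Metric.mem_ball, dist_zero_right, Real.norm_eq_abs, abs_lt]
      constructor <;> linarith [hy.1, hy.2]
  rw [← e, ← g2, ← integral_const_mul]
  refine integral_mono (g1.const_mul _) iF fun x => ?_
  have F0 : 0 < FF K n x := Real.exp_pos _
  show _ * GG (fun k => -1 / 2 + k / N) (1 / N) N n x ≤ FF K n x
  by_cases hc : ∃ k ∈ Finset.range N, ∀ j, x j ∈ Ioo (-1 / 2 + (k : ℝ) / N) (-1 / 2 + (k : ℝ) / N + 1 / N)
  · obtain ⟨k, hk, hx⟩ := hc
    have g : GG (fun k => -1 / 2 + k / N) (1 / N) N n x = 1 := by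
      unfold GG
      rw [Finset.sum_eq_single_of_mem k hk]
      · exact Finset.prod_eq_one fun j _ => indicator_of_mem (hx j) _
      · intro k' _ hne
        refine Finset.prod_eq_zero (Finset.mem_univ 0) (indicator_of_notMem (fun h => hne ?_) _)
        have a1 := (hx 0).1
        have a2 := (hx 0).2
        have a3 := h.1
        have a4 := h.2
        have b1 : (k : ℝ) / N < (k' + 1) / N := by rw [add_div]; linarith
        have b2 : (k' : ℝ) / N < (k + 1) / N := by rw [add_div]; linarith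
        rw [div_lt_div_iff_of_pos_right hN0] at b1 b2
        have c1 : k < k' + 1 := by exact_mod_cast b1
        have c2 : k' < k + 1 := by exact_mod_cast b2
        omega
    rw [g, mul_one, FF]
    refine Real.exp_le_exp.2 ?_
    have := Finset.card_nsmul_le_sum (Finset.univ : Finset (Fin n)).offDiag
      (fun p => K (x p.1 - x p.2)) (a * (1 - 1 / (2 * N ^ 2) - γ)) fun p _ => by
        have a1 := hx p.1
        have a2 := hx p.2
        have a3 : |x p.1 - x p.2| ≤ 1 / N := by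
          rw [abs_le]; constructor <;> linarith [a1.1, a1.2, a2.1, a2.2]
        have a4 : (x p.1 - x p.2) ^ 2 ≤ (1 / N) ^ 2 := by
          rw [← sq_abs]; exact pow_le_pow_left₀ (abs_nonneg _) a3 2
        have a5 := Real.one_sub_sq_div_two_le_cos (x := x p.1 - x p.2)
        have a6 := (abs_le.1 (hH (x p.1 - x p.2))).1
        have a7 : (1 / N : ℝ) ^ 2 / 2 = 1 / (2 * N ^ 2) := by field_simp
        have a8 : 1 - 1 / (2 * N ^ 2) - γ ≤ H (x p.1 - x p.2) := by linarith
        have a9 := mul_nonneg hμ (hL (x p.1 - x p.2))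
        have := mul_le_mul_of_nonneg_left a8 ha
        rw [hK]
        linarith
    rw [hs, nsmul_eq_mul] at this
    linarith
  · have g : GG (fun k => -1 / 2 + k / N) (1 / N) N n x = 0 := by
      refine Finset.sum_eq_zero fun k hk => ?_
      push Not at hc
      obtain ⟨j, hj⟩ := hc k hk
      exact Finset.prod_eq_zero (Finset.mem_univ j) (indicator_of_notMem hj _)
    rw [g, mul_zero]
    exact F0.le

end

lemma numeric {a M N γ : ℝ} (hM : M = 10 ^ 28) (hN : N = 10 ^ 30) (ha : a = N ^ 2)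
    (hγ : γ = 1 / (24 * a)) :
    Real.exp (a * (1 + γ) * (12 : ℕ) / 2) * (83 / M ^ 3) *
      (Real.exp (a * (1 + γ) * (2 : ℕ) / 2) * (11 / M)) ^ 6 <
      (Real.exp (a * (1 - 1 / (2 * N ^ 2) - γ) * (6 : ℕ) / 2) * (N * (1 / N) ^ 3)) ^ 4 := by
  have hN0 : 0 < N := by rw [hN]; positivity
  have ha0 : 0 < a := by rw [ha]; positivity
  have e1 : a * γ = 1 / 24 := by rw [hγ]; field_simp
  have e2 : a * (1 / (2 * N ^ 2)) = 1 / 2 := by rw [ha]; field_simp
  rw [mul_pow, mul_pow, ← Real.exp_nat_mul, ← Real.exp_nat_mul]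
  have e3 : Real.exp (a * (1 + γ) * (12 : ℕ) / 2) * (83 / M ^ 3) *
      (Real.exp ((6 : ℕ) * (a * (1 + γ) * (2 : ℕ) / 2)) * (11 / M) ^ 6) =
      Real.exp ((4 : ℕ) * (a * (1 - 1 / (2 * N ^ 2) - γ) * (6 : ℕ) / 2)) *
        (Real.exp 1 ^ 7 * ((83 / M ^ 3) * (11 / M) ^ 6)) := by
    rw [← Real.exp_nat_mul, mul_mul_mul_comm, ← Real.exp_add, ← mul_assoc (Real.exp _) (Real.exp _),
      ← Real.exp_add]
    congr 2
    push_cast
    linear_combination 24 * e1 + 12 * e2
  rw [e3]
  refine mul_lt_mul_of_pos_left ?_ (Real.exp_pos _)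
  have h3 : Real.exp 1 ^ 7 ≤ 3 ^ 7 :=
    pow_le_pow_left₀ (Real.exp_pos 1).le (Real.exp_one_lt_d9.le.trans (by norm_num)) 7
  refine (mul_le_mul_of_nonneg_right h3 (by rw [hM]; positivity)).trans_lt ?_
  rw [hM, hN]
  norm_num

theorem main : ∃ b μ : ℝ, 0 ≤ b ∧ 0 < μ ∧ μ < 2 ∧
    ∀ θ : ℝ → ℝ, IsMollifier θ → ∀ ε : ℕ → ℝ, (∀ k, 0 < ε k) → Tendsto ε atTop (𝓝 0) →
    ∀ (Ω : ℕ → Type) [∀ k, MeasurableSpace (Ω k)] (P : ∀ k, Measure (Ω k))
      [∀ k, IsProbabilityMeasure (P k)] (ω : ∀ k, ℝ → Ω k → ℝ),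
      (∀ k, IsField (fun z => μ * conv (scaled θ (ε k)) (kernel fun x => b * Real.cos x) z)
        (ω k) (P k)) →
    ∀ (ν : Measure ℝ) [IsProbabilityMeasure ν],
      TendstoInDistribution (fun k => mass (fun _ => 1) (Metric.ball 0 (1 / 2)) (ω k)) atTop
        Real.exp P ν → ¬ InfDiv ν := by
  obtain ⟨M, hM⟩ : ∃ M : ℕ, (M : ℝ) = 10 ^ 28 := ⟨10 ^ 28, by norm_num⟩
  obtain ⟨N, hN⟩ : ∃ N : ℕ, (N : ℝ) = 10 ^ 30 := ⟨10 ^ 30, by norm_num⟩
  have hM1 : (1 : ℝ) ≤ M := by rw [hM]; norm_num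
  have hM0 : 0 < M := by exact_mod_cast (lt_of_lt_of_le one_pos hM1)
  have hN0 : 0 < N := by
    have : (0 : ℝ) < N := by rw [hN]; positivity
    exact_mod_cast this
  set a : ℝ := (N : ℝ) ^ 2 with ha
  have ha0 : 0 < a := by positivity
  set γ : ℝ := 1 / (24 * a) with hγ
  set ρ : ℝ := ∫ z, rr z with hρ
  have hρ0 : 0 ≤ ρ := integral_nonneg rr_nonneg
  set μ : ℝ := 1 / (12 * (ρ + 1) * M ^ 3) with hμ
  have hμ0 : 0 < μ := by positivity
  have hM3 : (1 : ℝ) ≤ M ^ 3 := one_le_pow₀ hM1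
  have hM4 : (1 : ℝ) / M ^ 3 ≤ 1 / M :=
    one_div_le_one_div_of_le (by positivity) (le_self_pow₀ hM1 (by norm_num))
  have hμ1 : μ * 12 * (ρ + 1) = 1 / M ^ 3 := by rw [hμ]; field_simp
  have hμ2 : μ * 12 ≤ 1 := by
    have : (1 : ℝ) / M ^ 3 ≤ 1 := by rw [div_le_one (by positivity)]; exact hM3
    nlinarith
  have hβ : Real.exp (-a / (20 * M ^ 2)) ≤ 1 / M ^ 3 := by
    have e : -a / (20 * M ^ 2) = -((500 : ℕ) * 1) := by rw [ha, hM, hN]; norm_num
    rw [e, Real.exp_neg, Real.exp_nat_mul, one_div]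
    refine inv_anti₀ (by positivity) ?_
    have h2 : (2 : ℝ) ^ 500 ≤ Real.exp 1 ^ 500 :=
      pow_le_pow_left₀ (by norm_num) (le_trans (by norm_num) Real.exp_one_gt_d9.le) 500
    refine le_trans ?_ h2
    rw [hM, show (2 : ℝ) ^ 500 = 2 ^ 250 * 2 ^ 250 by rw [← pow_add]]
    norm_num
  refine ⟨a / μ, μ, by positivity, hμ0, by linarith, ?_⟩
  intro θ hθ ε hε hε0 Ω _ P _ ω hω ν _ hν
  have hev : ∀ᶠ k in atTop, gam (scaled θ (ε k)) ≤ γ :=
    (hθ.tendsto_gam hε hε0).eventually (ge_mem_nhds (by positivity))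
  have hmass : ∀ k w, mass (fun _ => 1) (Metric.ball 0 (1 / 2)) (ω k) w =
      ∫ x, Real.exp (ω k x w) ∂nu := by
    intro k w
    simp only [mass, one_mul, nu]
  have key : ∀ k, gam (scaled θ (ε k)) ≤ γ →
      (1 ≤ ∫ w, (∫ x, Real.exp (ω k x w) ∂nu) ^ 1 ∂P k) ∧
      (Integrable (fun w => (∫ x, Real.exp (ω k x w) ∂nu) ^ 2) (P k) ∧
        ∫ w, (∫ x, Real.exp (ω k x w) ∂nu) ^ 2 ∂P k ≤
          Real.exp (a * (1 + γ) * (2 : ℕ) / 2) * (11 / M)) ∧
      (Real.exp (a * (1 - 1 / (2 * N ^ 2) - γ) * (6 : ℕ) / 2) * (N * (1 / N) ^ 3) ≤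
        ∫ w, (∫ x, Real.exp (ω k x w) ∂nu) ^ 3 ∂P k) ∧
      (Integrable (fun w => (∫ x, Real.exp (ω k x w) ∂nu) ^ 4) (P k) ∧
        ∫ w, (∫ x, Real.exp (ω k x w) ∂nu) ^ 4 ∂P k ≤
          Real.exp (a * (1 + γ) * (12 : ℕ) / 2) * (83 / M ^ 3)) := by
    intro k hk
    have hs := hθ.scaled (hε k)
    set K : ℝ → ℝ := fun z => μ * conv (scaled θ (ε k)) (kernel fun x => a / μ * Real.cos x) z
      with hKdef
    have hK : ∀ z, K z = μ * conv (scaled θ (ε k)) ell z +
        a * conv (scaled θ (ε k)) Real.cos z := by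
      intro z
      simp only [hKdef]
      rw [hs.conv_kernel]
      field_simp
    have hH : ∀ z, |conv (scaled θ (ε k)) Real.cos z - Real.cos z| ≤ γ := fun z =>
      (hs.cos_err z).trans hk
    have hKm : Measurable K := by
      have : K = fun z => μ * conv (scaled θ (ε k)) ell z +
        a * conv (scaled θ (ε k)) Real.cos z := funext hK
      rw [this]
      exact ((hs.measurable_conv measurable_ell).const_mul _).add
        ((hs.measurable_conv Real.measurable_cos).const_mul _)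
    obtain ⟨r1, r2⟩ := hs.integrable_conv integrable_rr
    have up := fun (n : ℕ) [NeZero n] (s : ℕ) h1 h2 => upper (n := n) hK hμ0.le ha0.le hs.exp_conv
      (hs.conv_nonneg rr_nonneg) hH hKm (hs.measurable_conv measurable_rr) r1 s h1 h2 hM0
    rw [r2, ← hρ] at up
    obtain ⟨i2, u2⟩ := up 2 2 (by decide) (by push_cast; linarith)
    obtain ⟨i3, -⟩ := up 3 6 (by decide) (by push_cast; linarith)
    obtain ⟨i4, u4⟩ := up 4 12 (by decide) (by push_cast; linarith)
    have f1 : FF K 1 = fun _ => 1 := by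
      funext x
      have : (Finset.univ : Finset (Fin 1)).offDiag = ∅ := by decide
      rw [FF, this]
      simp
    have m1 := moment (hω k) nu 1 (by rw [f1]; exact integrable_const _)
    have m2 := moment (hω k) nu 2 i2
    have m3 := moment (hω k) nu 3 i3
    have m4 := moment (hω k) nu 4 i4
    have hM0' : (0 : ℝ) < M := by positivity
    refine ⟨?_, ⟨m2.1, ?_⟩, ?_, m4.1, ?_⟩
    · rw [m1.2, f1]; simp
    · rw [m2.2]
      refine u2.trans (mul_le_mul_of_nonneg_left ?_ (Real.exp_pos _).le)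
      have e1 : (M : ℝ) * (3 / M) ^ 2 = 9 * (1 / M) := by field_simp; norm_num
      have e2 : (11 : ℝ) / M = 11 * (1 / M) := by ring
      have := mul_nonneg hμ0.le hρ0
      rw [e1, e2]
      push_cast
      nlinarith
    · rw [m3.2]
      exact lower hK hμ0.le ha0.le (hs.conv_nonneg ell_nonneg) hH 6 (by decide) hN0 i3
    · rw [m4.2]
      refine u4.trans (mul_le_mul_of_nonneg_left ?_ (Real.exp_pos _).le)
      have e1 : (M : ℝ) * (3 / M) ^ 4 = 81 * (1 / M ^ 3) := by field_simp; norm_num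
      have e2 : (83 : ℝ) / M ^ 3 = 83 * (1 / M ^ 3) := by ring
      rw [e1, e2]
      push_cast
      nlinarith
  refine not_infDiv hν (fun k w => ?_) _ _ _ (by positivity) (numeric hM hN ha hγ) ?_ ?_ ?_ ?_
  · rw [hmass]; exact integral_nonneg fun x => (Real.exp_pos _).le
  · simp only [hmass]; exact hev.mono fun k hk => (key k hk).1
  · simp only [hmass]; exact hev.mono fun k hk => (key k hk).2.1
  · simp only [hmass]; exact hev.mono fun k hk => (key k hk).2.2.1
  · simp only [hmass]; exact hev.mono fun k hk => (key k hk).2.2.2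

end Pool.Agent.H12Z.Gmc
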