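import Pool.Agent.H12Z.GmcPD

set_option autoImplicit false

/-!
# Integer moments of the regularized mass, and properties of the regularized kernel
-/

namespace Pool.Agent.H12Z.Gmc

open MeasureTheory ProbabilityTheory Filter Set Topology

/-- the integrand of the moment formula -/
noncomputable def FF (K : ℝ → ℝ) (n : ℕ) (x : Fin n → ℝ) : ℝ :=
  Real.exp ((∑ p ∈ Finset.univ.offDiag, K (x p.1 - x p.2)) / 2)

section
variable {Ω : Type} [MeasurableSpace Ω] {K : ℝ → ℝ} {ω : ℝ → Ω → ℝ} {P : Measure Ω}

lemma exp_field (hF : IsField K ω P) {n : ℕ} (x : Fin n → ℝ) :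
    Integrable (fun w => ∏ i, Real.exp (ω (x i) w)) P ∧
      ∫ w, ∏ i, Real.exp (ω (x i) w) ∂P = FF K n x := by
  obtain ⟨hG, -, hcov, hmean⟩ := hF
  have := hG.isProbabilityMeasure
  have hS : HasGaussianLaw (fun w => ∑ i, ω (x i) w) P :=
    (hG.comp_right x).hasGaussianLaw_fun_sum (I := Finset.univ)
  have hL : ∀ i, MemLp (ω (x i)) 2 P := fun i => (hG.hasGaussianLaw_eval (x i)).memLp_two
  have hmap := hS.map_eq_gaussianReal
  have e : (fun w => ∏ i, Real.exp (ω (x i) w)) = fun w => Real.exp (1 * ∑ i, ω (x i) w) := by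
    funext w; rw [one_mul, Real.exp_sum]
  rw [e]
  constructor
  · have h1 := integrable_exp_mul_gaussianReal (μ := P[fun w => ∑ i, ω (x i) w])
      (v := (variance (fun w => ∑ i, ω (x i) w) P).toNNReal) 1
    rw [← hmap] at h1
    exact (integrable_map_measure (by fun_prop) hS.aemeasurable).1 h1
  · have h1 := mgf_gaussianReal hmap 1
    rw [mgf] at h1
    rw [h1, FF]
    congr 1
    rw [Real.coe_toNNReal _ (variance_nonneg _ _), variance_fun_sum hL,
      integral_finsetSum _ fun i _ => (hL i).integrable (by norm_num)]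
    have h2 : ∀ i, ∫ w, ω (x i) w ∂P = -(1 / 2) * K (x i - x i) := by
      intro i
      rw [hmean, ← covariance_self (hL i).aemeasurable, hcov]
    simp only [h2, hcov]
    rw [← Finset.sum_product', ← Finset.diag_union_offDiag,
      Finset.sum_union (Finset.disjoint_diag_offDiag _), Finset.sum_diag, ← Finset.mul_sum]
    ring

lemma moment (hF : IsField K ω P) (ν : Measure ℝ) [SigmaFinite ν] (n : ℕ)
    (hI : Integrable (FF K n) (Measure.pi fun _ => ν)) :
    Integrable (fun w => (∫ x, Real.exp (ω x w) ∂ν) ^ n) P ∧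
      ∫ w, (∫ x, Real.exp (ω x w) ∂ν) ^ n ∂P = ∫ x, FF K n x ∂(Measure.pi fun _ => ν) := by
  have := hF.1.isProbabilityMeasure
  have hm : Measurable (Function.uncurry fun (w : Ω) (x : Fin n → ℝ) =>
      ∏ i, Real.exp (ω (x i) w)) := by
    refine Finset.measurable_prod _ fun i _ => Real.measurable_exp.comp ?_
    exact hF.2.1.comp (f := fun q : Ω × (Fin n → ℝ) => (q.2 i, q.1)) (by fun_prop)
  have hint : Integrable (Function.uncurry fun (w : Ω) (x : Fin n → ℝ) =>
      ∏ i, Real.exp (ω (x i) w)) (P.prod (Measure.pi fun _ => ν)) := by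
    rw [integrable_prod_iff' hm.aestronglyMeasurable]
    refine ⟨Eventually.of_forall fun x => (exp_field hF x).1, hI.congr
      (Eventually.of_forall fun x => ?_)⟩
    rw [← (exp_field hF x).2]
    refine integral_congr_ae (Eventually.of_forall fun w => ?_)
    simp only [Function.uncurry]
    rw [Real.norm_eq_abs, abs_of_nonneg (by positivity)]
  have e : ∀ w, (∫ x, Real.exp (ω x w) ∂ν) ^ n =
      ∫ x : Fin n → ℝ, ∏ i, Real.exp (ω (x i) w) ∂(Measure.pi fun _ => ν) := by
    intro w
    have := integral_fintype_prod_eq_pow (ι := Fin n) (fun y : ℝ => Real.exp (ω y w)) (μ := ν)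
    rw [Fintype.card_fin] at this
    exact this.symm
  simp only [e]
  refine ⟨hint.integral_prod_left, ?_⟩
  rw [integral_integral_swap hint]
  exact integral_congr_ae (Eventually.of_forall fun x => (exp_field hF x).2)

end

section
variable {θ : ℝ → ℝ}

lemma IsMollifier.scaled (h : IsMollifier θ) {ε : ℝ} (hε : 0 < ε) : IsMollifier (scaled θ ε) := by
  obtain ⟨h1, h2, ⟨C, h3⟩, h4, h5⟩ := h
  unfold Gmc.scaled
  refine ⟨by fun_prop, fun x => mul_nonneg (by positivity) (h2 _), ⟨ε⁻¹ * C, fun x =>
    mul_le_mul_of_nonneg_left (h3 _) (by positivity)⟩, (h4.comp_div hε.ne').const_mul _, ?_⟩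
  rw [integral_const_mul, Measure.integral_comp_div, h5, abs_of_pos hε]
  simp [hε.ne']

lemma IsMollifier.int_conv (h : IsMollifier θ) {g : ℝ → ℝ} (hg : Integrable g) (z : ℝ) :
    Integrable fun u => θ u * g (z - u) := by
  obtain ⟨h1, h2, ⟨C, h3⟩, h4, h5⟩ := h
  exact (hg.comp_sub_left z).bdd_mul (c := C) h1.aestronglyMeasurable
    (Eventually.of_forall fun u => by rw [Real.norm_eq_abs, abs_of_nonneg (h2 u)]; exact h3 u)

lemma IsMollifier.int_cos (h : IsMollifier θ) (z : ℝ) :
    Integrable fun u => θ u * Real.cos (z - u) :=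
  h.2.2.2.1.mul_bdd (c := 1) (by fun_prop) (Eventually.of_forall fun u => Real.abs_cos_le_one _)

lemma IsMollifier.conv_kernel (h : IsMollifier θ) (b z : ℝ) :
    conv θ (kernel fun x => b * Real.cos x) z = conv θ ell z + b * conv θ Real.cos z := by
  unfold conv
  rw [← integral_const_mul, ← integral_add (h.int_conv integrable_ell z) ((h.int_cos z).const_mul b)]
  congr 1
  funext u
  simp only [kernel, ell]
  ring

lemma IsMollifier.measurable_conv (h : IsMollifier θ) {g : ℝ → ℝ} (hg : Measurable g) :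
    Measurable (conv θ g) := by
  have h1 := h.1.measurable
  have : StronglyMeasurable (Function.uncurry fun z u : ℝ => θ u * g (z - u)) :=
    Measurable.stronglyMeasurable (by
      show Measurable fun q : ℝ × ℝ => θ q.2 * g (q.1 - q.2)
      fun_prop)
  exact this.integral_prod_right.measurable

lemma IsMollifier.conv_nonneg (h : IsMollifier θ) {g : ℝ → ℝ} (hg : ∀ x, 0 ≤ g x) (z : ℝ) :
    0 ≤ conv θ g z := integral_nonneg fun u => mul_nonneg (h.2.1 u) (hg _)

lemma IsMollifier.exp_conv (h : IsMollifier θ) (z : ℝ) :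
    Real.exp (conv θ ell z / 2) ≤ 1 + conv θ rr z := by
  set t := conv θ ell z / 2 with ht
  have i1 := h.int_conv integrable_ell z
  have i2 := h.int_conv integrable_rr z
  have i0 := h.2.2.2.1
  have h1 : ∫ u, (Real.exp t * (1 - t) * θ u + Real.exp t / 2 * (θ u * ell (z - u))) ≤
      ∫ u, (θ u + θ u * rr (z - u)) := by
    refine integral_mono ((i0.const_mul _).add (i1.const_mul _)) (i0.add i2) fun u => ?_
    have a1 := Real.add_one_le_exp (ell (z - u) / 2 - t)
    have a2 : Real.exp t * (ell (z - u) / 2 - t + 1) ≤ 1 + rr (z - u) := by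
      calc _ ≤ Real.exp t * Real.exp (ell (z - u) / 2 - t) :=
            mul_le_mul_of_nonneg_left a1 (Real.exp_pos t).le
        _ = _ := by rw [← Real.exp_add, rr]; ring_nf
    have a3 := mul_le_mul_of_nonneg_left a2 (h.2.1 u)
    show Real.exp t * (1 - t) * θ u + Real.exp t / 2 * (θ u * ell (z - u)) ≤ θ u + θ u * rr (z - u)
    linarith
  rw [integral_add (i0.const_mul _) (i1.const_mul _), integral_add i0 i2, integral_const_mul,
    integral_const_mul, h.2.2.2.2] at h1
  have e1 : ∫ u, θ u * ell (z - u) = 2 * t := by rw [ht]; unfold conv; ring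
  rw [e1] at h1
  unfold conv
  linarith

lemma IsMollifier.integrable_conv (h : IsMollifier θ) {g : ℝ → ℝ} (hg : Integrable g) :
    Integrable (conv θ g) ∧ ∫ z, conv θ g z = ∫ z, g z := by
  have h1 := h.2.2.2.1.convolution_integrand (ContinuousLinearMap.mul ℝ ℝ) hg
  simp only [ContinuousLinearMap.mul_apply'] at h1
  refine ⟨h1.integral_prod_left, ?_⟩
  unfold conv
  rw [integral_integral_swap (f := fun z u => θ u * g (z - u)) h1]
  simp only [integral_const_mul, integral_sub_right_eq_self, integral_mul_const, h.2.2.2.2, one_mul]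

/-- the error made by mollifying the cosine -/
noncomputable def gam (θ : ℝ → ℝ) : ℝ := ∫ u, θ u * min 2 |u|

lemma IsMollifier.cos_err (h : IsMollifier θ) (z : ℝ) :
    |conv θ Real.cos z - Real.cos z| ≤ gam θ := by
  have i0 := h.2.2.2.1
  have e : conv θ Real.cos z - Real.cos z = ∫ u, θ u * (Real.cos (z - u) - Real.cos z) := by
    simp only [mul_sub]
    rw [integral_sub (h.int_cos z) (i0.mul_const _), integral_mul_const, h.2.2.2.2, one_mul]
    rfl
  rw [e, ← Real.norm_eq_abs]
  refine norm_integral_le_of_norm_le (i0.mul_bdd (c := 2) (by fun_prop)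
    (Eventually.of_forall fun u => ?_)) (Eventually.of_forall fun u => ?_)
  · rw [Real.norm_eq_abs, abs_of_nonneg (by positivity)]; exact min_le_left _ _
  · rw [norm_mul, Real.norm_eq_abs, abs_of_nonneg (h.2.1 u)]
    refine mul_le_mul_of_nonneg_left (le_min ?_ ?_) (h.2.1 u)
    · rw [Real.norm_eq_abs, abs_le]
      have := Real.cos_le_one (z - u)
      have := Real.cos_le_one z
      have := Real.neg_one_le_cos (z - u)
      have := Real.neg_one_le_cos z
      constructor <;> linarith
    · have := Real.abs_cos_sub_cos_le (z - u) z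
      simpa using this

lemma IsMollifier.tendsto_gam (h : IsMollifier θ) {ε : ℕ → ℝ} (hε : ∀ k, 0 < ε k)
    (h0 : Tendsto ε atTop (𝓝 0)) : Tendsto (fun k => gam (Gmc.scaled θ (ε k))) atTop (𝓝 0) := by
  have i0 := h.2.2.2.1
  have e : ∀ k, gam (Gmc.scaled θ (ε k)) = ∫ v, θ v * min 2 |ε k * v| := by
    intro k
    have := Measure.integral_comp_div (fun v => θ v * min 2 |ε k * v|) (ε k)
    have h1 := (hε k).ne'
    simp only [mul_div_cancel₀ _ h1, abs_of_pos (hε k), smul_eq_mul] at this
    unfold gam Gmc.scaled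
    simp only [mul_assoc]
    rw [integral_const_mul, this]
    field_simp
  simp only [e]
  have := tendsto_integral_of_dominated_convergence (μ := volume)
    (F := fun k v => θ v * min 2 |ε k * v|) (f := fun _ => 0) (fun v => θ v * 2)
    (fun k => (h.1.mul (by fun_prop)).aestronglyMeasurable) (i0.mul_const 2)
    (fun k => Eventually.of_forall fun v => by
      rw [Real.norm_eq_abs, abs_of_nonneg (mul_nonneg (h.2.1 v) (by positivity))]
      exact mul_le_mul_of_nonneg_left (min_le_left _ _) (h.2.1 v))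
    (Eventually.of_forall fun v => by
      have h1 : Tendsto (fun k => θ v * min 2 |ε k * v|) atTop (𝓝 (θ v * min 2 |0 * v|)) :=
        ((tendsto_const_nhds.min (h0.mul_const v).abs)).const_mul _
      simpa using h1)
  simpa using this

end

end Pool.Agent.H12Z.Gmc
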