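import Pool.Agent.H12Z.GmcDefs

set_option autoImplicit false

/-!
# The kernel `log⁺(1/|x|) + b cos x` is positive-definite
-/

namespace Pool.Agent.H12Z.Gmc

open MeasureTheory Filter Set

/-- the logarithmic part of the kernel -/
noncomputable def ell (x : ℝ) : ℝ := Real.posLog (|x|⁻¹)

/-- `exp(ℓ/2) - 1` -/
noncomputable def rr (x : ℝ) : ℝ := Real.exp (ell x / 2) - 1

lemma ell_nonneg (x : ℝ) : 0 ≤ ell x := Real.posLog_nonneg

lemma measurable_ell : Measurable ell := by
  unfold ell
  exact Real.continuous_posLog.measurable.comp (by fun_prop)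

lemma measurable_rr : Measurable rr := by
  unfold rr
  have := measurable_ell
  fun_prop

lemma ell_le_rr (x : ℝ) : ell x / 2 ≤ rr x := by
  have := Real.add_one_le_exp (ell x / 2)
  unfold rr; linarith

lemma rr_nonneg (x : ℝ) : 0 ≤ rr x := le_trans (by have := ell_nonneg x; positivity) (ell_le_rr x)

lemma ell_of_one_le {x : ℝ} (hx : 1 ≤ |x|) : ell x = 0 := by
  unfold ell
  rw [Real.posLog_eq_zero_iff, abs_inv, abs_abs]
  exact inv_le_one_of_one_le₀ hx

lemma integrable_rr : Integrable rr := by
  have h1 : IntegrableOn rr (Metric.ball (0 : ℝ) 1) volume := by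
    refine integrableOn_ball_of_norm_le_rpow (C := 1) (α := 1 / 2) (by simp) (by simp; norm_num) ?_
      measurable_rr.aestronglyMeasurable
    refine (ae_restrict_iff' measurableSet_ball).2 (Eventually.of_forall fun x hx => ?_)
    rw [Real.norm_eq_abs, abs_of_nonneg (rr_nonneg x), one_mul, Real.norm_eq_abs]
    rcases eq_or_ne x 0 with rfl | h0
    · simp [rr, ell]
    · have hx0 : 0 < |x| := abs_pos.2 h0
      have hx1 : |x| < 1 := by simpa using hx
      have : ell x = Real.log (|x|⁻¹) := by
        unfold ell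
        refine Real.posLog_eq_log ?_
        rw [abs_inv, abs_abs]
        exact (one_le_inv₀ hx0).2 hx1.le
      rw [rr, this, Real.log_inv, Real.rpow_def_of_pos hx0]
      have : -Real.log |x| / 2 = Real.log |x| * -(1 / 2) := by ring
      rw [this]; linarith
  refine (integrableOn_iff_integrable_of_support_subset fun x hx => ?_).1 h1
  by_contra h
  apply hx
  have : 1 ≤ |x| := by simpa using h
  simp [rr, ell_of_one_le this]

lemma integrable_ell : Integrable ell := by
  refine (integrable_rr.const_mul 2).mono' measurable_ell.aestronglyMeasurable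
    (Eventually.of_forall fun x => ?_)
  rw [Real.norm_eq_abs, abs_of_nonneg (ell_nonneg x)]
  have := ell_le_rr x
  linarith

/-- the cone over a point -/
def cone (x : ℝ) : Set (ℝ × ℝ) := {p | |p.2 - x| < (max 1 p.1)⁻¹ / 2}

lemma lint_len {r : ℝ} (hr : 0 < r) :
    ∫⁻ u in Ioi (0 : ℝ), ENNReal.ofReal ((max 1 u)⁻¹ - r) = ENNReal.ofReal (Real.posLog r⁻¹) := by
  have hc : Continuous fun u : ℝ => (max 1 u)⁻¹ - r := by
    refine Continuous.sub (Continuous.inv₀ (by fun_prop) fun u => ?_) continuous_const
    exact (lt_of_lt_of_le one_pos (le_max_left _ _)).ne'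
  rcases le_or_gt 1 r with h1 | h1
  · have : Real.posLog r⁻¹ = 0 := by
      rw [Real.posLog_eq_zero_iff, abs_inv, abs_of_pos hr]
      exact inv_le_one_of_one_le₀ h1
    rw [this, ENNReal.ofReal_zero]
    refine (lintegral_congr fun u => ?_).trans lintegral_zero
    rw [ENNReal.ofReal_eq_zero]
    have : (max 1 u)⁻¹ ≤ 1 := inv_le_one_of_one_le₀ (le_max_left _ _)
    linarith
  · have h2 : 1 ≤ r⁻¹ := (one_le_inv₀ hr).2 h1.le
    have h3 : (0 : ℝ) ≤ r⁻¹ := by positivity
    rw [← Ioc_union_Ioi_eq_Ioi h3, lintegral_union measurableSet_Ioi (Ioc_disjoint_Ioi_same)]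
    have h4 : ∫⁻ u in Ioi r⁻¹, ENNReal.ofReal ((max 1 u)⁻¹ - r) = 0 := by
      refine (setLIntegral_congr_fun measurableSet_Ioi fun u hu => ?_).trans lintegral_zero
      show ENNReal.ofReal _ = 0
      rw [ENNReal.ofReal_eq_zero]
      have hu' : r⁻¹ < u := hu
      have : (max 1 u)⁻¹ ≤ r := by
        rw [inv_le_comm₀ (lt_of_lt_of_le one_pos (le_max_left _ _)) hr]
        exact hu'.le.trans (le_max_right _ _)
      linarith
    rw [h4, add_zero, ← ofReal_integral_eq_lintegral_ofReal]
    · congr 1
      rw [← intervalIntegral.integral_of_le h3,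
        ← intervalIntegral.integral_add_adjacent_intervals (b := 1) (hc.intervalIntegrable _ _)
          (hc.intervalIntegrable _ _)]
      have e1 : ∫ u in (0 : ℝ)..1, ((max 1 u)⁻¹ - r) = 1 - r := by
        rw [intervalIntegral.integral_congr (g := fun _ => 1 - r)]
        · simp
        · intro u hu
          rw [uIcc_of_le zero_le_one] at hu
          simp [max_eq_left hu.2]
      have e2 : ∫ u in (1 : ℝ)..r⁻¹, ((max 1 u)⁻¹ - r) = Real.log r⁻¹ - (r⁻¹ - 1) * r := by
        rw [intervalIntegral.integral_congr (g := fun u => u⁻¹ - r)]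
        · rw [intervalIntegral.integral_sub, integral_inv_of_pos one_pos (by positivity)]
          · simp
          · refine intervalIntegral.intervalIntegrable_inv (fun u hu => ?_) (by fun_prop)
            rw [uIcc_of_le h2] at hu
            exact (lt_of_lt_of_le one_pos hu.1).ne'
          · simp
        · intro u hu
          rw [uIcc_of_le h2] at hu
          simp [max_eq_right hu.1]
      rw [e1, e2, Real.posLog_eq_log (by rwa [abs_of_nonneg h3])]
      field_simp
      ring
    · exact hc.integrableOn_Ioc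
    · refine (ae_restrict_iff' measurableSet_Ioc).2 (Eventually.of_forall fun u hu => ?_)
      show 0 ≤ (max 1 u)⁻¹ - r
      have : r ≤ (max 1 u)⁻¹ := by
        rw [le_inv_comm₀ hr (lt_of_lt_of_le one_pos (le_max_left _ _))]
        exact max_le h2 hu.2
      linarith

lemma measurableSet_cone' : MeasurableSet {q : ℝ × (ℝ × ℝ) | q.2 ∈ cone q.1} := by
  show MeasurableSet {q : ℝ × (ℝ × ℝ) | |q.2.2 - q.1| < (max 1 q.2.1)⁻¹ / 2}
  exact measurableSet_lt (by fun_prop) (by fun_prop)

lemma measurableSet_cone (x : ℝ) : MeasurableSet (cone x) := by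
  unfold cone
  exact measurableSet_lt (by fun_prop) (by fun_prop)

/-- the measure on the half plane -/
noncomputable def hp : Measure (ℝ × ℝ) := (volume.restrict (Ioi (0 : ℝ))).prod volume

instance : SFinite hp := by unfold hp; infer_instance

lemma hp_inter {x y : ℝ} (h : x ≠ y) : hp (cone x ∩ cone y) = ENNReal.ofReal (ell (x - y)) := by
  unfold hp ell
  rw [Measure.prod_apply ((measurableSet_cone x).inter (measurableSet_cone y)),
    ← lint_len (abs_pos.2 (sub_ne_zero.2 h))]
  refine lintegral_congr fun u => ?_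
  have : Prod.mk u ⁻¹' (cone x ∩ cone y) =
      Ioo (max x y - (max 1 u)⁻¹ / 2) (min x y + (max 1 u)⁻¹ / 2) := by
    ext t
    simp only [cone, mem_preimage, mem_inter_iff, mem_ofPred_eq, abs_lt, mem_Ioo]
    rcases le_total x y with h1 | h1
    · rw [max_eq_right h1, min_eq_left h1]
      constructor
      · rintro ⟨⟨a, b⟩, c, d⟩; constructor <;> linarith
      · rintro ⟨a, b⟩; refine ⟨⟨?_, ?_⟩, ?_, ?_⟩ <;> linarith
    · rw [max_eq_left h1, min_eq_right h1]
      constructor
      · rintro ⟨⟨a, b⟩, c, d⟩; constructor <;> linarith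
      · rintro ⟨a, b⟩; refine ⟨⟨?_, ?_⟩, ?_, ?_⟩ <;> linarith
  rw [this, Real.volume_Ioo]
  congr 1
  rcases le_total x y with h1 | h1
  · rw [max_eq_right h1, min_eq_left h1, abs_of_nonpos (by linarith)]; ring
  · rw [max_eq_left h1, min_eq_right h1, abs_of_nonneg (by linarith)]; ring

lemma integrable_pair {g f : ℝ → ℝ} (hg : Integrable g) (hf : Continuous f)
    (hc : HasCompactSupport f) :
    Integrable (fun p : ℝ × ℝ => g (p.1 - p.2) * f p.1 * f p.2) (volume.prod volume) := by
  have hi : Integrable f := hf.integrable_of_hasCompactSupport hc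
  obtain ⟨C, hC⟩ := hf.bounded_above_of_compact_support hc
  have h1 := hi.convolution_integrand (ContinuousLinearMap.mul ℝ ℝ) hg
  have h2 := h1.bdd_mul (f := fun p : ℝ × ℝ => f p.1) (c := C) (by fun_prop)
    (Eventually.of_forall fun p => hC _)
  refine h2.congr (Eventually.of_forall fun p => ?_)
  simp only [ContinuousLinearMap.mul_apply']
  ring

lemma ae_ne : ∀ᵐ p : ℝ × ℝ ∂(volume.prod volume), p.1 ≠ p.2 := by
  have hm : MeasurableSet {p : ℝ × ℝ | p.1 ≠ p.2} := (measurableSet_eq_fun (by fun_prop) (by fun_prop)).compl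
  rw [Measure.ae_prod_iff_ae_ae hm]
  refine Eventually.of_forall fun x => ?_
  filter_upwards [compl_mem_ae_iff.2 (measure_singleton x)] with y hy
  exact fun h => hy h.symm

lemma ell_pd {f : ℝ → ℝ} (hf : Continuous f) (hc : HasCompactSupport f) :
    0 ≤ ∫ p : ℝ × ℝ, ell (p.1 - p.2) * f p.1 * f p.2 ∂(volume.prod volume) := by
  set c : ℝ → ℝ × ℝ → ℝ := fun x q => (cone x).indicator 1 q * f x with hcdef
  have hcm : Measurable (Function.uncurry c) := by
    have : Function.uncurry c = fun q : ℝ × (ℝ × ℝ) =>
        {q : ℝ × (ℝ × ℝ) | q.2 ∈ cone q.1}.indicator 1 q * f q.1 := by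
      funext q
      rfl
    rw [this]
    exact (measurable_one.indicator measurableSet_cone').mul (hf.measurable.comp measurable_fst)
  have e1 : ∀ (p : ℝ × ℝ) q, c p.1 q * c p.2 q =
      (cone p.1 ∩ cone p.2).indicator (fun _ => f p.1 * f p.2) q := by
    intro p q
    simp only [hcdef, indicator, mem_inter_iff, Pi.one_apply]
    by_cases h1 : q ∈ cone p.1 <;> by_cases h2 : q ∈ cone p.2 <;> simp [h1, h2]
  have hms : ∀ p : ℝ × ℝ, MeasurableSet (cone p.1 ∩ cone p.2) := fun p =>
    (measurableSet_cone _).inter (measurableSet_cone _)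
  have hreal : ∀ p : ℝ × ℝ, p.1 ≠ p.2 → hp.real (cone p.1 ∩ cone p.2) = ell (p.1 - p.2) := by
    intro p h
    rw [Measure.real, hp_inter h, ENNReal.toReal_ofReal (ell_nonneg _)]
  have hI := integrable_pair integrable_ell hf hc
  have hint : Integrable (Function.uncurry fun (p : ℝ × ℝ) (q : ℝ × ℝ) => c p.1 q * c p.2 q)
      ((volume.prod volume).prod hp) := by
    have hm : Measurable (Function.uncurry fun (p : ℝ × ℝ) (q : ℝ × ℝ) => c p.1 q * c p.2 q) :=
      (hcm.comp (f := fun z : (ℝ × ℝ) × (ℝ × ℝ) => (z.1.1, z.2)) (by fun_prop)).mul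
        (hcm.comp (f := fun z : (ℝ × ℝ) × (ℝ × ℝ) => (z.1.2, z.2)) (by fun_prop))
    rw [integrable_prod_iff hm.aestronglyMeasurable]
    constructor
    · filter_upwards [ae_ne] with p h
      simp only [Function.uncurry, e1]
      rw [integrable_indicator_iff (hms p)]
      exact integrableOn_const (by rw [hp_inter h]; exact ENNReal.ofReal_ne_top)
    · refine hI.norm.congr ?_
      filter_upwards [ae_ne] with p h
      simp only [Function.uncurry, e1, norm_indicator_eq_indicator_norm]
      rw [integral_indicator_const _ (hms p), hreal p h, smul_eq_mul, mul_assoc, norm_mul,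
        Real.norm_eq_abs (ell _), abs_of_nonneg (ell_nonneg _)]
  have e2 : ∫ p : ℝ × ℝ, ell (p.1 - p.2) * f p.1 * f p.2 ∂(volume.prod volume) =
      ∫ p : ℝ × ℝ, (∫ q, c p.1 q * c p.2 q ∂hp) ∂(volume.prod volume) := by
    refine integral_congr_ae ?_
    filter_upwards [ae_ne] with p h
    simp only [e1]
    rw [integral_indicator_const _ (hms p), hreal p h, smul_eq_mul, mul_assoc]
  rw [e2, integral_integral_swap hint]
  refine integral_nonneg fun q => ?_
  show 0 ≤ ∫ p : ℝ × ℝ, c p.1 q * c p.2 q ∂(volume.prod volume)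
  rw [integral_prod_mul (fun x => c x q) (fun x => c x q)]
  exact mul_self_nonneg _

theorem isPosDef_kernel {b : ℝ} (hb : 0 ≤ b) : IsPosDef (kernel fun x => b * Real.cos x) := by
  refine ⟨?_, fun x => ?_, fun f hf hc => ?_⟩
  · have h1 : LocallyIntegrable (fun x => b * Real.cos x) :=
      Continuous.locallyIntegrable (by fun_prop)
    exact integrable_ell.locallyIntegrable.add h1
  · simp [kernel]
  · have hi : Integrable f := hf.integrable_of_hasCompactSupport hc
    have ic : Integrable fun x => Real.cos x * f x :=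
      hi.bdd_mul (c := 1) (by fun_prop) (Eventually.of_forall fun x => Real.abs_cos_le_one x)
    have is : Integrable fun x => Real.sin x * f x :=
      hi.bdd_mul (c := 1) (by fun_prop) (Eventually.of_forall fun x => Real.abs_sin_le_one x)
    have hI := integrable_pair integrable_ell hf hc
    have j1 := (ic.mul_prod ic).const_mul b
    have j2 := (is.mul_prod is).const_mul b
    have e : (fun p : ℝ × ℝ => kernel (fun x => b * Real.cos x) (p.1 - p.2) * f p.1 * f p.2) =
        fun p => ell (p.1 - p.2) * f p.1 * f p.2 +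
          (b * (Real.cos p.1 * f p.1 * (Real.cos p.2 * f p.2)) +
            b * (Real.sin p.1 * f p.1 * (Real.sin p.2 * f p.2))) := by
      funext p
      simp only [kernel, ell, Real.cos_sub]
      ring
    have hJ : Integrable (fun p : ℝ × ℝ =>
        kernel (fun x => b * Real.cos x) (p.1 - p.2) * f p.1 * f p.2) (volume.prod volume) := by
      rw [e]; exact hI.add (j1.add j2)
    have j3 : Integrable (fun p : ℝ × ℝ => b * (Real.cos p.1 * f p.1 * (Real.cos p.2 * f p.2)) +
      b * (Real.sin p.1 * f p.1 * (Real.sin p.2 * f p.2))) (volume.prod volume) := j1.add j2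
    rw [← integral_prod _ hJ, e, integral_add hI j3, integral_add j1 j2,
      integral_const_mul, integral_const_mul,
      integral_prod_mul (fun x => Real.cos x * f x) (fun x => Real.cos x * f x),
      integral_prod_mul (fun x => Real.sin x * f x) (fun x => Real.sin x * f x)]
    have := ell_pd hf hc
    have h1 := mul_self_nonneg (∫ x, Real.cos x * f x)
    have h2 := mul_self_nonneg (∫ x, Real.sin x * f x)
    positivity

end Pool.Agent.H12Z.Gmc
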