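import Mathlib

set_option autoImplicit false

/-!
# Badly complemented subspaces of finite-dimensional sup-norm spaces
-/

namespace Pool.Agent.H12Z.Gur

open Matrix

abbrev Ix (k : ℕ) : Type := Fin k → Fin 4

def Hm (k : ℕ) : Matrix (Ix k) (Ix k) ℝ :=
  Matrix.of fun x y => ∏ i, (if x i = y i then (-1 : ℝ) else 1)

lemma abs_Hm (k : ℕ) (x y : Ix k) : |Hm k x y| = 1 := by
  simp only [Hm, Matrix.of_apply, Finset.abs_prod]
  apply Finset.prod_eq_one
  intro i _
  split_ifs <;> simp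

lemma four_sum (a b : Fin 4) :
    ∑ c : Fin 4, (if a = c then (-1 : ℝ) else 1) * (if c = b then (-1 : ℝ) else 1) =
      if a = b then 4 else 0 := by
  fin_cases a <;> fin_cases b <;> simp [Fin.sum_univ_four] <;> norm_num

lemma Hm_mul (k : ℕ) : Hm k * Hm k = ((2 : ℝ) ^ k * 2 ^ k) • (1 : Matrix (Ix k) (Ix k) ℝ) := by
  ext x y
  simp only [Matrix.mul_apply, Hm, Matrix.of_apply, Matrix.smul_apply, Matrix.one_apply,
    smul_eq_mul]
  simp_rw [← Finset.prod_mul_distrib]
  have := Finset.prod_univ_sum (fun _ : Fin k => (Finset.univ : Finset (Fin 4)))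
    (fun i c => (if x i = c then (-1 : ℝ) else 1) * (if c = y i then (-1 : ℝ) else 1))
  rw [Fintype.piFinset_univ] at this
  rw [← this]
  simp_rw [four_sum]
  by_cases h : x = y
  · subst h
    simp only [if_true, Finset.prod_const, Finset.card_univ, Fintype.card_fin, mul_one]
    rw [← mul_pow]; norm_num
  · obtain ⟨i, hi⟩ := Function.ne_iff.1 h
    rw [if_neg h, mul_zero]
    exact Finset.prod_eq_zero (Finset.mem_univ i) (if_neg hi)

abbrev F (k : ℕ) : Type := (Ix k → ℝ) × (Ix k → ℝ)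

noncomputable def theta (k : ℕ) : (Ix k → ℝ) →ₗ[ℝ] F k :=
  LinearMap.prod LinearMap.id (((2 : ℝ) ^ k)⁻¹ • (Hm k).mulVecLin)

noncomputable def E (k : ℕ) : Submodule ℝ (F k) := LinearMap.range (theta k)

lemma norm_col_le (k : ℕ) (i : Ix k) : ‖(fun j => Hm k j i)‖ ≤ 1 := by
  rw [pi_norm_le_iff_of_nonneg zero_le_one]
  intro j
  rw [Real.norm_eq_abs, abs_Hm]

/-- an approximate projection of `F k` onto `E k` has norm at least `2 ^ k / 4` -/
theorem bad (k : ℕ) (S : F k →ₗ[ℝ] E k) (M : ℝ) (hM0 : 0 ≤ M) (hM : ∀ y, ‖S y‖ ≤ M * ‖y‖)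
    (hS : ∀ e : E k, ‖S e - e‖ ≤ (1 / 2) * ‖e‖) : (2 : ℝ) ^ k ≤ 4 * M := by
  classical
  set s : ℝ := 2 ^ k with hs
  have hs1 : 1 ≤ s := one_le_pow₀ (by norm_num)
  have hs0 : 0 < s := by linarith
  let σ : F k →ₗ[ℝ] (Ix k → ℝ) := (LinearMap.fst ℝ _ _) ∘ₗ (E k).subtype ∘ₗ S
  have hσ : ∀ y, (S y : F k) = (σ y, s⁻¹ • (Hm k *ᵥ σ y)) := by
    intro y
    obtain ⟨x, hx⟩ := (S y).2
    have h1 : σ y = x := by
      simp only [σ, LinearMap.comp_apply, Submodule.subtype_apply, ← hx]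
      simp [theta]
    rw [h1, ← hx]
    simp [theta, hs]
  let α : Matrix (Ix k) (Ix k) ℝ := LinearMap.toMatrix' (σ ∘ₗ LinearMap.inl ℝ _ _)
  let β : Matrix (Ix k) (Ix k) ℝ := LinearMap.toMatrix' (σ ∘ₗ LinearMap.inr ℝ _ _)
  have hαβ : ∀ y z, σ (y, z) = α *ᵥ y + β *ᵥ z := by
    intro y z
    simp only [α, β, LinearMap.toMatrix'_mulVec, LinearMap.comp_apply, LinearMap.inl_apply,
      LinearMap.inr_apply, ← map_add]
    simp
  have b1 : ∀ (y : F k) (i : Ix k), ‖y‖ ≤ 1 → |σ y i| ≤ M ∧ |s⁻¹ * (Hm k *ᵥ σ y) i| ≤ M := by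
    intro y i hy
    have h1 : ‖(S y : F k)‖ ≤ M := by
      have := hM y
      rw [Submodule.coe_norm] at this
      nlinarith [norm_nonneg y]
    rw [hσ y] at h1
    constructor
    · exact le_trans (le_trans (norm_le_pi_norm (σ y) i)
        (norm_fst_le (σ y, s⁻¹ • (Hm k *ᵥ σ y)))) h1
    · have := le_trans (le_trans (norm_le_pi_norm (s⁻¹ • (Hm k *ᵥ σ y)) i)
        (norm_snd_le (σ y, s⁻¹ • (Hm k *ᵥ σ y)))) h1
      simpa using this
  have t1 : ∀ i, (β * Hm k) i i ≤ M := by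
    intro i
    have := (b1 (0, fun j => Hm k j i) i (by simpa [Prod.norm_def] using norm_col_le k i)).1
    rw [hαβ] at this
    simp only [Matrix.mulVec_zero, zero_add] at this
    exact le_trans (le_abs_self _) this
  have t2 : ∀ i, s⁻¹ * (Hm k * α * Hm k) i i ≤ M := by
    intro i
    have := (b1 (fun j => Hm k j i, 0) i (by simpa [Prod.norm_def] using norm_col_le k i)).2
    rw [hαβ] at this
    simp only [Matrix.mulVec_zero, add_zero, Matrix.mulVec_mulVec] at this
    exact le_trans (le_abs_self _) this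
  have t3 : ∀ j, 1 / 2 ≤ α j j + s⁻¹ * (β * Hm k) j j := by
    intro j
    let e : E k := ⟨theta k (Pi.single j 1), LinearMap.mem_range_self _ _⟩
    have he : (e : F k) = (Pi.single j 1, s⁻¹ • fun i => Hm k i j) := by
      have : (e : F k) = (Pi.single j 1, s⁻¹ • (Hm k *ᵥ Pi.single j 1)) := rfl
      rw [this, Matrix.mulVec_single_one]
      rfl
    have hn : ‖e‖ ≤ 1 := by
      rw [Submodule.coe_norm, he, Prod.norm_def]
      apply max_le
      · simp [Pi.norm_single]
      · rw [norm_smul, Real.norm_eq_abs, abs_of_pos (inv_pos.2 hs0)]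
        have := norm_col_le k j
        have h2 : s⁻¹ ≤ 1 := inv_le_one_of_one_le₀ hs1
        nlinarith [norm_nonneg (fun i => Hm k i j), inv_pos.2 hs0]
    have h1 : ‖((S e - e : E k) : F k)‖ ≤ 1 / 2 := by
      rw [← Submodule.coe_norm]
      have := hS e
      linarith
    have h2 := le_trans (le_trans (norm_le_pi_norm (((S e - e : E k) : F k).1) j) (norm_fst_le _)) h1
    rw [Submodule.coe_sub, hσ, he, hαβ] at h2
    simp only [Prod.fst_sub, Pi.sub_apply, Pi.add_apply, Matrix.mulVec_single_one, Matrix.mulVec_smul,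
      Pi.smul_apply, smul_eq_mul, Pi.single_eq_same, Real.norm_eq_abs] at h2
    have h3 : (β *ᵥ fun i => Hm k i j) j = (β * Hm k) j j := rfl
    rw [h3] at h2
    have h4 : α.col j j = α j j := rfl
    rw [h4] at h2
    have := (abs_le.1 h2).1
    linarith
  have tr : (Hm k * α * Hm k).trace = s * s * α.trace := by
    rw [Matrix.trace_mul_cycle, Hm_mul, Matrix.smul_mul, Matrix.one_mul, Matrix.trace_smul]
    simp [hs]
  set n : ℝ := (Fintype.card (Ix k) : ℝ) with hn
  have hn0 : 0 < n := by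
    rw [hn]; exact_mod_cast Fintype.card_pos
  have s1 : (β * Hm k).trace ≤ n * M := by
    have := Finset.sum_le_sum (fun i (_ : i ∈ Finset.univ) => t1 i)
    simpa [Matrix.trace, hn] using this
  have s2 : s⁻¹ * (Hm k * α * Hm k).trace ≤ n * M := by
    have := Finset.sum_le_sum (fun i (_ : i ∈ Finset.univ) => t2 i)
    rw [← Finset.mul_sum] at this
    simpa [Matrix.trace, hn] using this
  have s3 : n * (1 / 2) ≤ α.trace + s⁻¹ * (β * Hm k).trace := by
    have := Finset.sum_le_sum (fun i (_ : i ∈ Finset.univ) => t3 i)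
    rw [Finset.sum_add_distrib, ← Finset.mul_sum] at this
    simpa [Matrix.trace, hn] using this
  rw [tr] at s2
  have s4 : s * α.trace ≤ n * M := by
    have : s⁻¹ * (s * s * α.trace) = s * α.trace := by field_simp
    linarith
  have s5 : s * (n * (1 / 2)) ≤ s * α.trace + (β * Hm k).trace := by
    have := mul_le_mul_of_nonneg_left s3 hs0.le
    have e : s * (α.trace + s⁻¹ * (β * Hm k).trace) = s * α.trace + (β * Hm k).trace := by
      field_simp
    linarith
  have s6 : n * s ≤ n * (4 * M) := by nlinarith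
  exact le_of_mul_le_mul_left s6 hn0

end Pool.Agent.H12Z.Gur
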