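import Mathlib

set_option autoImplicit false

/-!
# The Polish spaces of separable Banach spaces, and the Gurarii space
-/

namespace Pool.Agent.H12Z.Gur

/-- finitely supported rational sequences -/
abbrev V : Type := ℕ →₀ ℚ

/-- finitely supported real sequences -/
abbrev C00 : Type := ℕ →₀ ℝ

/-- a rational sequence seen as a real sequence -/
noncomputable def toReal (v : V) : C00 := Finsupp.mapRange (fun q : ℚ => (q : ℝ)) Rat.cast_zero v

/-- the set of all pseudonorms on `V`, inside the product space `V → ℝ` -/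
def P : Set (V → ℝ) :=
  {μ | (∀ v, 0 ≤ μ v) ∧ (∀ u v, μ (u + v) ≤ μ u + μ v) ∧
    ∀ (q : ℚ) (v : V), μ (q • v) = |(q : ℝ)| * μ v}

/-- the seminorm `ν` on `C00` extends `μ` -/
def Extends (ν : Seminorm ℝ C00) (μ : V → ℝ) : Prop := ∀ v : V, ν (toReal v) = μ v

/-- the space `C00` with the seminorm `ν` -/
def WithSemi (_ν : Seminorm ℝ C00) : Type := C00

noncomputable instance (ν : Seminorm ℝ C00) : AddCommGroup (WithSemi ν) :=
  inferInstanceAs (AddCommGroup C00)

noncomputable instance (ν : Seminorm ℝ C00) : Module ℝ (WithSemi ν) :=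
  inferInstanceAs (Module ℝ C00)

noncomputable instance (ν : Seminorm ℝ C00) : SeminormedAddCommGroup (WithSemi ν) :=
  AddGroupSeminorm.toSeminormedAddCommGroup (E := WithSemi ν) ν.toAddGroupSeminorm

noncomputable instance (ν : Seminorm ℝ C00) : NormedSpace ℝ (WithSemi ν) where
  norm_smul_le a x := (map_smul_eq_mul ν a x).le

/-- the Banach space obtained from `C00` and `ν`: the Hausdorff completion, that is the completion
of the quotient of `C00` by the vectors of seminorm zero -/
abbrev X (ν : Seminorm ℝ C00) : Type := UniformSpace.Completion (WithSemi ν)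

/-- pseudonorms whose Banach space is infinite-dimensional -/
def Pinf : Set (V → ℝ) := {μ | μ ∈ P ∧ ∃ ν, Extends ν μ ∧ ¬ FiniteDimensional ℝ (X ν)}

/-- members of `Pinf` that are norms on `C00` -/
def B : Set (V → ℝ) := {μ | μ ∈ Pinf ∧ ∃ ν, Extends ν μ ∧ ∀ x, ν x = 0 → x = 0}

/-- the isomorphism class of `Z` inside `I`, a subset of the topological subspace `I` -/
def isoClass (I : Set (V → ℝ)) (Z : Type) [NormedAddCommGroup Z] [NormedSpace ℝ Z] : Set I :=
  {μ | ∃ ν, Extends ν μ.1 ∧ Nonempty (X ν ≃L[ℝ] Z)}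

/-- `G` is a separable Banach space with the defining property of the Gurarii space -/
def IsGurarii (G : Type) [NormedAddCommGroup G] [NormedSpace ℝ G] : Prop :=
  CompleteSpace G ∧ TopologicalSpace.SeparableSpace G ∧
    ∀ ε : ℝ, 0 < ε → ∀ (A : Submodule ℝ G) (F : Type) [NormedAddCommGroup F] [NormedSpace ℝ F]
      [FiniteDimensional ℝ F] (g : A →ₗᵢ[ℝ] F), ∃ f : F →L[ℝ] G,
        (∀ x, (1 + ε)⁻¹ * ‖x‖ ≤ ‖f x‖ ∧ ‖f x‖ ≤ (1 + ε) * ‖x‖) ∧
        ‖f.comp g.toContinuousLinearMap - A.subtypeL‖ ≤ ε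

end Pool.Agent.H12Z.Gur
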