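import Pool.Agent.H12Z.GurDefs
import Pool.Agent.H12Z.GurBad

set_option autoImplicit false

/-!
# The Gurarii space has no uniformly complemented copies of the spaces `E k`
-/

namespace Pool.Agent.H12Z.Gur

open scoped ENNReal

section
variable {K Y : Type} [NormedAddCommGroup Y] [NormedSpace ℝ Y]

/-- a bounded family of functionals gives a map to a sup-norm space -/
noncomputable def toLp (ψ : K → Y →L[ℝ] ℝ) (C : ℝ) (h : ∀ φ, ‖ψ φ‖ ≤ C) :
    Y →ₗ[ℝ] lp (fun _ : K => ℝ) ∞ where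
  toFun y := ⟨fun φ => ψ φ y, memℓp_infty ⟨C * ‖y‖, by
    rintro _ ⟨φ, rfl⟩
    exact ((ψ φ).le_opNorm y).trans (mul_le_mul_of_nonneg_right (h φ) (norm_nonneg _))⟩⟩
  map_add' x y := by ext φ; exact map_add (ψ φ) x y
  map_smul' a x := by ext φ; simp

lemma toLp_apply (ψ : K → Y →L[ℝ] ℝ) (C : ℝ) (h : ∀ φ, ‖ψ φ‖ ≤ C) (y : Y) (φ : K) :
    toLp ψ C h y φ = ψ φ y := rfl

lemma norm_toLp_le (ψ : K → Y →L[ℝ] ℝ) (C : ℝ) (hC : 0 ≤ C) (h : ∀ φ, ‖ψ φ‖ ≤ C) (y : Y) :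
    ‖toLp ψ C h y‖ ≤ C * ‖y‖ := by
  apply lp.norm_le_of_forall_le (by positivity)
  intro φ
  exact ((ψ φ).le_opNorm y).trans (mul_le_mul_of_nonneg_right (h φ) (norm_nonneg _))

end

variable {G : Type} [NormedAddCommGroup G] [NormedSpace ℝ G]

lemma gur_bound (hG : IsGurarii G) {Y : Type} [NormedAddCommGroup Y] [NormedSpace ℝ Y]
    [FiniteDimensional ℝ Y] (E : Submodule ℝ Y) (j : E →ₗ[ℝ] G) (r : G →ₗ[ℝ] E) (C : ℝ)
    (hC : 0 < C) (hrj : ∀ e, r (j e) = e) (hj : ∀ e, ‖j e‖ ≤ C * ‖e‖) (hr : ∀ g, ‖r g‖ ≤ C * ‖g‖) :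
    ∃ S : Y →ₗ[ℝ] E, (∀ y, ‖S y‖ ≤ (2 * C * C) * ‖y‖) ∧ ∀ e : E, ‖S e - e‖ ≤ (1 / 2) * ‖e‖ := by
  let K : Type := {φ : G →L[ℝ] ℝ // ‖φ‖ ≤ 1}
  have hext : ∀ φ : K, ∃ ψ : Y →L[ℝ] ℝ, (∀ e : E, ψ e = φ.1 (j e)) ∧ ‖ψ‖ ≤ C := by
    intro φ
    let jc : E →L[ℝ] G := j.mkContinuous C hj
    obtain ⟨ψ, h1, h2⟩ := exists_extension_norm_eq E (φ.1.comp jc)
    refine ⟨ψ, h1, ?_⟩
    rw [h2]
    refine (ContinuousLinearMap.opNorm_comp_le _ _).trans ?_
    have : ‖jc‖ ≤ C := j.mkContinuous_norm_le hC.le hj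
    nlinarith [φ.2, norm_nonneg φ.1, norm_nonneg jc]
  choose ψ hψ1 hψ2 using hext
  let Φ := toLp ψ C hψ2
  let Ψ := toLp (fun φ : K => φ.1) 1 (fun φ => φ.2)
  have hΨ : ∀ a, ‖Ψ a‖ = ‖a‖ := by
    intro a
    apply le_antisymm
    · simpa using norm_toLp_le (fun φ : K => φ.1) 1 zero_le_one (fun φ => φ.2) a
    · obtain ⟨φ, h1, h2⟩ := exists_dual_vector'' ℝ a
      have := lp.norm_apply_le_norm ENNReal.top_ne_zero (Ψ a) ⟨φ, h1⟩
      rw [toLp_apply, h2] at this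
      simpa using this
  have hΦΨ : ∀ e : E, Φ e = Ψ (j e) := by
    intro e
    ext φ
    exact hψ1 φ e
  let A : Submodule ℝ G := LinearMap.range j
  let Bs := LinearMap.range Φ
  have hmem : ∀ a : A, Ψ a ∈ Bs := by
    rintro ⟨_, e, rfl⟩
    exact ⟨e, hΦΨ e⟩
  let g : A →ₗᵢ[ℝ] Bs :=
    { toLinearMap := (Ψ ∘ₗ A.subtype).codRestrict Bs hmem
      norm_map' := fun a => hΨ a }
  set ε : ℝ := min 1 (1 / (2 * C * C)) with hε
  have hε0 : 0 < ε := lt_min one_pos (by positivity)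
  have hε1 : ε ≤ 1 := min_le_left _ _
  have hε2 : ε * (2 * C * C) ≤ 1 := by
    have := min_le_right 1 (1 / (2 * C * C))
    rwa [← hε, le_div_iff₀ (by positivity)] at this
  obtain ⟨f, hf1, hf2⟩ := hG.2.2 ε hε0 A Bs g
  refine ⟨r ∘ₗ (f : Bs →ₗ[ℝ] G) ∘ₗ Φ.rangeRestrict, ?_, ?_⟩
  · intro y
    have h1 : ‖Φ.rangeRestrict y‖ ≤ C * ‖y‖ := norm_toLp_le ψ C hC.le hψ2 y
    have h2 := (hf1 (Φ.rangeRestrict y)).2
    have h3 := hr (f (Φ.rangeRestrict y))
    have h4 : ‖f (Φ.rangeRestrict y)‖ ≤ 2 * (C * ‖y‖) := by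
      nlinarith [norm_nonneg (Φ.rangeRestrict y)]
    calc _ ≤ C * ‖f (Φ.rangeRestrict y)‖ := h3
      _ ≤ C * (2 * (C * ‖y‖)) := mul_le_mul_of_nonneg_left h4 hC.le
      _ = _ := by ring
  · intro e
    let a : A := ⟨j e, LinearMap.mem_range_self _ _⟩
    have h1 : Φ.rangeRestrict e = g a := Subtype.ext (hΦΨ e)
    have h2 : ‖f (g a) - j e‖ ≤ ε * ‖j e‖ := by
      have := (f.comp g.toContinuousLinearMap - A.subtypeL).le_opNorm a
      exact this.trans (mul_le_mul_of_nonneg_right hf2 (norm_nonneg _))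
    have h3 : (r ∘ₗ (f : Bs →ₗ[ℝ] G) ∘ₗ Φ.rangeRestrict) e - e = r (f (g a) - j e) := by
      rw [map_sub, hrj, ← h1]; rfl
    rw [h3]
    have h4 := hr (f (g a) - j e)
    have h5 : ε * ‖j e‖ ≤ ε * (C * ‖e‖) := mul_le_mul_of_nonneg_left (hj e) hε0.le
    calc _ ≤ C * (ε * (C * ‖e‖)) := h4.trans (mul_le_mul_of_nonneg_left (h2.trans h5) hC.le)
      _ = (ε * (2 * C * C)) * ((1 / 2) * ‖e‖) := by ring
      _ ≤ 1 * ((1 / 2) * ‖e‖) := mul_le_mul_of_nonneg_right hε2 (by positivity)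
      _ = _ := one_mul _

lemma gur_not_finite (hG : IsGurarii G) : ¬ FiniteDimensional ℝ G := by
  intro hfin
  let n := Module.finrank ℝ G + 1
  let g : (⊥ : Submodule ℝ G) →ₗᵢ[ℝ] (Fin n → ℝ) :=
    { toLinearMap := 0
      norm_map' := fun a => by
        have : a = 0 := Subsingleton.elim _ _
        simp [this] }
  obtain ⟨f, hf1, -⟩ := hG.2.2 1 one_pos ⊥ (Fin n → ℝ) g
  have hinj : Function.Injective (f : (Fin n → ℝ) →ₗ[ℝ] G) := by
    rw [← LinearMap.ker_eq_bot, LinearMap.ker_eq_bot']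
    intro x hx
    have := (hf1 x).1
    have hx' : f x = 0 := hx
    rw [hx', norm_zero] at this
    have h2 : ‖x‖ ≤ 0 := by linarith [this]
    exact norm_le_zero_iff.1 h2
  have := LinearMap.finrank_le_finrank_of_injective hinj
  simp [n] at this

/-- the contradiction used at the end -/
lemma gur_no_copies (hG : IsGurarii G) (C : ℝ) (hC : 0 < C)
    (h : ∀ k, ∃ (j : E k →ₗ[ℝ] G) (r : G →ₗ[ℝ] E k), (∀ e, r (j e) = e) ∧
      (∀ e, ‖j e‖ ≤ C * ‖e‖) ∧ ∀ g, ‖r g‖ ≤ C * ‖g‖) : False := by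
  obtain ⟨k, hk⟩ := pow_unbounded_of_one_lt (4 * (2 * C * C)) (one_lt_two (α := ℝ))
  obtain ⟨j, r, h1, h2, h3⟩ := h k
  obtain ⟨S, hS1, hS2⟩ := gur_bound hG (E k) j r C hC h1 h2 h3
  have := bad k S (2 * C * C) (by positivity) hS1 hS2
  linarith

/-- a linearly independent sequence with dense span -/
lemma exists_dense_inj (hG : IsGurarii G) :
    ∃ T : C00 →ₗ[ℝ] G, Function.Injective T ∧ DenseRange T := by
  have := hG.2.1
  obtain ⟨s, hs, hd⟩ := TopologicalSpace.exists_countable_dense G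
  obtain ⟨b, hbs, hspan, hli⟩ := exists_linearIndependent ℝ s
  have hbc : b.Countable := hs.mono hbs
  have hdense : Dense ((Submodule.span ℝ b : Submodule ℝ G) : Set G) := by
    rw [hspan]
    exact hd.mono Submodule.subset_span
  have hbi : b.Infinite := by
    intro hfin
    have : FiniteDimensional ℝ (Submodule.span ℝ b) := FiniteDimensional.span_of_finite ℝ hfin
    have hcl := (Submodule.span ℝ b).closed_of_finiteDimensional
    have htop : Submodule.span ℝ b = ⊤ := by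
      apply SetLike.coe_injective
      rw [← hcl.closure_eq, hdense.closure_eq]; rfl
    apply gur_not_finite hG
    rw [htop] at this
    exact Module.Finite.equiv Submodule.topEquiv
  have := hbc.to_subtype
  have := hbi.to_subtype
  obtain ⟨d⟩ := nonempty_denumerable b
  let u : ℕ → G := fun n => ((Denumerable.eqv b).symm n : G)
  have hu : LinearIndependent ℝ u := hli.comp _ (Denumerable.eqv b).symm.injective
  refine ⟨Finsupp.linearCombination ℝ u, hu, ?_⟩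
  have hr : Set.range u = b := by
    ext x
    constructor
    · rintro ⟨n, rfl⟩; exact ((Denumerable.eqv b).symm n).2
    · intro hx; exact ⟨Denumerable.eqv b ⟨x, hx⟩, by simp [u]⟩
  have : Set.range (Finsupp.linearCombination ℝ u) = (Submodule.span ℝ b : Set G) := by
    rw [← hr, ← Finsupp.range_linearCombination]; rfl
  rw [DenseRange, this]
  exact hdense

end Pool.Agent.H12Z.Gur
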