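import Pool.Agent.H12Z.GurExt

set_option autoImplicit false

/-!
# The isomorphism class of the Gurarii space is not a countable intersection of open sets
-/

namespace Pool.Agent.H12Z.Gur

open Filter Topology

/-- the canonical map to the completion -/
noncomputable def toX (ν : Seminorm ℝ C00) : C00 →ₗ[ℝ] X ν :=
  (UniformSpace.Completion.toComplL (𝕜 := ℝ) (E := WithSemi ν)).toLinearMap

lemma norm_toX (ν : Seminorm ℝ C00) (x : C00) : ‖toX ν x‖ = ν x :=
  UniformSpace.Completion.norm_coe (E := WithSemi ν) x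

lemma dense_toX (ν : Seminorm ℝ C00) : DenseRange (toX ν) :=
  UniformSpace.Completion.denseRange_coe (α := WithSemi ν)

lemma toReal_add (u v : V) : toReal (u + v) = toReal u + toReal v := by
  ext i; simp [toReal]

lemma toReal_smul (q : ℚ) (v : V) : toReal (q • v) = (q : ℝ) • toReal v := by
  ext i; simp [toReal]

/-- restriction of a seminorm to the rational vectors -/
noncomputable def res (ν : Seminorm ℝ C00) : V → ℝ := fun v => ν (toReal v)

lemma res_mem_P (ν : Seminorm ℝ C00) : res ν ∈ P := by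
  refine ⟨fun v => apply_nonneg ν _, fun u v => ?_, fun q v => ?_⟩
  · simp only [res, toReal_add]; exact map_add_le_add ν _ _
  · simp only [res, toReal_smul, map_smul_eq_mul, Real.norm_eq_abs]

lemma c00_not_finite : ¬ FiniteDimensional ℝ C00 := by
  intro h
  have := (Finsupp.basisSingleOne (R := ℝ) (ι := ℕ)).linearIndependent.finite
  exact not_finite ℕ

lemma res_mem_B (ν : Seminorm ℝ C00) (h : ∀ x, ν x = 0 → x = 0) : res ν ∈ B := by
  refine ⟨⟨res_mem_P ν, ν, fun _ => rfl, fun hf => c00_not_finite ?_⟩, ν, fun _ => rfl, h⟩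
  refine Module.Finite.of_injective (toX ν) ?_
  rw [← LinearMap.ker_eq_bot, LinearMap.ker_eq_bot']
  intro x hx
  apply h
  rw [← norm_toX, hx, norm_zero]

lemma seminorm_le_sum (ν : Seminorm ℝ C00) (s : Finset ℕ) (a : ℕ → ℝ) :
    ν (∑ i ∈ s, Finsupp.single i (a i)) ≤ ∑ i ∈ s, |a i| * ν (Finsupp.single i 1) := by
  classical
  induction s using Finset.induction_on with
  | empty => simp
  | insert i s hi ih =>
    rw [Finset.sum_insert hi, Finset.sum_insert hi]
    refine (map_add_le_add ν _ _).trans (add_le_add ?_ ih)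
    have : Finsupp.single i (a i) = a i • Finsupp.single i (1 : ℝ) := by simp
    rw [this, map_smul_eq_mul, Real.norm_eq_abs]

lemma extends_unique {ν ν' : Seminorm ℝ C00} (h : ∀ v, ν (toReal v) = ν' (toReal v)) : ν = ν' := by
  classical
  have key : ∀ (p q : Seminorm ℝ C00), (∀ v, p (toReal v) = q (toReal v)) → ∀ x, p x ≤ q x := by
    intro p q hpq x
    apply le_of_forall_pos_le_add
    intro ε hε
    set c : ℝ := ∑ i ∈ x.support, (p (Finsupp.single i 1) + q (Finsupp.single i 1)) with hc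
    have hc0 : 0 ≤ c := Finset.sum_nonneg fun i _ => add_nonneg (apply_nonneg _ _) (apply_nonneg _ _)
    have hδ : 0 < ε / (c + 1) := by positivity
    choose r hr using fun i : ℕ => exists_rat_near (x i) hδ
    let v : V := ∑ i ∈ x.support, Finsupp.single i (r i)
    have hv : x - toReal v = ∑ i ∈ x.support, Finsupp.single i (x i - r i) := by
      ext j
      simp only [v, toReal, Finsupp.sub_apply, Finsupp.mapRange_apply, Finsupp.finsetSum_apply,
        Finsupp.single_apply, Finset.sum_ite_eq']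
      split_ifs with hj
      · rfl
      · simpa using hj
    have b : ∀ t : Seminorm ℝ C00, t (x - toReal v) ≤
        ∑ i ∈ x.support, ε / (c + 1) * t (Finsupp.single i 1) := by
      intro t
      rw [hv]
      refine (seminorm_le_sum t _ _).trans (Finset.sum_le_sum fun i _ => ?_)
      exact mul_le_mul_of_nonneg_right (hr i).le (apply_nonneg _ _)
    have h1 : p x ≤ p (toReal v) + p (x - toReal v) := by
      have := map_add_le_add p (toReal v) (x - toReal v)
      simpa using this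
    have h2 : q (toReal v) ≤ q x + q (x - toReal v) := by
      have := map_add_le_add q x (-(x - toReal v))
      rw [map_neg_eq_map] at this
      simpa using this
    have h3 : p (x - toReal v) + q (x - toReal v) ≤ ε / (c + 1) * c := by
      have := add_le_add (b p) (b q)
      rw [← Finset.sum_add_distrib] at this
      refine this.trans (le_of_eq ?_)
      rw [hc, Finset.mul_sum]
      exact Finset.sum_congr rfl fun i _ => by ring
    have h4 : ε / (c + 1) * c ≤ ε := by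
      rw [div_mul_eq_mul_div, div_le_iff₀ (by positivity)]
      nlinarith
    rw [hpq v] at h1
    linarith
  ext x
  exact le_antisymm (key ν ν' h x) (key ν' ν (fun v => (h v).symm) x)

variable {G : Type} [NormedAddCommGroup G] [NormedSpace ℝ G]

/-- `ν` is equivalent to the norm coming from `T` -/
def Eqv (T : C00 →ₗ[ℝ] G) (ν : Seminorm ℝ C00) : Prop :=
  ∃ C : ℝ, 0 < C ∧ ∀ x, ν x ≤ C * ‖T x‖ ∧ ‖T x‖ ≤ C * ν x

lemma Eqv.iso [CompleteSpace G] {T : C00 →ₗ[ℝ] G} (hT : DenseRange T) {ν : Seminorm ℝ C00}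
    (h : Eqv T ν) : Nonempty (X ν ≃L[ℝ] G) := by
  obtain ⟨C, -, hC⟩ := h
  exact ⟨(LinearEquiv.refl ℝ C00).extend (toX ν) T (dense_toX ν)
    ⟨C, fun x => by rw [norm_toX]; exact (hC x).2⟩ hT
    ⟨C, fun x => by rw [norm_toX]; exact (hC x).1⟩⟩

lemma Eqv.norm {T : C00 →ₗ[ℝ] G} (hT : Function.Injective T) {ν : Seminorm ℝ C00}
    (h : Eqv T ν) (x : C00) (hx : ν x = 0) : x = 0 := by
  obtain ⟨C, -, hC⟩ := h
  have := (hC x).2
  rw [hx, mul_zero, norm_le_zero_iff] at this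
  exact hT (by rw [this, map_zero])

/-- vectors supported below `m` -/
def Below (m : ℕ) (x : C00) : Prop := ∀ i, m ≤ i → x i = 0

lemma Below.mono {m m' : ℕ} {x : C00} (h : Below m x) (hm : m ≤ m') : Below m' x :=
  fun i hi => h i (hm.trans hi)

lemma exists_below (x : C00) : ∃ m, Below m x := by
  refine ⟨x.support.sup id + 1, fun i hi => ?_⟩
  by_contra h
  have : i ≤ x.support.sup id := Finset.le_sup (f := id) (Finsupp.mem_support_iff.2 h)
  omega

lemma exists_below_range {Y : Type} [AddCommGroup Y] [Module ℝ Y] [FiniteDimensional ℝ Y]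
    (J : Y →ₗ[ℝ] C00) : ∃ m, ∀ y, Below m (J y) := by
  classical
  let b := Module.finBasis ℝ Y
  choose m hm using fun i => exists_below (J (b i))
  refine ⟨Finset.univ.sup m, fun y i hi => ?_⟩
  rw [← b.sum_repr y, map_sum, Finsupp.finsetSum_apply]
  apply Finset.sum_eq_zero
  intro j _
  rw [map_smul, Finsupp.smul_apply, hm j i ((Finset.le_sup (Finset.mem_univ j)).trans hi), smul_zero]

/-- the kernel of `ρ` has finite codimension -/
def FinCodim (ρ : Seminorm ℝ C00) : Prop :=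
  ∃ (Y : Type) (_ : AddCommGroup Y) (_ : Module ℝ Y) (_ : FiniteDimensional ℝ Y)
    (Λ : C00 →ₗ[ℝ] Y), ∀ x, Λ x = 0 → ρ x = 0

lemma exists_inj_ker {Y Z : Type} [AddCommGroup Y] [Module ℝ Y] [FiniteDimensional ℝ Y]
    [AddCommGroup Z] [Module ℝ Z] [FiniteDimensional ℝ Z] (Λ : C00 →ₗ[ℝ] Y) :
    ∃ J : Z →ₗ[ℝ] C00, Function.Injective J ∧ ∀ z, Λ (J z) = 0 := by
  have h1 : ¬ Module.Finite ℝ (LinearMap.ker Λ) := by
    intro h
    apply c00_not_finite
    have : Module.Finite ℝ (LinearMap.range Λ) := inferInstance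
    have h2 : Module.Finite ℝ (C00 ⧸ LinearMap.ker Λ) := Module.Finite.equiv Λ.quotKerEquivRange.symm
    exact Module.Finite.of_submodule_quotient (LinearMap.ker Λ)
  have h2 : Module.rank ℝ Z < Module.rank ℝ (LinearMap.ker Λ) := by
    have h3 : Module.rank ℝ Z < Cardinal.aleph0 := Module.rank_lt_aleph0 ℝ Z
    have h4 : Cardinal.aleph0 ≤ Module.rank ℝ (LinearMap.ker Λ) := by
      by_contra h5
      have : Module.Free ℝ (LinearMap.ker Λ) := Module.Free.of_divisionRing ℝ (LinearMap.ker Λ)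
      exact h1 (Module.rank_lt_aleph0_iff.1 (not_le.1 h5))
    exact h3.trans_le h4
  obtain ⟨f, hf⟩ := Module.Free.exists_linearMap_injective_of_rank_lt h2
  exact ⟨(LinearMap.ker Λ).subtype ∘ₗ f, Subtype.val_injective.comp hf, fun z => (f z).2⟩

/-- restriction to the first coordinates -/
noncomputable def cut (m : ℕ) : C00 →ₗ[ℝ] (Fin m → ℝ) := LinearMap.pi fun i => Finsupp.lapply (i : ℕ)

/-- extension by zero -/
noncomputable def pad (m : ℕ) : (Fin m → ℝ) →ₗ[ℝ] C00 :=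
  ∑ i : Fin m, (Finsupp.lsingle (i : ℕ)) ∘ₗ LinearMap.proj i

lemma pad_apply (m : ℕ) (a : Fin m → ℝ) (j : ℕ) :
    pad m a j = if h : j < m then a ⟨j, h⟩ else 0 := by
  classical
  simp only [pad, LinearMap.sum_apply, LinearMap.comp_apply, LinearMap.proj_apply,
    Finsupp.lsingle_apply, Finsupp.finsetSum_apply, Finsupp.single_apply]
  split_ifs with h
  · rw [Finset.sum_eq_single ⟨j, h⟩]
    · simp
    · intro b _ hb
      rw [if_neg]
      intro e
      exact hb (Fin.ext e)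
    · simp
  · apply Finset.sum_eq_zero
    intro i _
    rw [if_neg]
    intro e
    exact h (e ▸ i.2)

lemma cut_pad (m : ℕ) (a : Fin m → ℝ) : cut m (pad m a) = a := by
  ext i
  simp [cut, pad_apply]

lemma pad_cut {m : ℕ} {x : C00} (h : Below m x) : pad m (cut m x) = x := by
  ext j
  rw [pad_apply]
  split_ifs with hj
  · simp [cut]
  · exact (h j (not_lt.1 hj)).symm

lemma step_maps {T : C00 →ₗ[ℝ] G} (hT : Function.Injective T) {ρ : Seminorm ℝ C00}
    (hρ : FinCodim ρ) (m : ℕ) (Z : Type) [NormedAddCommGroup Z] [NormedSpace ℝ Z]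
    [FiniteDimensional ℝ Z] :
    ∃ (J : Z →ₗ[ℝ] C00) (R : C00 →ₗ[ℝ] Z) (C : ℝ), 0 < C ∧ (∀ z, R (J z) = z) ∧
      (∀ z, ρ (J z) = 0) ∧ (∀ x, Below m x → R x = 0) ∧ (∀ x, ‖R x‖ ≤ C * ‖T x‖) ∧
      ∀ z, ‖T (J z)‖ ≤ C * ‖z‖ := by
  obtain ⟨Y, _, _, _, Λ, hΛ⟩ := hρ
  obtain ⟨J, hJ, hJ0⟩ := exists_inj_ker (Z := Z) (Λ.prod (cut m))
  have hJ1 : ∀ z, Λ (J z) = 0 := fun z => congrArg Prod.fst (hJ0 z)
  have hJ2 : ∀ z, cut m (J z) = 0 := fun z => congrArg Prod.snd (hJ0 z)
  let Θ : ((Fin m → ℝ) × Z) →ₗ[ℝ] G := T ∘ₗ (pad m).coprod J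
  have hΘ : LinearMap.ker Θ = ⊥ := by
    rw [LinearMap.ker_eq_bot']
    rintro ⟨a, z⟩ h
    have h1 : pad m a + J z = 0 := hT (by rw [map_zero]; exact h)
    have h2 : a = 0 := by
      have := congrArg (cut m) h1
      rwa [map_add, cut_pad, hJ2, add_zero, map_zero] at this
    subst h2
    rw [map_zero, zero_add] at h1
    have : z = 0 := hJ (by rw [h1, map_zero])
    rw [this]; rfl
  obtain ⟨L, hL⟩ := Θ.exists_leftInverse_of_injective hΘ
  let S := LinearMap.range Θ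
  let f : S →L[ℝ] Z := LinearMap.toContinuousLinearMap ((LinearMap.snd ℝ _ _) ∘ₗ L ∘ₗ S.subtype)
  obtain ⟨g, hg⟩ := f.exist_extension_of_finiteDimensional_range
  have hg' : ∀ a z, g (T (pad m a + J z)) = z := by
    intro a z
    have h1 := congrArg (fun u : S →L[ℝ] Z => u ⟨Θ (a, z), LinearMap.mem_range_self _ _⟩) hg
    have h2 : L (Θ (a, z)) = (a, z) := LinearMap.congr_fun hL (a, z)
    simp only [f, LinearMap.coe_toContinuousLinearMap', LinearMap.comp_apply,
      Submodule.subtype_apply, h2, LinearMap.snd_apply, ContinuousLinearMap.comp_apply,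
      Submodule.subtypeL_apply] at h1
    exact h1.symm
  let j : Z →L[ℝ] G := LinearMap.toContinuousLinearMap (T ∘ₗ J)
  refine ⟨J, (g : G →ₗ[ℝ] Z) ∘ₗ T, ‖g‖ + ‖j‖ + 1, by positivity, fun z => ?_,
    fun z => hΛ _ (hJ1 z), fun x hx => ?_, fun x => ?_, fun z => ?_⟩
  · simpa using hg' 0 z
  · have := hg' (cut m x) 0
    rw [pad_cut hx] at this
    simpa using this
  · refine (g.le_opNorm (T x)).trans (mul_le_mul_of_nonneg_right ?_ (norm_nonneg _))
    linarith [norm_nonneg j]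
  · refine (j.le_opNorm z).trans (mul_le_mul_of_nonneg_right ?_ (norm_nonneg _))
    linarith [norm_nonneg g]

/-- states of the construction -/
structure St (T : C00 →ₗ[ℝ] G) where
  ν : Seminorm ℝ C00
  ρ : Seminorm ℝ C00
  m : ℕ
  le : ∀ x, ρ x ≤ ν x
  fc : FinCodim ρ
  eqv : Eqv T ν

/-- one step of the construction -/
def Rel {T : C00 →ₗ[ℝ] G} (O : Set (V → ℝ)) (k : ℕ) (s s' : St T) : Prop :=
  s.m < s'.m ∧ (∀ x, Below s.m x → s'.ν x = s.ν x) ∧ (∀ x, s.ρ x ≤ s'.ρ x) ∧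
  (∀ μ : V → ℝ, (∀ v, Below s'.m (toReal v) → μ v = s'.ν (toReal v)) → μ ∈ O) ∧
  ∃ (J : E k →ₗ[ℝ] C00) (R : C00 →ₗ[ℝ] E k), (∀ z, R (J z) = z) ∧ (∀ z, Below s'.m (J z)) ∧
    (∀ z, s'.ν (J z) = ‖z‖) ∧ ∀ x, ‖R x‖ ≤ s'.ρ x

lemma exists_level {O : Set (V → ℝ)} (hO : IsOpen O) {μ₀ : V → ℝ} (h : μ₀ ∈ O) :
    ∃ m, ∀ μ : V → ℝ, (∀ v, Below m (toReal v) → μ v = μ₀ v) → μ ∈ O := by
  classical
  obtain ⟨I, u, hu, hI⟩ := isOpen_pi_iff.1 hO μ₀ h
  choose m hm using fun v : V => exists_below (toReal v)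
  refine ⟨I.sup m, fun μ hμ => hI fun v hv => ?_⟩
  rw [hμ v ((hm v).mono (Finset.le_sup hv))]
  exact (hu v hv).2

lemma step {T : C00 →ₗ[ℝ] G} (hT : Function.Injective T) {O : Set (V → ℝ)} (hO : IsOpen O)
    (hmem : ∀ ν, Eqv T ν → res ν ∈ O) (k : ℕ) (s : St T) : ∃ s' : St T, Rel O k s s' := by
  obtain ⟨J, R, C, hC, h1, h2, h3, h4, h5⟩ := step_maps hT s.fc s.m (E k)
  let ν' : Seminorm ℝ C00 :=
    (s.ν.comp (LinearMap.id - J ∘ₗ R)) ⊔ ((normSeminorm ℝ (E k)).comp R)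
  let ρ' : Seminorm ℝ C00 := s.ρ ⊔ ((normSeminorm ℝ (E k)).comp R)
  have hν' : ∀ x, ν' x = max (s.ν (x - J (R x))) ‖R x‖ := fun x => rfl
  have hρ' : ∀ x, ρ' x = max (s.ρ x) ‖R x‖ := fun x => rfl
  have hle : ∀ x, ρ' x ≤ ν' x := by
    intro x
    rw [hν', hρ']
    refine max_le_max ?_ le_rfl
    have := map_add_le_add s.ρ (x - J (R x)) (J (R x))
    rw [h2, sub_add_cancel, add_zero] at this
    exact this.trans (s.le _)
  have hfc : FinCodim ρ' := by
    obtain ⟨Y, _, _, _, Λ, hΛ⟩ := s.fc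
    refine ⟨Y × E k, inferInstance, inferInstance, inferInstance, Λ.prod R, fun x hx => ?_⟩
    have e1 : Λ x = 0 := congrArg Prod.fst hx
    have e2 : R x = 0 := congrArg Prod.snd hx
    rw [hρ', hΛ x e1, e2]; simp
  have heqv : Eqv T ν' := by
    obtain ⟨D, hD, hD'⟩ := s.eqv
    refine ⟨D * (1 + C * C) + C + D, by positivity, fun x => ⟨?_, ?_⟩⟩
    · rw [hν']
      have a1 : ‖T (J (R x))‖ ≤ C * (C * ‖T x‖) :=
        (h5 _).trans (mul_le_mul_of_nonneg_left (h4 x) hC.le)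
      have a2 : ‖T (x - J (R x))‖ ≤ ‖T x‖ + C * (C * ‖T x‖) := by
        rw [map_sub]; exact (norm_sub_le _ _).trans (by linarith)
      have a3 := (hD' (x - J (R x))).1.trans (mul_le_mul_of_nonneg_left a2 hD.le)
      have a0 := norm_nonneg (T x)
      apply max_le
      · nlinarith [mul_nonneg hC.le a0, mul_nonneg hD.le a0]
      · have := h4 x
        nlinarith [mul_nonneg hD.le a0, mul_nonneg (mul_nonneg hD.le (mul_nonneg hC.le hC.le)) a0]
    · have a1 : ‖T x‖ ≤ ‖T (x - J (R x))‖ + ‖T (J (R x))‖ := by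
        have := norm_add_le (T (x - J (R x))) (T (J (R x)))
        rwa [← map_add, sub_add_cancel] at this
      have a2 := (hD' (x - J (R x))).2
      have a3 := h5 (R x)
      have a4 : s.ν (x - J (R x)) ≤ ν' x := by rw [hν']; exact le_max_left _ _
      have a5 : ‖R x‖ ≤ ν' x := by rw [hν']; exact le_max_right _ _
      have a0 := apply_nonneg ν' x
      nlinarith [mul_le_mul_of_nonneg_left a4 hD.le, mul_le_mul_of_nonneg_left a5 hC.le,
        mul_nonneg hD.le a0, mul_nonneg (mul_nonneg hD.le (mul_nonneg hC.le hC.le)) a0]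
  obtain ⟨m1, hm1⟩ := exists_level hO (hmem ν' heqv)
  obtain ⟨m2, hm2⟩ := exists_below_range J
  refine ⟨⟨ν', ρ', max (s.m + 1) (max m1 m2), hle, hfc, heqv⟩, ?_, ?_, ?_, ?_, J, R, h1, ?_, ?_, ?_⟩
  · exact lt_of_lt_of_le (Nat.lt_succ_self _) (le_max_left _ _)
  · intro x hx
    show ν' x = s.ν x
    rw [hν', h3 x hx]; simp
  · intro x
    show s.ρ x ≤ ρ' x
    rw [hρ']; exact le_max_left _ _
  · intro μ hμ
    exact hm1 μ fun v hv => hμ v (hv.mono ((le_max_left _ _).trans (le_max_right _ _)))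
  · intro z
    exact (hm2 z).mono ((le_max_right _ _).trans (le_max_right _ _))
  · intro z
    show ν' (J z) = ‖z‖
    rw [hν', h1]; simp
  · intro x
    show ‖R x‖ ≤ ρ' x
    rw [hρ']; exact le_max_right _ _

/-- the fusion -/
lemma fusion {T : C00 →ₗ[ℝ] G} (hT : Function.Injective T) (O : ℕ → Set (V → ℝ))
    (hO : ∀ n, IsOpen (O n)) (hmem : ∀ n ν, Eqv T ν → res ν ∈ O n) :
    ∃ ν : Seminorm ℝ C00, (∀ x, ν x = 0 → x = 0) ∧ (∀ n, res ν ∈ O n) ∧
      ∀ k, ∃ (J : E k →ₗ[ℝ] C00) (R : C00 →ₗ[ℝ] E k), (∀ z, R (J z) = z) ∧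
        (∀ z, ν (J z) = ‖z‖) ∧ ∀ x, ‖R x‖ ≤ ν x := by
  choose nx hnx using fun k s => step hT (hO k) (hmem k) k s
  let s0 : St T := ⟨(normSeminorm ℝ G).comp T, 0, 0, fun x => apply_nonneg _ x,
    ⟨Unit, inferInstance, inferInstance, inferInstance, 0, fun _ _ => rfl⟩,
    ⟨1, one_pos, fun x => by simp⟩⟩
  let s : ℕ → St T := fun n => Nat.rec s0 (fun k t => nx k t) n
  have hs : ∀ k, Rel (O k) k (s k) (s (k + 1)) := fun k => hnx k (s k)
  have hm : StrictMono fun k => (s k).m := strictMono_nat_of_lt_succ fun k => (hs k).1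
  have hρ : ∀ x, Monotone fun k => (s k).ρ x :=
    fun x => monotone_nat_of_le_succ fun k => (hs k).2.2.1 x
  have hst : ∀ k x, Below (s k).m x → ∀ l, k ≤ l → (s l).ν x = (s k).ν x := by
    intro k x hx l hl
    induction l, hl using Nat.le_induction with
    | base => rfl
    | succ l hl ih => rw [(hs l).2.1 x (hx.mono (hm.monotone hl)), ih]
  choose N hN using exists_below
  have hN' : ∀ x l, N x ≤ l → Below (s l).m x := fun x l hl =>
    (hN x).mono (hl.trans (hm.id_le l))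
  let p : C00 → ℝ := fun x => (s (N x)).ν x
  have hp : ∀ x l, Below (s l).m x → p x = (s l).ν x := by
    intro x l hl
    rcases le_total (N x) l with h | h
    · exact (hst _ x (hN' x _ le_rfl) l h).symm
    · exact hst l x hl _ h
  let ν : Seminorm ℝ C00 := Seminorm.of p
    (fun x y => by
      let l := max (N (x + y)) (max (N x) (N y))
      rw [hp (x + y) l (hN' _ _ (le_max_left _ _)),
        hp x l (hN' _ _ ((le_max_left _ _).trans (le_max_right _ _))),
        hp y l (hN' _ _ ((le_max_right _ _).trans (le_max_right _ _)))]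
      exact map_add_le_add _ _ _)
    (fun a x => by
      let l := max (N (a • x)) (N x)
      rw [hp (a • x) l (hN' _ _ (le_max_left _ _)), hp x l (hN' _ _ (le_max_right _ _))]
      exact map_smul_eq_mul _ _ _)
  have hν : ∀ x, ν x = p x := fun _ => rfl
  refine ⟨ν, fun x hx => (s (N x)).eqv.norm hT x hx, fun n => ?_, fun k => ?_⟩
  · exact (hs n).2.2.2.1 _ fun v hv => hp (toReal v) (n + 1) hv
  · obtain ⟨J, R, h1, h2, h3, h4⟩ := (hs k).2.2.2.2
    refine ⟨J, R, h1, fun z => by rw [hν, hp _ (k + 1) (h2 z), h3], fun x => ?_⟩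
    let l := max (N x) (k + 1)
    rw [hν, hp x l (hN' _ _ (le_max_left _ _))]
    exact ((h4 x).trans (hρ x (le_max_right (N x) (k + 1)))).trans ((s l).le x)

theorem not_gdelta_B (hG : IsGurarii G) : ¬ IsGδ (isoClass B G) := by
  intro h
  have := hG.1
  obtain ⟨T, hT, hTd⟩ := exists_dense_inj hG
  obtain ⟨U, hU, hUe⟩ := isGδ_iff_eq_iInter_nat.1 h
  choose O hO hOU using fun n => isOpen_induced_iff.1 (hU n)
  have hmem : ∀ n ν, Eqv T ν → res ν ∈ O n := by
    intro n ν hν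
    have h1 : (⟨res ν, res_mem_B ν (hν.norm hT)⟩ : B) ∈ isoClass B G :=
      ⟨ν, fun _ => rfl, hν.iso hTd⟩
    rw [hUe, Set.mem_iInter] at h1
    have h2 := h1 n
    rw [← hOU n] at h2
    exact h2
  obtain ⟨ν, h1, h2, h3⟩ := fusion hT O hO hmem
  have h4 : (⟨res ν, res_mem_B ν h1⟩ : B) ∈ isoClass B G := by
    rw [hUe, Set.mem_iInter]
    intro n
    rw [← hOU n]
    exact h2 n
  obtain ⟨ν', hν', ⟨e⟩⟩ := h4
  have : ν' = ν := extends_unique hν'
  subst this
  let C : ℝ := ‖(e : X ν' →L[ℝ] G)‖ + ‖(e.symm : G →L[ℝ] X ν')‖ + 1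
  refine gur_no_copies hG C (by positivity) fun k => ?_
  obtain ⟨J, R, hRJ, hJ, hR⟩ := h3 k
  have hR' : ∀ x, ‖R x‖ ≤ 1 * ‖toX ν' x‖ := fun x => by rw [one_mul, norm_toX]; exact hR x
  let Rt : X ν' →L[ℝ] E k := R.extendOfNorm (toX ν')
  refine ⟨(e : X ν' →ₗ[ℝ] G) ∘ₗ toX ν' ∘ₗ J, (Rt : X ν' →ₗ[ℝ] E k) ∘ₗ (e.symm : G →ₗ[ℝ] X ν'),
    fun z => ?_, fun z => ?_, fun g => ?_⟩
  · show Rt (e.symm (e (toX ν' (J z)))) = z
    rw [e.symm_apply_apply, LinearMap.extendOfNorm_eq (dense_toX ν') ⟨1, hR'⟩, hRJ]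
  · show ‖e (toX ν' (J z))‖ ≤ C * ‖z‖
    have := (e : X ν' →L[ℝ] G).le_opNorm (toX ν' (J z))
    rw [norm_toX, hJ] at this
    refine this.trans (mul_le_mul_of_nonneg_right ?_ (norm_nonneg _))
    simp only [C]
    linarith [norm_nonneg (e.symm : G →L[ℝ] X ν')]
  · show ‖Rt (e.symm g)‖ ≤ C * ‖g‖
    have a1 := LinearMap.norm_extendOfNorm_apply_le (dense_toX ν') 1 hR' (e.symm g)
    have a2 := (e.symm : G →L[ℝ] X ν').le_opNorm g
    rw [one_mul] at a1
    refine (a1.trans a2).trans (mul_le_mul_of_nonneg_right ?_ (norm_nonneg _))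
    simp only [C]
    linarith [norm_nonneg (e : X ν' →L[ℝ] G)]

theorem not_gdelta_Pinf (hG : IsGurarii G) : ¬ IsGδ (isoClass Pinf G) := by
  intro h
  apply not_gdelta_B hG
  have hsub : B ⊆ Pinf := fun μ hμ => hμ.1
  have h2 : IsGδ (Set.inclusion hsub ⁻¹' isoClass Pinf G) := h.preimage (continuous_inclusion hsub)
  exact h2

end Pool.Agent.H12Z.Gur
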