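import Pool.Agent.H754Z.TA.Str

set_option autoImplicit false

namespace Pool.Agent.H754Z.TA

open MeasureTheory Filter Topology Pointwise

universe u v

namespace P11

section Hilbert

variable {X : Type u} [MeasurableSpace X] {μ : Measure X}
  {E : Type v} [NormedAddCommGroup E] [InnerProductSpace ℂ E] [NormedSpace ℝ E]
  [CompleteSpace E]

lemma integral_mem_closed (S : Submodule ℂ E) (hS : IsClosed (S : Set E)) {F : X → E}
    (hF : Integrable F μ) (hmem : ∀ x, F x ∈ S) : ∫ x, F x ∂μ ∈ S := by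
  have : CompleteSpace S := hS.completeSpace_coe
  rw [← S.orthogonal_orthogonal, Submodule.mem_orthogonal]
  intro w hw
  rw [← integral_inner hF]
  have : ∀ x, (inner ℂ w (F x) : ℂ) = 0 := fun x =>
    Submodule.inner_left_of_mem_orthogonal (hmem x) hw
  simp [this]

lemma integral_inner_left {F : X → E} (hF : Integrable F μ) (c : E) :
    (inner ℂ (∫ x, F x ∂μ) c : ℂ) = ∫ x, (inner ℂ (F x) c : ℂ) ∂μ := by
  rw [← inner_conj_symm, ← integral_inner hF, ← integral_conj]
  simp only [inner_conj_symm]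

end Hilbert

variable {G : Type u} [Group G] [TopologicalSpace G] [IsTopologicalGroup G]
  [MeasurableSpace G] [BorelSpace G] (μ : Measure G) [μ.IsHaarMeasure]

lemma coe_lam (x : G) (ξ : LTwo μ) : lam μ x ξ =ᵐ[μ] fun y => ξ (x⁻¹ * y) :=
  Lp.coeFn_compMeasurePreserving ξ (measurePreserving_mul_left μ x⁻¹)

lemma lam_mul (x y : G) (ξ : LTwo μ) : lam μ (x * y) ξ = lam μ x (lam μ y ξ) := by
  apply Lp.ext
  have h1 := (measurePreserving_mul_left μ x⁻¹).quasiMeasurePreserving.ae_eq_comp (coe_lam μ y ξ)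
  filter_upwards [coe_lam μ (x * y) ξ, coe_lam μ x (lam μ y ξ), h1] with z a b c
  rw [a, b]
  simp only [Function.comp] at c
  rw [c, mul_inv_rev, mul_assoc]

lemma lam_one (ξ : LTwo μ) : lam μ 1 ξ = ξ := by
  apply Lp.ext
  filter_upwards [coe_lam μ 1 ξ] with z a
  rw [a, inv_one, one_mul]

lemma inner_lam (w x : G) (ξ η : LTwo μ) :
    (inner ℂ (lam μ w η) (lam μ x ξ) : ℂ) = coef μ ξ η (w⁻¹ * x) := by
  have h1 : lam μ x ξ = lam μ w (lam μ (w⁻¹ * x) ξ) := by
    rw [← lam_mul, mul_inv_cancel_left]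
  rw [h1]
  exact LinearIsometry.inner_map_map _ _ _

lemma lam_mem (x : G) : lam μ x ∈ VN μ :=
  Set.subset_centralizer_centralizer (Set.mem_range_self x)

lemma norm_lam_le (x : G) : ‖lam μ x‖ ≤ 1 := LinearIsometry.norm_toContinuousLinearMap_le _

lemma lam_cont [LocallyCompactSpace G] [T2Space G] [μ.Regular] (ξ : LTwo μ) :
    Continuous fun x => lam μ x ξ := by
  let g : G → C(G, G) := fun x => ⟨fun y => x⁻¹ * y, by fun_prop⟩
  have hg : Continuous g :=
    ContinuousMap.continuous_of_continuous_uncurry g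
      (show Continuous fun p : G × G => p.1⁻¹ * p.2 by fun_prop)
  exact Continuous.compMeasurePreservingLp (f := fun _ => ξ) continuous_const hg
    (fun x => measurePreserving_mul_left μ x⁻¹) (by norm_num)

lemma coef_cont [LocallyCompactSpace G] [T2Space G] [μ.Regular] (ξ η : LTwo μ) :
    Continuous (coef μ ξ η) :=
  continuous_const.inner (lam_cont μ ξ)

variable (A : NonUnitalSubalgebra ℂ (G → ℂ))

/-- First slot. -/
def SL (η : LTwo μ) : Submodule ℂ (LTwo μ) where
  carrier := {ξ | coef μ ξ η ∈ A}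
  add_mem' {a b} ha hb := by
    have : coef μ (a + b) η = coef μ a η + coef μ b η := by
      funext x; simp [coef, inner_add_right]
    change coef μ (a + b) η ∈ A
    rw [this]; exact A.add_mem ha hb
  zero_mem' := by
    have : coef μ 0 η = 0 := by funext x; simp [coef]
    change coef μ 0 η ∈ A
    rw [this]; exact A.zero_mem
  smul_mem' c a ha := by
    have : coef μ (c • a) η = c • coef μ a η := by
      funext x; simp [coef, inner_smul_right]
    change coef μ (c • a) η ∈ A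
    rw [this]; exact SMulMemClass.smul_mem c ha

/-- Second slot. -/
def SR (ξ : LTwo μ) : Submodule ℂ (LTwo μ) where
  carrier := {η | coef μ ξ η ∈ A}
  add_mem' {a b} ha hb := by
    have : coef μ ξ (a + b) = coef μ ξ a + coef μ ξ b := by
      funext x; simp [coef, inner_add_left]
    change coef μ ξ (a + b) ∈ A
    rw [this]; exact A.add_mem ha hb
  zero_mem' := by
    have : coef μ ξ 0 = 0 := by funext x; simp [coef]
    change coef μ ξ 0 ∈ A
    rw [this]; exact A.zero_mem
  smul_mem' c a ha := by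
    have : coef μ ξ (c • a) = (starRingEnd ℂ c) • coef μ ξ a := by
      funext x; simp [coef, inner_smul_left]
    change coef μ ξ (c • a) ∈ A
    rw [this]; exact SMulMemClass.smul_mem _ ha

variable {μ A}

lemma small_aux {a b ε : ℝ} (ha : 0 ≤ a) (hε : 0 < ε) (hb : b ≤ ε / (a + 1)) : a * b ≤ ε := by
  have h1 : a * b ≤ a * (ε / (a + 1)) := mul_le_mul_of_nonneg_left hb ha
  have h2 : a * (ε / (a + 1)) ≤ ε := by
    rw [← mul_div_assoc, div_le_iff₀ (by positivity)]; nlinarith
  exact h1.trans h2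

lemma closed_SL (hA : Admissible μ A) (η : LTwo μ) : IsClosed (SL μ A η : Set (LTwo μ)) := by
  refine isClosed_of_closure_subset fun ξ hξ => hA.closed ξ η fun ε hε => ?_
  obtain ⟨ξ', h1, h2⟩ := Metric.mem_closure_iff.1 hξ (ε / (‖η‖ + 1)) (by positivity)
  refine ⟨ξ', η, h1, fun T _ hT => ?_⟩
  rw [← inner_sub_right, ← map_sub]
  refine (norm_inner_le_norm _ _).trans (small_aux (norm_nonneg _) hε ?_)
  rw [dist_eq_norm] at h2
  exact (T.le_opNorm _).trans ((mul_le_of_le_one_left (norm_nonneg _) hT).trans h2.le)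

lemma closed_SR (hA : Admissible μ A) (ξ : LTwo μ) : IsClosed (SR μ A ξ : Set (LTwo μ)) := by
  refine isClosed_of_closure_subset fun η hη => hA.closed ξ η fun ε hε => ?_
  obtain ⟨η', h1, h2⟩ := Metric.mem_closure_iff.1 hη (ε / (‖ξ‖ + 1)) (by positivity)
  refine ⟨ξ, η', h1, fun T _ hT => ?_⟩
  rw [← inner_sub_left]
  rw [dist_eq_norm] at h2
  have h3 : ‖T ξ‖ ≤ ‖ξ‖ := (T.le_opNorm _).trans (mul_le_of_le_one_left (norm_nonneg _) hT)
  refine (norm_inner_le_norm _ _).trans ?_
  refine (mul_le_mul_of_nonneg_left h3 (norm_nonneg _)).trans ?_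
  rw [mul_comm]
  exact small_aux (norm_nonneg _) hε h2.le

lemma orbit_int [LocallyCompactSpace G] [T2Space G] [μ.Regular] (ξ : LTwo μ) {h : G → ℂ}
    (hc : Continuous h) (hs : HasCompactSupport h) :
    Integrable (fun z => h z • lam μ z ξ) μ :=
  (hc.smul (lam_cont μ ξ)).integrable_of_hasCompactSupport hs.smul_right

lemma coef_int_left [LocallyCompactSpace G] [T2Space G] [μ.Regular] (ξ η : LTwo μ) {h : G → ℂ}
    (hc : Continuous h) (hs : HasCompactSupport h) (x : G) :
    coef μ (∫ z, h z • lam μ z ξ ∂μ) η x = ∫ z, coef μ ξ η (x * z) * h z ∂μ := by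
  have hi := orbit_int ξ hc hs
  rw [coef, ← (lam μ x).integral_comp_comm hi, ← integral_inner ((lam μ x).integrable_comp hi)]
  refine integral_congr_ae (Eventually.of_forall fun z => ?_)
  simp only [coef]
  rw [map_smul, inner_smul_right, lam_mul, mul_comm]

omit [Group G] [IsTopologicalGroup G] [MeasurableSpace G] [BorelSpace G] in
lemma conj_supp {h : G → ℂ} (hs : HasCompactSupport h) :
    HasCompactSupport fun w => starRingEnd ℂ (h w) :=
  hs.comp_left (g := starRingEnd ℂ) (map_zero _)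

lemma inner_int_left [LocallyCompactSpace G] [T2Space G] [μ.Regular] (η ζ : LTwo μ) {h : G → ℂ}
    (hc : Continuous h) (hs : HasCompactSupport h) :
    (inner ℂ (∫ w, starRingEnd ℂ (h w) • lam μ w η ∂μ) ζ : ℂ) =
      ∫ w, h w * inner ℂ (lam μ w η) ζ ∂μ := by
  rw [integral_inner_left (orbit_int η (h := fun w => starRingEnd ℂ (h w))
    (Complex.continuous_conj.comp hc) (conj_supp hs))]
  refine integral_congr_ae (Eventually.of_forall fun w => ?_)
  simp only
  rw [inner_smul_left, Complex.conj_conj]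

lemma coef_int_right [LocallyCompactSpace G] [T2Space G] [μ.Regular] (ξ η : LTwo μ) {h : G → ℂ}
    (hc : Continuous h) (hs : HasCompactSupport h) (x : G) :
    coef μ ξ (∫ w, starRingEnd ℂ (h w) • lam μ w η ∂μ) x =
      ∫ w, h w * coef μ ξ η (w⁻¹ * x) ∂μ := by
  rw [coef, inner_int_left η _ hc hs]
  simp only [inner_lam]

/-- Classes of continuous compactly supported functions. -/
def DD (μ : Measure G) : Set (LTwo μ) :=
  {ξ | ∃ k : G → ℂ, Continuous k ∧ HasCompactSupport k ∧ ξ =ᵐ[μ] k}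

lemma approx_cc [LocallyCompactSpace G] [T2Space G] [μ.Regular] {f : G → ℂ} (hf : MemLp f 2 μ)
    {ε : ENNReal} (hε : ε ≠ 0) :
    ∃ g : G → ℂ, eLpNorm (f - g) 2 μ ≤ ε ∧ Continuous g ∧ HasCompactSupport g := by
  apply hf.induction_dense (by norm_num) _ _ _ _ hε
  rotate_left
  · rintro f g ⟨f_cont, hf⟩ ⟨g_cont, hg⟩
    exact ⟨f_cont.add g_cont, hf.add hg⟩
  · rintro f ⟨f_cont, hf⟩
    exact (f_cont.memLp_of_hasCompactSupport (p := 2) (μ := μ) hf).aestronglyMeasurable
  intro c t ht htμ ε hε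
  obtain ⟨η, ηpos, hη⟩ : ∃ η : NNReal, 0 < η ∧
      ∀ s : Set G, μ s ≤ η → eLpNorm (s.indicator fun _x => c) 2 μ ≤ ε :=
    exists_eLpNorm_indicator_le (by norm_num) c hε
  have h2 : (η : ENNReal) / 2 ≠ 0 := (ENNReal.half_pos (by exact_mod_cast ηpos.ne')).ne'
  obtain ⟨K, Kt, Kc, -, μK⟩ := ht.exists_isCompact_isClosed_sdiff_lt htμ.ne h2
  obtain ⟨V, tV, Vo, -, μV⟩ := ht.exists_isOpen_sdiff_lt htμ.ne h2
  obtain ⟨g, g1, g0, gs, gI⟩ := exists_continuous_one_zero_of_isCompact Kc Vo.isClosed_compl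
    (Set.disjoint_compl_right_iff_subset.2 (Kt.trans tV))
  refine ⟨fun x => (g x : ℂ) * c, ?_, by fun_prop,
    (gs.comp_left (g := Complex.ofReal) Complex.ofReal_zero).mul_right⟩
  refine (eLpNorm_mono (g := (V \ K).indicator fun _ => c) fun x => ?_).trans (hη _ ?_)
  · have hg := gI x
    rw [Pi.sub_apply]
    by_cases hK : x ∈ K
    · simp [g1 hK, Kt hK]
    by_cases hV : x ∈ V
    · rw [Set.indicator_of_mem (show x ∈ V \ K from ⟨hV, hK⟩)]
      by_cases hx : x ∈ t
      · rw [Set.indicator_of_mem hx, ← sub_one_mul, norm_mul, ← Complex.ofReal_one,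
          ← Complex.ofReal_sub, Complex.norm_real]
        refine mul_le_of_le_one_left (norm_nonneg _) (abs_le.2 ⟨?_, ?_⟩) <;> linarith [hg.1, hg.2]
      · rw [Set.indicator_of_notMem hx, sub_zero, norm_mul, Complex.norm_real]
        refine mul_le_of_le_one_left (norm_nonneg _) (abs_le.2 ⟨?_, ?_⟩) <;> linarith [hg.1, hg.2]
    · simp [g0 hV, show x ∉ t from fun h => hV (tV h)]
  · calc μ (V \ K) ≤ μ ((V \ t) ∪ (t \ K)) := measure_mono (sdiff_triangle V t K)
      _ ≤ μ (V \ t) + μ (t \ K) := measure_union_le _ _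
      _ ≤ η / 2 + η / 2 := add_le_add μV.le μK.le
      _ = η := ENNReal.add_halves _

lemma dense_DD [LocallyCompactSpace G] [T2Space G] [μ.Regular] : Dense (DD μ) := by
  refine Metric.dense_iff.2 fun ξ ε hε => ?_
  obtain ⟨g, h2, h3, h1⟩ := approx_cc (Lp.memLp ξ) (ε := ENNReal.ofReal (ε / 2))
    (by simpa using hε)
  have h4 : MemLp g 2 μ := h3.memLp_of_hasCompactSupport h1
  refine ⟨h4.toLp g, ?_, g, h3, h1, h4.coeFn_toLp⟩
  rw [Metric.mem_ball, dist_comm, Lp.dist_def]
  have h5 : eLpNorm (⇑ξ - ⇑(h4.toLp g)) 2 μ = eLpNorm (⇑ξ - g) 2 μ := by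
    refine eLpNorm_congr_ae ?_
    filter_upwards [h4.coeFn_toLp] with x hx
    simp [hx]
  rw [h5]
  exact (ENNReal.toReal_le_of_le_ofReal (by positivity) h2).trans_lt (by linarith)

lemma coef_supp [T2Space G] {ξ η : LTwo μ} (hξ : ξ ∈ DD μ) (hη : η ∈ DD μ) :
    HasCompactSupport (coef μ ξ η) := by
  obtain ⟨k, -, hk, hk'⟩ := hξ
  obtain ⟨h, -, hh, hh'⟩ := hη
  refine HasCompactSupport.intro (hh.isCompact.mul hk.isCompact.inv) fun x hx => ?_
  rw [coef, L2.inner_def]
  refine integral_eq_zero_of_ae ?_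
  have h1 := (measurePreserving_mul_left μ x⁻¹).quasiMeasurePreserving.ae_eq_comp hk'
  filter_upwards [hh', coe_lam μ x ξ, h1] with y a b c
  simp only [Function.comp] at c
  rw [a, b, c, Pi.zero_apply]
  by_cases h0 : h y = 0
  · rw [h0, inner_zero_left]
  by_cases k0 : k (x⁻¹ * y) = 0
  · rw [k0, inner_zero_right]
  exfalso
  refine hx ⟨y, subset_tsupport _ h0, (x⁻¹ * y)⁻¹, ?_, by group⟩
  rw [Set.inv_mem_inv]
  exact subset_tsupport _ k0

end P11

open P11 in
theorem coreHyp_of_admissible {G : Type u} [Group G] [TopologicalSpace G] [IsTopologicalGroup G]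
    [LocallyCompactSpace G] [T2Space G] [MeasurableSpace G] [BorelSpace G] (μ : Measure G)
    [μ.IsHaarMeasure] [μ.Regular] (A : NonUnitalSubalgebra ℂ (G → ℂ)) (hA : Admissible μ A) :
    CoreHyp μ A where
  cont u hu := by
    obtain ⟨ξ, η, rfl⟩ := hA.sub u hu
    exact coef_cont μ ξ η
  taub u hu ε hε := by
    obtain ⟨ξ, η, rfl⟩ := hA.sub u hu
    obtain ⟨ξ', η', h1, h2, h3⟩ := hA.taub ξ η hu ε hε
    exact ⟨_, h1, h2, fun x => h3 _ (lam_mem μ x) (norm_lam_le μ x)⟩
  left := hA.left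
  right := hA.right
  lconv u hu h hc hs := by
    obtain ⟨ξ, η, rfl⟩ := hA.sub u hu
    have h1 : ∫ w, starRingEnd ℂ (h w) • lam μ w η ∂μ ∈ SR μ A ξ := by
      refine integral_mem_closed _ (closed_SR hA ξ)
        (orbit_int η (Complex.continuous_conj.comp hc) (conj_supp hs)) fun w => ?_
      refine Submodule.smul_mem _ _ ?_
      have : coef μ ξ (lam μ w η) = fun x => coef μ ξ η (w⁻¹ * x) :=
        funext fun x => inner_lam μ w x ξ η
      change coef μ ξ (lam μ w η) ∈ A
      rw [this]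
      exact hA.left _ hu _
    have h2 := funext (coef_int_right ξ η hc hs)
    rw [← h2]
    exact h1
  rconv u hu h hc hs := by
    obtain ⟨ξ, η, rfl⟩ := hA.sub u hu
    have h1 : ∫ z, h z • lam μ z ξ ∂μ ∈ SL μ A η := by
      refine integral_mem_closed _ (closed_SL hA η) (orbit_int ξ hc hs) fun z => ?_
      refine Submodule.smul_mem _ _ ?_
      have : coef μ (lam μ z ξ) η = fun x => coef μ ξ η (x * z) :=
        funext fun x => by simp only [coef, lam_mul]
      change coef μ (lam μ z ξ) η ∈ A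
      rw [this]
      exact hA.right _ hu _
    have h2 := funext (coef_int_left ξ η hc hs)
    rw [← h2]
    exact h1
  char_eval := hA.char_eval
  eval_ne := hA.eval_ne
  eval_inj := hA.eval_inj

open P11 in
theorem all_of_core {G : Type u} [Group G] [TopologicalSpace G] [IsTopologicalGroup G]
    [LocallyCompactSpace G] [T2Space G] [MeasurableSpace G] [BorelSpace G] (μ : Measure G)
    [μ.IsHaarMeasure] [μ.Regular] (A : NonUnitalSubalgebra ℂ (G → ℂ)) (hA : Admissible μ A)
    (hcore : ∀ ψ : G → ℂ, Continuous ψ → ψ 1 ≠ 0 →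
      ∃ f ∈ A, HasCompactSupport f ∧ ∫ x, f x * ψ x ∂μ ≠ 0) (ξ η : LTwo μ) :
    coef μ ξ η ∈ A := by
  have hC := coreHyp_of_admissible μ A hA
  let Y : Submodule ℂ (LTwo μ) := ⨅ k ∈ DD μ, SR μ A k
  have hY : ∀ ζ, ζ ∈ Y ↔ ∀ k ∈ DD μ, coef μ k ζ ∈ A := fun ζ => by
    simp only [Y, Submodule.mem_iInf]; rfl
  have hYc : IsClosed (Y : Set (LTwo μ)) := by
    simp only [Y, Submodule.coe_iInf]
    exact isClosed_iInter fun k => isClosed_iInter fun _ => closed_SR hA k
  have : CompleteSpace Y := hYc.completeSpace_coe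
  have htop : Y = ⊤ := by
    rw [← Submodule.orthogonal_eq_bot_iff, eq_bot_iff]
    intro ζ hζ
    rw [Submodule.mem_bot]
    by_contra h0
    obtain ⟨h, hh, hne⟩ : ∃ h ∈ DD μ, (inner ℂ h ζ : ℂ) ≠ 0 := by
      by_contra hcon
      push Not at hcon
      exact h0 (dense_DD.eq_zero_of_inner_right ℂ hcon)
    obtain ⟨f, hf, hfs, hfi⟩ := hcore (fun w => inner ℂ (lam μ w h) ζ)
      ((lam_cont μ h).inner continuous_const) (by simpa only [lam_one] using hne)
    have hfc := hC.cont f hf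
    rw [← inner_int_left h ζ hfc hfs] at hfi
    refine hfi (Submodule.inner_right_of_mem_orthogonal ((hY _).2 fun k hk => ?_) hζ)
    have h1 := hC.rconv f hf (fun z => coef μ k h z⁻¹) ((coef_cont μ k h).comp continuous_inv)
      ((coef_supp hk hh).comp_homeomorph (Homeomorph.inv G))
    have h2 : coef μ k (∫ w, starRingEnd ℂ (f w) • lam μ w h ∂μ) =
        fun x => ∫ z, f (x * z) * coef μ k h z⁻¹ ∂μ := by
      funext x
      rw [coef_int_right k h hfc hfs,
        ← integral_mul_left_eq_self (fun w => f w * coef μ k h (w⁻¹ * x)) x]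
      simp only [mul_inv_rev, inv_mul_cancel_right]
    rw [h2]
    exact h1
  have hη : DD μ ⊆ SL μ A η := fun k hk => (hY η).1 (htop ▸ Submodule.mem_top) k hk
  exact (closed_SL hA η).closure_subset_iff.2 hη (dense_DD ξ)

end Pool.Agent.H754Z.TA
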